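import Mathlib

/-!
# Two contradictions in big Cohen-Macaulay algebras of characteristic `p`
-/

set_option autoImplicit false

namespace Pool.Agent.Helper46.BC

/-- `x, y` and `y, x` are regular sequences on the ring `B`. -/
structure Reg2 {B : Type*} [CommRing B] (x y : B) : Prop where
  hx : ∀ b : B, x * b = 0 → b = 0
  hy : ∀ b : B, y * b = 0 → b = 0
  hxy : ∀ b c : B, y * b = x * c → ∃ d : B, b = x * d
  hyx : ∀ b c : B, x * b = y * c → ∃ d : B, b = y * d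
  one : ¬ ∃ b c : B, (1 : B) = x * b + y * c

section

variable {B : Type*} [CommRing B]

lemma colon_one (X Y : B)
    (h2 : ∀ b c : B, Y * b = X * c → ∃ d : B, b = X * d) (M : ℕ) :
    ∀ u v : B, Y ^ M * u = X * v → ∃ d : B, u = X * d := by
  induction M with
  | zero => intro u v h; exact ⟨v, by rw [← h, pow_zero, one_mul]⟩
  | succ M ih =>
    intro u v h
    obtain ⟨d, hd⟩ := h2 (Y ^ M * u) v (by rw [← h]; ring)
    exact ih u d hd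

lemma colon (X Y : B) (hX : ∀ b : B, X * b = 0 → b = 0)
    (h2 : ∀ b c : B, Y * b = X * c → ∃ d : B, b = X * d) (M N : ℕ) :
    ∀ u v : B, Y ^ M * u = X ^ N * v → ∃ d : B, u = X ^ N * d := by
  induction N with
  | zero => intro u v _; exact ⟨u, by rw [pow_zero, one_mul]⟩
  | succ N ih =>
    intro u v h
    obtain ⟨d, hd⟩ := colon_one X Y h2 M u (X ^ N * v) (by rw [h]; ring)
    have h3 : Y ^ M * d - X ^ N * v = 0 := by
      apply hX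
      have : X * (Y ^ M * d - X ^ N * v) = Y ^ M * (X * d) - X ^ (N + 1) * v := by ring
      rw [this, ← hd, h, sub_self]
    obtain ⟨e, he⟩ := ih d v (sub_eq_zero.mp h3)
    exact ⟨e, by rw [hd, he]; ring⟩

lemma reg_pow (X : B) (hX : ∀ b : B, X * b = 0 → b = 0) (N : ℕ) :
    ∀ b : B, X ^ N * b = 0 → b = 0 := by
  induction N with
  | zero => intro b h; simpa using h
  | succ N ih =>
    intro b h
    apply ih
    apply hX
    rw [← h]; ring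

/-- `f = x^6 + t y^6` is regular modulo `x`. -/
lemma f_mod_x {x y : B} (h : Reg2 x y) {t ti : B} (ht : t * ti = 1) :
    ∀ b c : B, (x ^ 6 + t * y ^ 6) * b = x * c → ∃ d : B, b = x * d := by
  intro b c hbc
  refine colon_one x y h.hxy 6 b (ti * (c - x ^ 5 * b)) ?_
  linear_combination ti * hbc - y ^ 6 * b * ht

lemma f_mod_y {x y : B} (h : Reg2 x y) (t : B) :
    ∀ b c : B, (x ^ 6 + t * y ^ 6) * b = y * c → ∃ d : B, b = y * d := by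
  intro b c hbc
  refine colon_one y x h.hyx 6 b (c - t * y ^ 5 * b) ?_
  linear_combination hbc

/-- the elimination, first part -/
lemma elim_one (V XA YA y3 c2 k3 k4 L ν a b S3 S4 P3 P4 : B) (hL : L * ν = 1)
    (hV : V * y3 = YA)
    (E2 : 0 = c2 * V + k3 * P3 + L * (k4 * P4))
    (d1 : YA * a - XA * b = P3 * S3) (d2 : YA * a - ν * XA * b = P4 * S4) :
    P4 * (S3 * k4 + S4 * k3) = V * (ν * (-(S3 * c2) + (L - 1) * k3 * a * y3)) := by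
  have h1 : L * (P4 * (S3 * k4 + S4 * k3)) = -(S3 * c2 * V) + (L - 1) * k3 * a * YA := by
    linear_combination S3 * (-1 : B) * E2 + k3 * d1 - L * k3 * d2 - k3 * XA * b * hL
  have h2 : P4 * (S3 * k4 + S4 * k3) = ν * (L * (P4 * (S3 * k4 + S4 * k3))) := by
    linear_combination -(P4 * (S3 * k4 + S4 * k3)) * hL
  rw [h2, h1, ← hV]; ring

/-- the elimination, second part -/
lemma elim_two (U XA YA x3 W c1 k3 k4 ν a b S3 S4 P3 P4 : B)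
    (hU : U * x3 = XA)
    (E1 : W = c1 * U + k3 * P3 + k4 * P4)
    (d1 : YA * a - XA * b = P3 * S3) (d2 : YA * a - ν * XA * b = P4 * S4) :
    S3 * W = U * (S3 * c1 + (ν - 1) * k3 * b * x3) + P4 * (S3 * k4 + S4 * k3) := by
  rw [E1]
  linear_combination -k3 * d1 + k3 * d2 - (ν - 1) * k3 * b * hU

/-- final contradiction in the first case -/
lemma final_one (m : ℕ) (x y t ti ρ ρi G d' q r S3 : B) (h : Reg2 x y) (ht : t * ti = 1)
    (hρ : ρ * ρi = 1)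
    (hS : S3 = x ^ (6 * m + 1) * G + (x ^ 6 + t * y ^ 6) ^ m * y ^ (6 * m + 1) * d')
    (d3 : S3 = (x ^ 6 + t * y ^ 6) ^ m * (y ^ 6) ^ (m + 1) * q +
      ρ * (x ^ 6) ^ m * (y ^ 6) ^ (2 * m) + (x ^ 6) ^ (m + 1) * r) : False := by
  set f : B := x ^ 6 + t * y ^ 6 with hf
  have h1 : ρ * (x ^ (6 * m)) * y ^ (12 * m) = x ^ (6 * m + 1) * (G - x ^ 5 * r) +
      f ^ m * y ^ (6 * m + 1) * (d' - y ^ 5 * q) := by
    have e1 : (x ^ 6) ^ m = x ^ (6 * m) := by rw [← pow_mul]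
    have e2 : (y ^ 6) ^ (2 * m) = y ^ (12 * m) := by rw [← pow_mul]; congr 1; ring
    have e3 : (y ^ 6) ^ (m + 1) = y ^ (6 * m + 1) * y ^ 5 := by
      rw [← pow_mul, ← pow_add]; congr 1
    have e4 : (x ^ 6) ^ (m + 1) = x ^ (6 * m + 1) * x ^ 5 := by
      rw [← pow_mul, ← pow_add]; congr 1
    rw [e1, e2, e3, e4] at d3
    linear_combination hS - d3
  have h2 : y ^ (6 * m + 1) * (f ^ m * (d' - y ^ 5 * q)) =
      x ^ (6 * m) * (ρ * y ^ (12 * m) - x * (G - x ^ 5 * r)) := by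
    linear_combination -h1
  obtain ⟨d1, hd1⟩ := colon x y h.hx h.hxy _ _ _ _ h2
  obtain ⟨d2, hd2⟩ := colon x f h.hx (f_mod_x h ht) _ _ _ _ hd1
  have h3 : x ^ (6 * m) * (ρ * y ^ (12 * m) - x * (G - x ^ 5 * r) -
      f ^ m * y ^ (6 * m + 1) * d2) = 0 := by
    have : f ^ m * y ^ (6 * m + 1) * (d' - y ^ 5 * q) =
      x ^ (6 * m) * (f ^ m * y ^ (6 * m + 1) * d2) := by rw [hd2]; ring
    linear_combination h1 + this
  have h4 := reg_pow x h.hx _ _ h3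
  -- f^m = t^m y^(6m) mod x
  obtain ⟨g, hg⟩ : ∃ g, f ^ m = t ^ m * y ^ (6 * m) + x * g := by
    have hd : (x ^ 6) ∣ f ^ m - (t * y ^ 6) ^ m := by
      have := sub_dvd_pow_sub_pow f (t * y ^ 6) m
      rwa [hf, add_sub_cancel_right] at this
    obtain ⟨g, hg⟩ := hd
    refine ⟨x ^ 5 * g, ?_⟩
    have : (t * y ^ 6) ^ m = t ^ m * y ^ (6 * m) := by rw [mul_pow, ← pow_mul]
    linear_combination hg + this
  have h5 : y ^ (12 * m) * (ρ - t ^ m * y * d2) =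
      x * ((G - x ^ 5 * r) + g * y ^ (6 * m + 1) * d2) := by
    have e : y ^ (12 * m) = y ^ (6 * m) * y ^ (6 * m) := by rw [← pow_add]; congr 1; ring
    rw [hg] at h4
    rw [e] at h4 ⊢
    linear_combination h4
  obtain ⟨d3', hd3⟩ := colon_one x y h.hxy _ _ _ h5
  exact h.one ⟨ρi * d3', ρi * (t ^ m * d2), by linear_combination (-1 : B) * hρ + ρi * hd3⟩

/-- Contradiction for `p = 6 m + 1`. -/
theorem caseOne (p m : ℕ) (hp : p.Prime) [CharP B p] (hpm : p = 6 * m + 1)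
    (x y z3 z4 c1 c2 c3 c4 t ti ν l ρ ρi a b S3 S4 q r : B) (h : Reg2 x y)
    (ht : t * ti = 1) (hρ : ρ * ρi = 1)
    (h3 : z3 ^ 6 = x ^ 6 + y ^ 6) (h4 : z4 ^ 6 = x ^ 6 + t * y ^ 6)
    (e1 : x ^ 2 * y ^ 2 = c1 * x ^ 3 + c3 * z3 + c4 * z4)
    (e2 : 0 = c2 * y ^ 3 + c3 * z3 + l * c4 * z4)
    (hl : l ^ p * ν = 1)
    (d1 : (y ^ 6) ^ (3 * m + 1) * a - (x ^ 6) ^ (3 * m + 1) * b = (x ^ 6 + y ^ 6) ^ m * S3)
    (d2 : (y ^ 6) ^ (3 * m + 1) * a - ν * (x ^ 6) ^ (3 * m + 1) * b =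
      (x ^ 6 + t * y ^ 6) ^ m * S4)
    (d3 : S3 = (x ^ 6 + t * y ^ 6) ^ m * (y ^ 6) ^ (m + 1) * q +
      ρ * (x ^ 6) ^ m * (y ^ 6) ^ (2 * m) + (x ^ 6) ^ (m + 1) * r) : False := by
  have : Fact p.Prime := ⟨hp⟩
  have z3p : z3 ^ p = z3 * (x ^ 6 + y ^ 6) ^ m := by
    rw [hpm, pow_succ, pow_mul, h3]; ring
  have z4p : z4 ^ p = z4 * (x ^ 6 + t * y ^ 6) ^ m := by
    rw [hpm, pow_succ, pow_mul, h4]; ring
  -- p-th powers
  have E1 : (x ^ 2 * y ^ 2) ^ p = c1 ^ p * (x ^ 3) ^ p + (c3 ^ p * z3) * (x ^ 6 + y ^ 6) ^ m +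
      (c4 ^ p * z4) * (x ^ 6 + t * y ^ 6) ^ m := by
    rw [e1, add_pow_char, add_pow_char, mul_pow, mul_pow, mul_pow, z3p, z4p]; ring
  have E2 : 0 = c2 ^ p * (y ^ 3) ^ p + (c3 ^ p * z3) * (x ^ 6 + y ^ 6) ^ m +
      l ^ p * ((c4 ^ p * z4) * (x ^ 6 + t * y ^ 6) ^ m) := by
    have : (0 : B) ^ p = (c2 * y ^ 3 + c3 * z3 + l * c4 * z4) ^ p := by rw [← e2]
    rw [zero_pow hp.ne_zero, add_pow_char, add_pow_char, mul_pow, mul_pow, mul_pow, mul_pow,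
      z3p, z4p] at this
    rw [this]; ring
  have xe : (x ^ 3) ^ p * x ^ 3 = (x ^ 6) ^ (3 * m + 1) := by
    rw [hpm, ← pow_mul, ← pow_mul, ← pow_add]; congr 1; ring
  have ye : (y ^ 3) ^ p * y ^ 3 = (y ^ 6) ^ (3 * m + 1) := by
    rw [hpm, ← pow_mul, ← pow_mul, ← pow_add]; congr 1; ring
  have s1 := elim_one ((y ^ 3) ^ p) _ _ (y ^ 3) (c2 ^ p) _ _ (l ^ p) ν a b S3 S4 _ _ hl ye
    E2 d1 d2
  have s2 := elim_two ((x ^ 3) ^ p) _ _ (x ^ 3) _ (c1 ^ p) _ _ ν a b S3 S4 _ _ xe E1 d1 d2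
  rw [← pow_mul] at s1
  obtain ⟨g1, hg1⟩ := colon y _ h.hy (f_mod_y h t) _ _ _ _ s1
  rw [hg1] at s2
  -- S3 x^(2p) y^(2p) = x^(3p) G + f^m y^(3p) g1
  set G : B := S3 * c1 ^ p + (ν - 1) * (c3 ^ p * z3) * b * x ^ 3 with hG
  have s3 : y ^ (2 * p) * (S3 * x ^ (2 * p) - (x ^ 6 + t * y ^ 6) ^ m * y ^ p * g1) =
      x ^ (3 * p) * G := by
    have e1 : (x ^ 2 * y ^ 2) ^ p = x ^ (2 * p) * y ^ (2 * p) := by
      rw [mul_pow, ← pow_mul, ← pow_mul]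
    have e2 : y ^ (3 * p) = y ^ (2 * p) * y ^ p := by rw [← pow_add]; congr 1; ring
    rw [e1, e2, ← pow_mul] at s2
    linear_combination s2
  obtain ⟨G2, hG2⟩ := colon x y h.hx h.hxy _ _ _ _ s3
  have e3 : x ^ (3 * p) = x ^ (2 * p) * x ^ p := by rw [← pow_add]; congr 1; ring
  have s4 : y ^ p * ((x ^ 6 + t * y ^ 6) ^ m * g1) = x ^ (2 * p) * (S3 - x ^ p * G2) := by
    rw [e3] at hG2
    linear_combination -hG2
  obtain ⟨g2, hg2⟩ := colon x y h.hx h.hxy _ _ _ _ s4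
  obtain ⟨g3, hg3⟩ := colon x _ h.hx (f_mod_x h ht) _ _ _ _ hg2
  have s5 : x ^ (2 * p) * (S3 - x ^ p * G2 - (x ^ 6 + t * y ^ 6) ^ m * y ^ p * g3) = 0 := by
    rw [hg3] at s4
    linear_combination -s4
  have s6 := reg_pow x h.hx _ _ s5
  refine final_one m x y t ti ρ ρi G2 g3 q r S3 h ht hρ ?_ d3
  rw [← hpm]
  linear_combination s6

lemma z_mod_x {x y : B} (h : Reg2 x y) {t ti z : B} (ht : t * ti = 1)
    (hz : z ^ 6 = x ^ 6 + t * y ^ 6) :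
    ∀ b c : B, z * b = x * c → ∃ d : B, b = x * d := by
  intro b c hbc
  refine f_mod_x h ht b (z ^ 5 * c) ?_
  rw [← hz]
  linear_combination z ^ 5 * hbc

/-- monomials -/
lemma mono_contra {x y : B} (h : Reg2 x y) (n : ℕ) (u ui a b : B) (hu : u * ui = 1)
    (hm : u * x ^ n * y ^ n = x ^ (n + 1) * a + y ^ (n + 1) * b) : False := by
  have h1 : y ^ n * (u * x ^ n - y * b) = x ^ (n + 1) * a := by
    linear_combination hm
  obtain ⟨a', ha'⟩ := colon x y h.hx h.hxy _ _ _ _ h1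
  have h2 : y ^ 1 * b = x ^ n * (u - x * a') := by
    linear_combination -ha'
  obtain ⟨b', hb'⟩ := colon x y h.hx h.hxy _ _ _ _ h2
  have h3 : x ^ n * (u - x * a' - y * b') = 0 := by
    rw [hb'] at h2
    linear_combination -h2
  have h4 := reg_pow x h.hx _ _ h3
  exact h.one ⟨ui * a', ui * b', by linear_combination (-1 : B) * hu + ui * h4⟩

/-- final contradiction in the second case -/
lemma final_two (p n : ℕ) (hp : p.Prime) [CharP B p] (hpn : p = 6 * n + 5)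
    (x y z3 z4 t ti ρ ρi G g q r S3 π πi p1 p2 : B) (h : Reg2 x y) (ht : t * ti = 1)
    (hρ : ρ * ρi = 1) (hπ : π * πi = 1)
    (h3 : z3 ^ 6 = x ^ 6 + y ^ 6) (h4 : z4 ^ 6 = x ^ 6 + t * y ^ 6)
    (hS : S3 * z3 = x ^ (6 * n + 2) * G + z4 ^ p * y ^ (6 * n + 2) * g)
    (d3 : S3 = (x ^ 6 + t * y ^ 6) ^ (n + 1) * (y ^ 6) ^ (n + 1) * q +
      ρ * (x ^ 6) ^ n * (y ^ 6) ^ (2 * n + 1) + (x ^ 6) ^ (n + 1) * r)
    (d4 : (x ^ 6 + y ^ 6) ^ (n + 1) * (x ^ 6 + t * y ^ 6) ^ (n + 1) = (y ^ 6) ^ (n + 2) * p1 +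
      π * (x ^ 6) ^ (n + 1) * (y ^ 6) ^ (n + 1) + (x ^ 6) ^ (n + 2) * p2) : False := by
  have : Fact p.Prime := ⟨hp⟩
  have z3p : z3 ^ p * z3 = (x ^ 6 + y ^ 6) ^ (n + 1) := by
    rw [← pow_succ, hpn, ← h3, ← pow_mul]; congr 1
  have z4p : z4 ^ p * z4 = (x ^ 6 + t * y ^ 6) ^ (n + 1) := by
    rw [← pow_succ, hpn, ← h4, ← pow_mul]; congr 1
  set f : B := x ^ 6 + t * y ^ 6 with hf
  set Q : B := (x ^ 6 + y ^ 6) ^ (n + 1) * f ^ (n + 1) with hQ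
  -- p-th power of `hS`
  have E : S3 ^ p * Q = x ^ ((6 * n + 2) * p) * (G ^ p * z3 * z4 ^ p * z4) +
      f ^ ((n + 1) * p) * y ^ ((6 * n + 2) * p) * (g ^ p * z3 * z4) := by
    have h5 : (S3 * z3) ^ p = (x ^ (6 * n + 2) * G + z4 ^ p * y ^ (6 * n + 2) * g) ^ p := by
      rw [hS]
    rw [add_pow_char, mul_pow, mul_pow, mul_pow, mul_pow, ← pow_mul, ← pow_mul] at h5
    have h6 : (z4 ^ p) ^ p * z4 ^ p = f ^ ((n + 1) * p) := by
      rw [pow_mul, ← z4p, mul_pow]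
    rw [hQ, ← z3p]
    calc S3 ^ p * (z3 ^ p * z3 * f ^ (n + 1)) = (S3 ^ p * z3 ^ p) * z3 * (z4 ^ p * z4) := by
          rw [← z4p]; ring
      _ = _ := by
          rw [h5, ← h6]; ring
  have D : S3 ^ p = f ^ ((n + 1) * p) * y ^ ((6 * n + 6) * p) * q ^ p +
      ρ ^ p * x ^ (6 * n * p) * y ^ ((12 * n + 6) * p) + x ^ ((6 * n + 6) * p) * r ^ p := by
    have e1 : ((x ^ 6) ^ n) ^ p = x ^ (6 * n * p) := by
      rw [← pow_mul, ← pow_mul]; congr 1; ring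
    have e2 : ((y ^ 6) ^ (2 * n + 1)) ^ p = y ^ ((12 * n + 6) * p) := by
      rw [← pow_mul, ← pow_mul]; congr 1; ring
    have e3 : ((y ^ 6) ^ (n + 1)) ^ p = y ^ ((6 * n + 6) * p) := by
      rw [← pow_mul, ← pow_mul]; congr 1; ring
    have e4 : ((x ^ 6) ^ (n + 1)) ^ p = x ^ ((6 * n + 6) * p) := by
      rw [← pow_mul, ← pow_mul]; congr 1; ring
    rw [d3, add_pow_char, add_pow_char, mul_pow, mul_pow, mul_pow, mul_pow, mul_pow, e1, e2, e3,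
      e4, ← pow_mul]
  have x1 : x ^ ((6 * n + 6) * p) = x ^ ((6 * n + 2) * p) * x ^ (4 * p) := by
    rw [← pow_add]; congr 1; ring
  have y1 : y ^ ((6 * n + 6) * p) = y ^ ((6 * n + 2) * p) * y ^ (4 * p) := by
    rw [← pow_add]; congr 1; ring
  have y2 : y ^ ((12 * n + 6) * p) = y ^ ((6 * n + 2) * p) * y ^ ((6 * n + 4) * p) := by
    rw [← pow_add]; congr 1; ring
  have x2 : x ^ ((6 * n + 2) * p) = x ^ (6 * n * p) * x ^ (2 * p) := by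
    rw [← pow_add]; congr 1; ring
  rw [D, x1, y1, y2] at E
  set G' : B := G ^ p * z3 * z4 ^ p * z4 with hG'
  set g' : B := g ^ p * z3 * z4 with hg'
  have s1 : y ^ ((6 * n + 2) * p) * (ρ ^ p * x ^ (6 * n * p) * y ^ ((6 * n + 4) * p) * Q -
      f ^ ((n + 1) * p) * (g' - y ^ (4 * p) * q ^ p * Q)) =
      x ^ ((6 * n + 2) * p) * (G' - x ^ (4 * p) * r ^ p * Q) := by
    linear_combination E
  obtain ⟨G6, hG6⟩ := colon x y h.hx h.hxy _ _ _ _ s1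
  rw [x2] at hG6
  have s2 : f ^ ((n + 1) * p) * (g' - y ^ (4 * p) * q ^ p * Q) =
      x ^ (6 * n * p) * (ρ ^ p * y ^ ((6 * n + 4) * p) * Q - x ^ (2 * p) * G6) := by
    linear_combination -hG6
  obtain ⟨g6, hg6⟩ := colon x f h.hx (f_mod_x h ht) _ _ _ _ s2
  have s3 : x ^ (6 * n * p) * (ρ ^ p * y ^ ((6 * n + 4) * p) * Q - x ^ (2 * p) * G6 -
      f ^ ((n + 1) * p) * g6) = 0 := by
    rw [hg6] at s2
    linear_combination -s2
  have s4 := reg_pow x h.hx _ _ s3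
  obtain ⟨w, hw⟩ : ∃ w, f ^ ((n + 1) * p) = t ^ ((n + 1) * p) * y ^ ((6 * n + 6) * p) +
      x ^ (2 * p) * w := by
    have hd : (x ^ 6) ^ p ∣ f ^ ((n + 1) * p) - (t * y ^ 6) ^ ((n + 1) * p) := by
      have h7 := sub_dvd_pow_sub_pow (f ^ p) ((t * y ^ 6) ^ p) (n + 1)
      have h8 : f ^ p - (t * y ^ 6) ^ p = (x ^ 6) ^ p := by
        rw [hf, add_pow_char]; ring
      rw [h8, ← pow_mul f, ← pow_mul (t * y ^ 6)] at h7
      rwa [mul_comm p (n + 1)] at h7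
    obtain ⟨w, hw⟩ := hd
    refine ⟨x ^ (4 * p) * w, ?_⟩
    have e1 : (t * y ^ 6) ^ ((n + 1) * p) = t ^ ((n + 1) * p) * y ^ ((6 * n + 6) * p) := by
      rw [mul_pow, ← pow_mul]; congr 2; ring
    have e2 : (x ^ 6) ^ p = x ^ (2 * p) * x ^ (4 * p) := by
      rw [← pow_mul, ← pow_add]; congr 1; ring
    rw [e2, e1] at hw
    linear_combination hw
  have y3 : y ^ ((6 * n + 6) * p) = y ^ ((6 * n + 4) * p) * y ^ (2 * p) := by
    rw [← pow_add]; congr 1; ring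
  have s5 : y ^ ((6 * n + 4) * p) * (ρ ^ p * Q - t ^ ((n + 1) * p) * y ^ (2 * p) * g6) =
      x ^ (2 * p) * (G6 + w * g6) := by
    rw [hw, y3] at s4
    linear_combination s4
  obtain ⟨G8, hG8⟩ := colon x y h.hx h.hxy _ _ _ _ s5
  -- the monomial
  rw [d4] at hG8
  have hρp : ρ ^ p * ρi ^ p = 1 := by rw [← mul_pow, hρ, one_pow]
  refine mono_contra h (2 * p - 1) (ρ ^ p * π) (ρi ^ p * πi)
    (x ^ (p - 2) * y ^ (p - 2) * 0 + y ^ (p - 2) * (x ^ (p - 2) * G8 - ρ ^ p * x ^ 5 * p2))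
    (x ^ (p - 2) * (y ^ (p - 2) * t ^ ((n + 1) * p) * g6 - ρ ^ p * y ^ 5 * p1)) ?_ ?_
  · linear_combination (π * πi) * hρp + hπ
  · have f1 : 2 * p - 1 + 1 = 2 * p := by omega
    have f2 : ∀ v : B, v ^ (2 * p - 1) = v ^ (p - 2) * (v ^ 6) ^ (n + 1) := by
      intro v; rw [← pow_mul, ← pow_add]; congr 1; omega
    have f3 : ∀ v : B, v ^ (p - 2) * (v ^ 6) ^ (n + 2) = v ^ (2 * p) * v ^ 5 := by
      intro v; rw [← pow_mul, ← pow_add, ← pow_add]; congr 1; omega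
    rw [f1, f2, f2]
    linear_combination (x ^ (p - 2) * y ^ (p - 2)) * hG8 - (ρ ^ p * p1 * x ^ (p - 2)) * f3 y -
      (ρ ^ p * p2 * y ^ (p - 2)) * f3 x

/-- Contradiction for `p = 6 n + 5`. -/
theorem caseTwo (p n : ℕ) (hp : p.Prime) [CharP B p] (hpn : p = 6 * n + 5)
    (x y z3 z4 c1 c2 c3 c4 t ti ν l ρ ρi a b S3 S4 q r π πi p1 p2 : B) (h : Reg2 x y)
    (ht : t * ti = 1) (hρ : ρ * ρi = 1) (hπ : π * πi = 1)
    (h3 : z3 ^ 6 = x ^ 6 + y ^ 6) (h4 : z4 ^ 6 = x ^ 6 + t * y ^ 6)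
    (e1 : x ^ 2 * y ^ 2 = c1 * x ^ 3 + c3 * z3 + c4 * z4)
    (e2 : 0 = c2 * y ^ 3 + c3 * z3 + l * c4 * z4)
    (hl : l ^ p * ν = 1)
    (d1 : (y ^ 6) ^ (3 * n + 2) * a - (x ^ 6) ^ (3 * n + 2) * b =
      (x ^ 6 + y ^ 6) ^ (n + 1) * S3)
    (d2 : (y ^ 6) ^ (3 * n + 2) * a - ν * (x ^ 6) ^ (3 * n + 2) * b =
      (x ^ 6 + t * y ^ 6) ^ (n + 1) * S4)
    (d3 : S3 = (x ^ 6 + t * y ^ 6) ^ (n + 1) * (y ^ 6) ^ (n + 1) * q +
      ρ * (x ^ 6) ^ n * (y ^ 6) ^ (2 * n + 1) + (x ^ 6) ^ (n + 1) * r)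
    (d4 : (x ^ 6 + y ^ 6) ^ (n + 1) * (x ^ 6 + t * y ^ 6) ^ (n + 1) = (y ^ 6) ^ (n + 2) * p1 +
      π * (x ^ 6) ^ (n + 1) * (y ^ 6) ^ (n + 1) + (x ^ 6) ^ (n + 2) * p2) : False := by
  have : Fact p.Prime := ⟨hp⟩
  have z3p : z3 ^ p * z3 = (x ^ 6 + y ^ 6) ^ (n + 1) := by
    rw [← pow_succ, hpn, ← h3, ← pow_mul]; congr 1
  have z4p : z4 ^ p * z4 = (x ^ 6 + t * y ^ 6) ^ (n + 1) := by
    rw [← pow_succ, hpn, ← h4, ← pow_mul]; congr 1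
  have xe : (x ^ 3) ^ p = (x ^ 6) ^ (3 * n + 2) * x ^ 3 := by
    rw [hpn, ← pow_mul, ← pow_mul, ← pow_add]; congr 1; ring
  have ye : (y ^ 3) ^ p = (y ^ 6) ^ (3 * n + 2) * y ^ 3 := by
    rw [hpn, ← pow_mul, ← pow_mul, ← pow_add]; congr 1; ring
  have E1 : (x ^ 2 * y ^ 2) ^ p * (z3 * z4) = (c1 ^ p * x ^ 3 * (z3 * z4)) *
      (x ^ 6) ^ (3 * n + 2) + (c3 ^ p * z4) * (x ^ 6 + y ^ 6) ^ (n + 1) +
      (c4 ^ p * z3) * (x ^ 6 + t * y ^ 6) ^ (n + 1) := by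
    rw [e1, add_pow_char, add_pow_char, mul_pow, mul_pow, mul_pow, xe, ← z3p, ← z4p]; ring
  have E2 : 0 = (c2 ^ p * y ^ 3 * (z3 * z4)) * (y ^ 6) ^ (3 * n + 2) +
      (c3 ^ p * z4) * (x ^ 6 + y ^ 6) ^ (n + 1) +
      l ^ p * ((c4 ^ p * z3) * (x ^ 6 + t * y ^ 6) ^ (n + 1)) := by
    have : (0 : B) ^ p * (z3 * z4) = (c2 * y ^ 3 + c3 * z3 + l * c4 * z4) ^ p * (z3 * z4) := by
      rw [← e2]
    rw [zero_pow hp.ne_zero, add_pow_char, add_pow_char, mul_pow, mul_pow, mul_pow, mul_pow,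
      ye, zero_mul] at this
    rw [this, ← z3p, ← z4p]; ring
  have s1 := elim_one ((y ^ 6) ^ (3 * n + 2)) _ _ 1 _ _ _ (l ^ p) ν a b S3 S4 _ _ hl
    (mul_one _) E2 d1 d2
  have s2 := elim_two ((x ^ 6) ^ (3 * n + 2)) _ _ 1 _ _ _ _ ν a b S3 S4 _ _ (mul_one _) E1 d1 d2
  have yN : (y ^ 6) ^ (3 * n + 2) = y ^ (18 * n + 12) := by
    rw [← pow_mul]; congr 1; ring
  have xN : (x ^ 6) ^ (3 * n + 2) = x ^ (18 * n + 12) := by
    rw [← pow_mul]; congr 1; ring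
  rw [yN] at s1
  obtain ⟨g1, hg1⟩ := colon y _ h.hy (f_mod_y h t) _ _ _ _ s1
  rw [hg1, xN] at s2
  set G1 : B := S3 * (c1 ^ p * x ^ 3 * (z3 * z4)) + (ν - 1) * (c3 ^ p * z4) * b * 1 with hG1
  have hzx := z_mod_x h ht h4
  have e3 : (x ^ 2 * y ^ 2) ^ p = x ^ (12 * n + 10) * y ^ (12 * n + 10) := by
    rw [mul_pow, ← pow_mul, ← pow_mul]; congr 2 <;> omega
  have e4 : ∀ v : B, v ^ (18 * n + 12) = v ^ (12 * n + 10) * v ^ (6 * n + 2) := by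
    intro v; rw [← pow_add]; congr 1; ring
  have s3 : z4 ^ 1 * (S3 * z3 * x ^ (12 * n + 10) * y ^ (12 * n + 10) -
      z4 ^ p * y ^ (18 * n + 12) * g1) = x ^ (18 * n + 12) * G1 := by
    rw [e3, ← z4p] at s2
    linear_combination s2
  obtain ⟨G2, hG2⟩ := colon x z4 h.hx hzx _ _ _ _ s3
  have s4 : y ^ (12 * n + 10) * (S3 * z3 * x ^ (12 * n + 10) - z4 ^ p * y ^ (6 * n + 2) * g1) =
      x ^ (18 * n + 12) * G2 := by
    rw [e4 y] at hG2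
    linear_combination hG2
  obtain ⟨G3, hG3⟩ := colon x y h.hx h.hxy _ _ _ _ s4
  have s5 : y ^ (6 * n + 2) * (z4 ^ p * g1) = x ^ (12 * n + 10) *
      (S3 * z3 - x ^ (6 * n + 2) * G3) := by
    rw [e4 x] at hG3
    linear_combination -hG3
  obtain ⟨g2, hg2⟩ := colon x y h.hx h.hxy _ _ _ _ s5
  obtain ⟨g3, hg3⟩ := colon x z4 h.hx hzx _ _ _ _ hg2
  have s6 : x ^ (12 * n + 10) * (S3 * z3 - x ^ (6 * n + 2) * G3 -
      z4 ^ p * y ^ (6 * n + 2) * g3) = 0 := by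
    rw [hg3] at s5
    linear_combination -s5
  have s7 := reg_pow x h.hx _ _ s6
  refine final_two p n hp hpn x y z3 z4 t ti ρ ρi G3 g3 q r S3 π πi p1 p2 h ht hρ hπ h3 h4 ?_
    d3 d4
  linear_combination s7

end

end Pool.Agent.Helper46.BC
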