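import Mathlib

/-!
# An eigenvector over the ring of power series
-/

set_option autoImplicit false

namespace Pool.Agent.Helper46.BC

open Matrix

section

variable {k : Type*} [Field k]

theorem exists_eig {n : ℕ} (K K' : Matrix (Fin (n + 1)) (Fin (n + 1)) k) (hKK : K * K' = 1)
    (h1 : K (Fin.last n) 0 ≠ 0) (h2 : K' 0 (Fin.last n) ≠ 0) :
    ∃ (e : PowerSeries k) (a : Fin (n + 1) → PowerSeries k),
      PowerSeries.constantCoeff e ≠ 0 ∧ PowerSeries.constantCoeff (a 0) ≠ 0 ∧
      ∀ i : Fin (n + 1), PowerSeries.X ^ n *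
        ((K.map (PowerSeries.C (R := k))).mulVec (fun j => PowerSeries.X ^ (j : ℕ) * a j)) i =
        e * PowerSeries.X ^ (i : ℕ) * ((K.map (PowerSeries.C (R := k))).mulVec a) i := by
  set T : PowerSeries k := PowerSeries.X with hT
  set κ : Matrix (Fin (n + 1)) (Fin (n + 1)) (PowerSeries k) := K.map (PowerSeries.C (R := k))
    with hκ
  set κ' : Matrix (Fin (n + 1)) (Fin (n + 1)) (PowerSeries k) := K'.map (PowerSeries.C (R := k))
    with hκ'
  have hκκ : κ * κ' = 1 := by
    rw [hκ, hκ', ← Matrix.map_mul, hKK, Matrix.map_one _ (map_zero _) (map_one _)]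
  set L : Matrix (Fin (n + 1)) (Fin (n + 1)) (PowerSeries k) :=
    κ' * diagonal (fun i : Fin (n + 1) => T ^ (n - (i : ℕ))) * κ *
      diagonal (fun i : Fin (n + 1) => T ^ (i : ℕ)) with hL
  set e0 : k := K' 0 (Fin.last n) * K (Fin.last n) 0 with he0
  have he0' : e0 ≠ 0 := mul_ne_zero h2 h1
  -- reduction modulo `T`
  have hL0 : ∀ i j, PowerSeries.constantCoeff (L i j) =
      if j = 0 then K' i (Fin.last n) * K (Fin.last n) 0 else 0 := by
    intro i j
    have e1 : L i j = (∑ l, κ' i l * T ^ (n - (l : ℕ)) * κ l j) * T ^ (j : ℕ) := by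
      rw [hL, Matrix.mul_diagonal, Matrix.mul_apply]
      congr 1
      refine Finset.sum_congr rfl (fun l _ => ?_)
      rw [Matrix.mul_diagonal]
    rw [e1, map_mul, map_sum]
    have e2 : ∀ l : Fin (n + 1), PowerSeries.constantCoeff (κ' i l * T ^ (n - (l : ℕ)) * κ l j) =
        if l = Fin.last n then K' i (Fin.last n) * K (Fin.last n) j else 0 := by
      intro l
      rw [map_mul, map_mul, map_pow, hT, PowerSeries.constantCoeff_X]
      by_cases hl : l = Fin.last n
      · subst hl
        simp [hκ, hκ']
      · rw [if_neg hl]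
        have h3 : n - (l : ℕ) ≠ 0 := by
          have h4 := l.2
          have h5 : (l : ℕ) ≠ n := fun h => hl (Fin.ext (by rw [h, Fin.val_last]))
          omega
        rw [zero_pow h3, mul_zero, zero_mul]
    rw [Finset.sum_congr rfl (fun l _ => e2 l)]
    simp only [Finset.sum_ite_eq', Finset.mem_univ, if_true]
    rw [map_pow, hT, PowerSeries.constantCoeff_X]
    by_cases hj : j = 0
    · subst hj; simp
    · rw [if_neg hj]
      have : (j : ℕ) ≠ 0 := fun h => hj (Fin.ext (by rw [h]; rfl))
      rw [zero_pow this, mul_zero]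
  set L0 : Matrix (Fin (n + 1)) (Fin (n + 1)) k := L.map (PowerSeries.constantCoeff (R := k))
    with hL0d
  have hchar0 : L0.charpoly = (Polynomial.X - Polynomial.C e0) * Polynomial.X ^ n := by
    rw [← Matrix.charpoly_transpose, Matrix.charpoly_of_isUpperTriangular]
    · rw [Fin.prod_univ_succ]
      congr 1
      · rw [Matrix.transpose_apply, hL0d, Matrix.map_apply, hL0, if_pos rfl, he0]
      · rw [Finset.prod_eq_pow_card (b := (Polynomial.X : Polynomial k))]
        · simp
        · intro i _
          rw [Matrix.transpose_apply, hL0d, Matrix.map_apply, hL0,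
            if_neg (Fin.succ_ne_zero i), map_zero, sub_zero]
    · intro i j hij
      simp only [id] at hij
      rw [Matrix.transpose_apply, hL0d, Matrix.map_apply, hL0, if_neg]
      intro h
      subst h
      exact absurd hij (Fin.not_lt_zero _)
  have hev : ∀ f : Polynomial (PowerSeries k),
      PowerSeries.constantCoeff (Polynomial.eval (PowerSeries.C e0) f) =
        Polynomial.eval e0 (f.map (PowerSeries.constantCoeff (R := k))) := by
    intro f
    have h3 := Polynomial.eval₂_at_apply (p := f) (PowerSeries.constantCoeff (R := k))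
      (PowerSeries.C e0)
    rw [PowerSeries.constantCoeff_C] at h3
    rw [Polynomial.eval_map, h3]
  -- Hensel's lemma
  have hroot : ∃ e : PowerSeries k, (L.charpoly).IsRoot e ∧
      e - PowerSeries.C e0 ∈ Ideal.span {(PowerSeries.X : PowerSeries k)} := by
    have hens : HenselianRing (PowerSeries k) (Ideal.span {(PowerSeries.X : PowerSeries k)}) :=
      inferInstance
    apply hens.is_henselian L.charpoly L.charpoly_monic (PowerSeries.C e0)
    · rw [Ideal.mem_span_singleton, PowerSeries.X_dvd_iff, hev, ← Matrix.charpoly_map, ← hL0d,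
        hchar0]
      simp
    · apply IsUnit.map
      rw [PowerSeries.isUnit_iff_constantCoeff, hev, ← Polynomial.derivative_map,
        ← Matrix.charpoly_map, ← hL0d, hchar0]
      simp only [Polynomial.derivative_mul, Polynomial.derivative_sub, Polynomial.derivative_X,
        Polynomial.derivative_C, sub_zero, one_mul, Polynomial.eval_add, Polynomial.eval_mul,
        Polynomial.eval_sub, Polynomial.eval_X, Polynomial.eval_C, sub_self, zero_mul, add_zero,
        Polynomial.eval_pow]
      exact (pow_ne_zero _ he0').isUnit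
  obtain ⟨e, he, hee⟩ := hroot
  have hce : PowerSeries.constantCoeff e = e0 := by
    rw [Ideal.mem_span_singleton, PowerSeries.X_dvd_iff, map_sub, PowerSeries.constantCoeff_C,
      sub_eq_zero] at hee
    exact hee
  set M : Matrix (Fin (n + 1)) (Fin (n + 1)) (PowerSeries k) := Matrix.scalar _ e - L with hM
  have hdet : M.det = 0 := by
    rw [hM, ← Matrix.eval_charpoly]; exact he
  set a : Fin (n + 1) → PowerSeries k := fun j => M.adjugate j 0 with ha
  have hMa : M.mulVec a = 0 := by
    funext i
    have h3 := congrFun (congrFun (Matrix.mul_adjugate M) i) 0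
    rw [hdet, zero_smul, Matrix.zero_apply, Matrix.mul_apply] at h3
    exact h3
  have hLa : L.mulVec a = fun i => e * a i := by
    have h3 := hMa
    rw [hM, Matrix.sub_mulVec, sub_eq_zero] at h3
    rw [← h3]
    funext i
    simp [Matrix.scalar_apply, Matrix.mulVec_diagonal]
  refine ⟨e, a, by rw [hce]; exact he0', ?_, ?_⟩
  · -- the constant term of `a 0`
    have h3 : PowerSeries.constantCoeff (a 0) =
        (M.map (PowerSeries.constantCoeff (R := k))).adjugate 0 0 := by
      have h4 := RingHom.map_adjugate (PowerSeries.constantCoeff (R := k)) M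
      have h5 := congrFun (congrFun h4 0) 0
      rw [RingHom.mapMatrix_apply, RingHom.mapMatrix_apply] at h5
      exact h5
    rw [h3, Matrix.adjugate_fin_succ_eq_det_submatrix]
    have h6 : (M.map (PowerSeries.constantCoeff (R := k))).submatrix (Fin.succAbove 0)
        (Fin.succAbove 0) = diagonal (fun _ : Fin n => e0) := by
      ext i j
      rw [Matrix.submatrix_apply, Matrix.map_apply, hM, Matrix.sub_apply, map_sub, hL0,
        if_neg (by rw [Fin.succAbove_zero]; exact Fin.succ_ne_zero j), sub_zero,
        Matrix.scalar_apply, Matrix.diagonal_apply, Matrix.diagonal_apply]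
      by_cases hij : i = j
      · subst hij; simp [hce]
      · rw [if_neg hij, if_neg (fun h => hij (Fin.succAbove_right_injective h)), map_zero]
    rw [h6, Matrix.det_diagonal]
    simp [he0']
  · intro i
    have h3 : κ * L = diagonal (fun i : Fin (n + 1) => T ^ (n - (i : ℕ))) * κ *
        diagonal (fun i : Fin (n + 1) => T ^ (i : ℕ)) := by
      rw [hL, ← Matrix.mul_assoc, ← Matrix.mul_assoc, ← Matrix.mul_assoc, hκκ, Matrix.one_mul]
    have h4 : (κ * L).mulVec a = fun i => e * (κ.mulVec a) i := by
      rw [← Matrix.mulVec_mulVec, hLa]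
      have : (fun i => e * a i) = e • a := rfl
      rw [this, Matrix.mulVec_smul]
      rfl
    have h5 : (κ * L).mulVec a i = T ^ (n - (i : ℕ)) *
        (κ.mulVec (fun j => T ^ (j : ℕ) * a j)) i := by
      have h6 : (diagonal (fun i : Fin (n + 1) => T ^ (i : ℕ))).mulVec a =
          fun j : Fin (n + 1) => T ^ (j : ℕ) * a j := by
        funext j
        rw [Matrix.mulVec_diagonal]
      rw [h3, ← Matrix.mulVec_mulVec, h6, ← Matrix.mulVec_mulVec, Matrix.mulVec_diagonal]
    rw [h4] at h5
    have hi : n = (i : ℕ) + (n - (i : ℕ)) := by have := i.2; omega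
    calc T ^ n * (κ.mulVec (fun j => T ^ (j : ℕ) * a j)) i
        = T ^ (i : ℕ) * (T ^ (n - (i : ℕ)) * (κ.mulVec (fun j => T ^ (j : ℕ) * a j)) i) := by
          rw [← mul_assoc, ← pow_add, ← hi]
      _ = _ := by rw [← h5]; ring

end

end Pool.Agent.Helper46.BC
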