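import Pool.Agent.Helper46.BC.Kmat
import Pool.Agent.Helper46.BC.Eig

/-!
# The bad data over a large field
-/

set_option autoImplicit false

open Polynomial

namespace Pool.Agent.Helper46.BC

section

variable {k : Type*} [Field k]

lemma key3 (p : ℕ) [CharP k p] (c j : ℕ) (hcj : c + j < p) (g h : k[X])
    (hg : (X + 1) ^ (c + 1) * g = 1 + X ^ (j + 1) * h) : g.coeff j ≠ 0 := by
  intro h0
  have hXm : (X ^ (j + 1) : k[X]).Monic := monic_X_pow _
  set w := g %ₘ X ^ (j + 1) with hw
  have hw1 : w + X ^ (j + 1) * (g /ₘ X ^ (j + 1)) = g := modByMonic_add_div g _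
  have hwd : w.degree < j := by
    have h1 : w.degree < ((j + 1 : ℕ) : WithBot ℕ) := by
      have := degree_modByMonic_lt g hXm
      rwa [degree_X_pow] at this
    rw [degree_lt_iff_coeff_zero] at h1 ⊢
    intro m hm
    rcases Nat.eq_or_lt_of_le hm with h | h
    · rw [← h]
      have h2 := congrArg (fun f => f.coeff j) hw1
      simp only [coeff_add] at h2
      rw [coeff_X_pow_mul', if_neg (by omega), add_zero] at h2
      rw [h2, h0]
    · exact h1 m (by omega)
  have hwe : (X + 1) ^ (c + 1) * w = 1 + X ^ (j + 1) * (h - (X + 1) ^ (c + 1) *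
      (g /ₘ X ^ (j + 1))) := by
    linear_combination hg + (X + 1) ^ (c + 1) * hw1
  set h' := h - (X + 1) ^ (c + 1) * (g /ₘ X ^ (j + 1)) with hh'
  have hw0 : w ≠ 0 := by
    intro hz
    rw [hz, mul_zero] at hwe
    have := congrArg (eval 0) hwe
    simp at this
  have hwn : w.natDegree < j := (natDegree_lt_iff_degree_lt hw0).2 hwd
  have hder : (X + 1) ^ c * (((c + 1 : ℕ) : k[X]) * w + (X + 1) * derivative w) =
      X ^ j * (((j + 1 : ℕ) : k[X]) * h' + X * derivative h') := by
    have h1 := congrArg derivative hwe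
    rw [derivative_add, derivative_one, zero_add, derivative_mul, derivative_mul,
      derivative_X_pow, derivative_pow] at h1
    simp only [derivative_add, derivative_X, derivative_one, add_zero, mul_one,
      Nat.add_sub_cancel, map_natCast] at h1
    linear_combination h1
  have hdvd : (X : k[X]) ^ j ∣ ((c + 1 : ℕ) : k[X]) * w + (X + 1) * derivative w := by
    apply (cop (k := k) j c).dvd_of_dvd_mul_left
    exact ⟨_, hder⟩
  have hz : ((c + 1 : ℕ) : k[X]) * w + (X + 1) * derivative w = 0 := by
    by_contra hne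
    have h2 := natDegree_le_of_dvd hdvd hne
    rw [natDegree_X_pow] at h2
    have h3 : (((c + 1 : ℕ) : k[X]) * w + (X + 1) * derivative w).natDegree ≤ w.natDegree := by
      refine (natDegree_add_le _ _).trans (max_le ?_ ?_)
      · refine natDegree_mul_le.trans ?_
        rw [natDegree_natCast]; omega
      · rcases Nat.eq_zero_or_pos w.natDegree with h0 | h0
        · rw [derivative_of_natDegree_zero h0]; simp
        · refine natDegree_mul_le.trans ?_
          have e1 : (X + 1 : k[X]).natDegree = 1 := natDegree_X_add_C 1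
          have e2 := natDegree_derivative_lt (p := w) (by omega)
          omega
    omega
  have hc := congrArg (fun f => f.coeff w.natDegree) hz
  simp only [coeff_add, coeff_zero, add_mul, one_mul] at hc
  rw [← C_eq_natCast, coeff_C_mul, coeff_derivative, coeff_eq_zero_of_natDegree_lt
    (Nat.lt_succ_self w.natDegree), zero_mul, add_zero] at hc
  have hx : (X * derivative w).coeff w.natDegree = w.natDegree * w.coeff w.natDegree := by
    rcases Nat.eq_zero_or_pos w.natDegree with h0 | h0
    · rw [h0]; simp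
    · obtain ⟨d, hd⟩ : ∃ d, w.natDegree = d + 1 := ⟨w.natDegree - 1, by omega⟩
      rw [hd, coeff_X_mul, coeff_derivative]; push_cast; ring
  rw [hx] at hc
  have hlc : w.coeff w.natDegree ≠ 0 := by
    rw [coeff_natDegree, Ne, leadingCoeff_eq_zero]; exact hw0
  have h7 : (((c + 1 + w.natDegree : ℕ)) : k) = 0 := by
    apply mul_right_cancel₀ hlc
    push_cast at hc ⊢
    linear_combination hc
  rw [CharP.cast_eq_zero_iff k p] at h7
  have := Nat.le_of_dvd (by omega) h7
  omega

lemma P_comp {R : Type*} [CommRing R] {n : ℕ} (v : Fin (n + 1) → R) (t : R) :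
    (P v).comp (C t * X) = P (fun i : Fin (n + 1) => t ^ (i : ℕ) * v i) := by
  unfold P
  rw [Polynomial.sum_comp]
  refine Finset.sum_congr rfl (fun i _ => ?_)
  rw [mul_comp, C_comp, X_pow_comp, mul_pow, map_mul, map_pow]
  ring

lemma P_smul {R : Type*} [CommRing R] {n : ℕ} (v : Fin (n + 1) → R) (t : R) :
    P (fun i : Fin (n + 1) => t * v i) = C t * P v := by
  unfold P
  rw [Finset.mul_sum]
  refine Finset.sum_congr rfl (fun i _ => ?_)
  rw [map_mul]
  ring

theorem exists_data0 (p : ℕ) [CharP k p] (hp : p.Prime) (c A j : ℕ) (hA : 1 ≤ A)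
    (hN : A + c ≤ p) (hcj : c + j < p) :
    ∃ (e ρ : PowerSeries k) (a b s3 w4 q r : (PowerSeries k)[X]),
      PowerSeries.constantCoeff e ≠ 0 ∧ PowerSeries.constantCoeff ρ ≠ 0 ∧
      a.natDegree ≤ c ∧ b.natDegree ≤ c ∧ q.natDegree ≤ j - 1 ∧ (j = 0 → q = 0) ∧
      a - X ^ A * b = (X + 1) ^ (c + 1) * s3 ∧
      C (PowerSeries.X ^ (A + c)) * a.comp (C PowerSeries.X * X) -
        C e * (C PowerSeries.X * X) ^ A * b.comp (C PowerSeries.X * X) =
        (X + 1) ^ (c + 1) * w4 ∧
      s3.comp (C PowerSeries.X * X) = (X + 1) ^ (c + 1) * q + C ρ * X ^ j + X ^ (j + 1) * r := by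
  obtain ⟨K, K', hKK, hK, h1, h2⟩ := exists_K (k := k) p hp c A hA hN
  obtain ⟨e, a, he, ha0, hea⟩ := exists_eig K K' hKK h1 h2
  set κ := K.map (PowerSeries.C (R := k)) with hκ
  have hmap : ∀ v : Fin (c + 1) → k, (P v).map (PowerSeries.C (R := k)) =
      P (fun i => PowerSeries.C (v i)) := by
    intro v
    unfold P
    rw [Polynomial.map_sum]
    refine Finset.sum_congr rfl (fun i _ => ?_)
    simp
  have hK1 : ∀ i : Fin (c + 1), (X + 1 : (PowerSeries k)[X]) ^ (c + 1) ∣
      X ^ (i : ℕ) - X ^ A * P (fun l => κ l i) := by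
    intro i
    have h3 := Polynomial.map_dvd (PowerSeries.C (R := k)) (hK i)
    rw [Polynomial.map_sub, Polynomial.map_mul, Polynomial.map_pow, Polynomial.map_pow,
      Polynomial.map_pow, Polynomial.map_add, Polynomial.map_X, Polynomial.map_one, hmap] at h3
    exact h3
  have hK2 : ∀ v : Fin (c + 1) → PowerSeries k, (X + 1 : (PowerSeries k)[X]) ^ (c + 1) ∣
      P v - X ^ A * P (κ.mulVec v) := by
    intro v
    rw [P_linear, Finset.mul_sum]
    unfold P
    rw [← Finset.sum_sub_distrib]
    refine Finset.dvd_sum (fun j _ => ?_)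
    have h1 := (hK1 j).mul_left (C (v j))
    unfold P at h1
    convert h1 using 1
    ring
  obtain ⟨s3, hs3⟩ := hK2 a
  obtain ⟨w4, hw4⟩ := hK2 (fun i => PowerSeries.X ^ (i : ℕ) * a i)
  -- the inverse of `(1+Z)^(c+1)`
  obtain ⟨g, g', hg⟩ := (cop (k := k) (j + 1) (c + 1)).symm
  set T : PowerSeries k := PowerSeries.X with hT
  set ι : k →+* PowerSeries k := PowerSeries.C (R := k) with hι
  set s := s3.comp (C T * X) with hs
  set u := s * g.map ι with hu
  set u1 := u /ₘ (X ^ (j + 1)) with hu1
  set u0 := u %ₘ (X ^ (j + 1)) with hu0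
  have hu2 : u0 + X ^ (j + 1) * u1 = u := modByMonic_add_div u _
  set ρ : PowerSeries k := u.coeff j with hρ
  have hXm : (X ^ (j + 1) : (PowerSeries k)[X]).Monic := monic_X_pow _
  have hu0d : u0.degree < ((j + 1 : ℕ) : WithBot ℕ) := by
    have := degree_modByMonic_lt u hXm
    rwa [degree_X_pow] at this
  have hu0c : u0.coeff j = ρ := by
    have h2 := congrArg (fun f => f.coeff j) hu2
    simp only [coeff_add] at h2
    rw [coeff_X_pow_mul', if_neg (by omega), add_zero] at h2
    exact h2
  set q := u0 - C ρ * X ^ j with hq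
  have hqd : q.degree < j := by
    rw [degree_lt_iff_coeff_zero] at hu0d ⊢
    intro m hm
    rw [hq, coeff_sub, coeff_C_mul, coeff_X_pow]
    rcases Nat.eq_or_lt_of_le hm with h | h
    · rw [← h, hu0c]; simp
    · rw [hu0d m (by omega), if_neg (by omega)]; simp
  have hga : (X + 1) ^ (c + 1) * g.map ι = 1 - X ^ (j + 1) * g'.map ι := by
    have h3 := congrArg (Polynomial.map ι) hg
    simp only [Polynomial.map_add, Polynomial.map_mul, Polynomial.map_pow, Polynomial.map_X,
      Polynomial.map_one] at h3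
    linear_combination h3
  obtain ⟨v, hv⟩ : ∃ v : (PowerSeries k)[X], (X + 1) ^ (c + 1) = 1 + X * v := by
    have h3 : (X : (PowerSeries k)[X]) ∣ (X + 1) ^ (c + 1) - 1 ^ (c + 1) := by
      have := sub_dvd_pow_sub_pow (X + 1 : (PowerSeries k)[X]) 1 (c + 1)
      rwa [add_sub_cancel_right] at this
    obtain ⟨v, hv⟩ := h3
    exact ⟨v, by rw [one_pow] at hv; linear_combination hv⟩
  refine ⟨e, ρ, P a, P (κ.mulVec a), s3, C (T ^ (A + c)) * w4, q,
    C ρ * v + (X + 1) ^ (c + 1) * u1 + s * g'.map ι, he, ?_, P_natDegree _, P_natDegree _, ?_, ?_,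
    hs3, ?_, ?_⟩
  · -- `ρ` modulo `T`
    have h3 : s3.coeff 0 = a 0 := by
      have h4 := congrArg (eval 0) hs3
      rw [eval_sub, eval_mul, eval_pow, eval_X, zero_pow (by omega), zero_mul, sub_zero, eval_mul,
        eval_pow, eval_add, eval_X, eval_one, zero_add, one_pow, one_mul,
        ← coeff_zero_eq_eval_zero, ← coeff_zero_eq_eval_zero] at h4
      rw [← h4]
      exact P_coeff a 0
    have h4 : s.map (PowerSeries.constantCoeff (R := k)) =
        C (PowerSeries.constantCoeff (a 0)) := by
      rw [hs, Polynomial.map_comp, Polynomial.map_mul, Polynomial.map_C, Polynomial.map_X, hT,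
        PowerSeries.constantCoeff_X, C_0, zero_mul, comp_zero, ← coeff_zero_eq_eval_zero,
        coeff_map, h3]
    have h5 : (g.map ι).map (PowerSeries.constantCoeff (R := k)) = g := by
      rw [Polynomial.map_map]
      have : (PowerSeries.constantCoeff (R := k)).comp ι = RingHom.id k := by
        ext x; simp [hι]
      rw [this, Polynomial.map_id]
    have h6 : PowerSeries.constantCoeff ρ = PowerSeries.constantCoeff (a 0) * g.coeff j := by
      rw [hρ, ← coeff_map, hu, Polynomial.map_mul, h4, h5, coeff_C_mul]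
    rw [h6]
    refine mul_ne_zero ha0 (key3 (k := k) p c j hcj g (-g') ?_)
    linear_combination hg
  · rcases eq_or_ne q 0 with h | h
    · rw [h]; simp
    · have := (natDegree_lt_iff_degree_lt h).2 hqd
      omega
  · intro hj
    subst hj
    by_contra h
    have := (natDegree_lt_iff_degree_lt h).2 hqd
    omega
  · rw [P_comp, P_comp]
    have h4 : C (T ^ c) * P (κ.mulVec (fun i => T ^ (i : ℕ) * a i)) =
        C e * P (fun i : Fin (c + 1) => T ^ (i : ℕ) * (κ.mulVec a) i) := by
      rw [← P_smul, ← P_smul]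
      congr 1
      funext i
      rw [hea i]; ring
    simp only [map_pow] at h4 ⊢
    linear_combination (C T) ^ (A + c) * hw4 + (C T) ^ A * X ^ A * h4
  · linear_combination -s * hga - (X + 1) ^ (c + 1) * hu2 + C ρ * X ^ j * hv -
      (X + 1) ^ (c + 1) * hu

end

end Pool.Agent.Helper46.BC
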