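import Pool.Agent.Helper46.BC.Data

/-!
# The bad data over a large field, second part
-/

set_option autoImplicit false

open Polynomial

namespace Pool.Agent.Helper46.BC

/-- the bad data -/
structure BadR (R : Type*) [CommRing R] (p c A j : ℕ) (t l ti ν ρ ρi π πi : R)
    (a b s3 s4 q r : R[X]) : Prop where
  ht : t * ti = 1
  hl : l ^ p * ν = 1
  hρ : ρ * ρi = 1
  hπ : π * πi = 1
  ha : a.natDegree ≤ c
  hb : b.natDegree ≤ c
  h3 : s3.natDegree ≤ A - 1
  h4 : s4.natDegree ≤ A - 1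
  hq : q.natDegree ≤ j - 1
  hr : r.natDegree ≤ A - 1 - (j + 1)
  e1 : a - X ^ A * b = (X + 1) ^ (c + 1) * s3
  e2 : a - C ν * X ^ A * b = (X + C t) ^ (c + 1) * s4
  e3 : s3 = (X + C t) ^ (c + 1) * q + C ρ * X ^ j + X ^ (j + 1) * r
  e4 : (((X + 1) * (X + C t) : R[X]) ^ (c + 1)).coeff (c + 1) = π

lemma BadR.map {R S : Type*} [CommRing R] [CommRing S] {p c A j : ℕ}
    {t l ti ν ρ ρi π πi : R} {a b s3 s4 q r : R[X]}
    (h : BadR R p c A j t l ti ν ρ ρi π πi a b s3 s4 q r) (f : R →+* S) :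
    BadR S p c A j (f t) (f l) (f ti) (f ν) (f ρ) (f ρi) (f π) (f πi)
      (a.map f) (b.map f) (s3.map f) (s4.map f) (q.map f) (r.map f) where
  ht := by rw [← map_mul, h.ht, map_one]
  hl := by rw [← map_pow, ← map_mul, h.hl, map_one]
  hρ := by rw [← map_mul, h.hρ, map_one]
  hπ := by rw [← map_mul, h.hπ, map_one]
  ha := natDegree_map_le.trans h.ha
  hb := natDegree_map_le.trans h.hb
  h3 := natDegree_map_le.trans h.h3
  h4 := natDegree_map_le.trans h.h4
  hq := natDegree_map_le.trans h.hq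
  hr := natDegree_map_le.trans h.hr
  e1 := by
    have := congrArg (Polynomial.map f) h.e1
    simpa using this
  e2 := by
    have := congrArg (Polynomial.map f) h.e2
    simpa using this
  e3 := by
    have := congrArg (Polynomial.map f) h.e3
    simpa using this
  e4 := by
    rw [← h.e4, ← coeff_map]
    simp

lemma BadR.of_map {R S : Type*} [CommRing R] [CommRing S] {p c A j : ℕ}
    {t l ti ν ρ ρi π πi : R} {a b s3 s4 q r : R[X]} (f : R →+* S)
    (hf : Function.Injective f)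
    (h : BadR S p c A j (f t) (f l) (f ti) (f ν) (f ρ) (f ρi) (f π) (f πi)
      (a.map f) (b.map f) (s3.map f) (s4.map f) (q.map f) (r.map f)) :
    BadR R p c A j t l ti ν ρ ρi π πi a b s3 s4 q r where
  ht := by apply hf; rw [map_mul, h.ht, map_one]
  hl := by apply hf; rw [map_mul, map_pow, h.hl, map_one]
  hρ := by apply hf; rw [map_mul, h.hρ, map_one]
  hπ := by apply hf; rw [map_mul, h.hπ, map_one]
  ha := by rw [← natDegree_map_eq_of_injective hf]; exact h.ha
  hb := by rw [← natDegree_map_eq_of_injective hf]; exact h.hb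
  h3 := by rw [← natDegree_map_eq_of_injective hf]; exact h.h3
  h4 := by rw [← natDegree_map_eq_of_injective hf]; exact h.h4
  hq := by rw [← natDegree_map_eq_of_injective hf]; exact h.hq
  hr := by rw [← natDegree_map_eq_of_injective hf]; exact h.hr
  e1 := by
    apply Polynomial.map_injective f hf
    simpa using h.e1
  e2 := by
    apply Polynomial.map_injective f hf
    simpa using h.e2
  e3 := by
    apply Polynomial.map_injective f hf
    simpa using h.e3
  e4 := by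
    apply hf
    rw [← h.e4, ← coeff_map]
    simp

section

variable {k : Type*} [Field k]

lemma natDegree_of_mul_monic {F : Type*} [Field F] {g s w : F[X]} {d N : ℕ}
    (hg : g.natDegree = d) (hg0 : g ≠ 0) (h : w = g * s) (hw : w.natDegree ≤ N) :
    s.natDegree ≤ N - d := by
  rcases eq_or_ne s 0 with h0 | h0
  · rw [h0]; simp
  · rw [h, natDegree_mul hg0 h0, hg] at hw
    omega

theorem exists_dataF (p : ℕ) [CharP k p] (hp : p.Prime) (c A j : ℕ) (hA : 1 ≤ A)
    (hN : A + c < p) (hcj : c + j + 1 ≤ A) (hj : 1 ≤ j) (F : Type*) [Field F] [IsAlgClosed F]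
    (ι : PowerSeries k →+* F) (hι : Function.Injective ι) :
    ∃ (e : PowerSeries k) (l ti ν ρ ρi π πi : F) (a b s3 s4 q r : F[X]),
      PowerSeries.constantCoeff e ≠ 0 ∧ l ^ p * ι e = ι (PowerSeries.X ^ (A + c)) ∧
      BadR F p c A j (ι PowerSeries.X) l ti ν ρ ρi π πi a b s3 s4 q r := by
  obtain ⟨e, ρ, a, b, s3, w4, q, r, he, hρ, ha, hb, hq, -, e1, e2, e3⟩ :=
    exists_data0 (k := k) p hp c A j hA hN.le (by omega)
  set t : F := ι PowerSeries.X with ht
  have ht0 : t ≠ 0 := by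
    rw [ht, Ne, map_eq_zero_iff ι hι]; exact PowerSeries.X_ne_zero
  have he0 : ι e ≠ 0 := by
    rw [Ne, map_eq_zero_iff ι hι]
    rintro rfl
    exact he (map_zero _)
  have hρ0 : ι ρ ≠ 0 := by
    rw [Ne, map_eq_zero_iff ι hι]
    rintro rfl
    exact hρ (map_zero _)
  -- the root
  obtain ⟨l, hl⟩ := IsAlgClosed.exists_pow_nat_eq (ι (PowerSeries.X ^ (A + c)) / ι e) hp.pos
  have hle : l ^ p * ι e = t ^ (A + c) := by
    rw [hl, div_mul_cancel₀ _ he0, map_pow]
  -- the coefficient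
  obtain ⟨π, hπd⟩ : ∃ π, π = ι ((((X + 1) * (X + C PowerSeries.X) :
    (PowerSeries k)[X]) ^ (c + 1)).coeff (c + 1)) := ⟨_, rfl⟩
  have hπ : π ≠ 0 := by
    rw [hπd, Ne, map_eq_zero_iff ι hι]
    intro h
    have h1 := congrArg (PowerSeries.constantCoeff (R := k)) h
    rw [map_zero, ← coeff_map] at h1
    simp only [Polynomial.map_pow, Polynomial.map_mul, Polynomial.map_add, Polynomial.map_X,
      Polynomial.map_one, Polynomial.map_C, PowerSeries.constantCoeff_X, C_0, add_zero] at h1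
    rw [mul_pow, coeff_mul_X_pow', if_pos le_rfl, Nat.sub_self, coeff_zero_eq_eval_zero] at h1
    simp at h1
  -- substitution
  let ψ : (PowerSeries k)[X] →+* F[X] := (compRingHom (C t⁻¹ * X)).comp (mapRingHom ι)
  have hψ : ∀ f, ψ f = (f.map ι).comp (C t⁻¹ * X) := fun f => rfl
  have hψX : ψ X = C t⁻¹ * X := by rw [hψ, Polynomial.map_X, X_comp]
  have hψC : ∀ x, ψ (C x) = C (ι x) := by intro x; rw [hψ, Polynomial.map_C, C_comp]
  have hψ1 : ψ (X + 1) = C t⁻¹ * (X + C t) := by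
    rw [map_add, map_one, hψX, mul_add, ← C_mul, inv_mul_cancel₀ ht0, C_1]
  have hψcomp : ∀ f : (PowerSeries k)[X], ψ (f.comp (C PowerSeries.X * X)) = f.map ι := by
    intro f
    rw [hψ, Polynomial.map_comp, comp_assoc]
    have : ((C PowerSeries.X * X : (PowerSeries k)[X]).map ι).comp (C t⁻¹ * X) = X := by
      rw [Polynomial.map_mul, Polynomial.map_C, Polynomial.map_X, mul_comp, C_comp, X_comp,
        ← ht, ← mul_assoc, ← C_mul, mul_inv_cancel₀ ht0, C_1, one_mul]
    rw [this, comp_X]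
  have hψX' : ψ (C PowerSeries.X * X) = X := by
    have := hψcomp X
    rwa [X_comp, Polynomial.map_X] at this
  have hψdeg : ∀ f, (ψ f).natDegree ≤ f.natDegree := by
    intro f
    rw [hψ]
    refine natDegree_comp_le.trans ?_
    have h1 : (C t⁻¹ * X : F[X]).natDegree ≤ 1 := by
      refine (natDegree_C_mul_le _ _).trans ?_
      rw [natDegree_X]
    calc (f.map ι).natDegree * (C t⁻¹ * X : F[X]).natDegree ≤ f.natDegree * 1 :=
          Nat.mul_le_mul natDegree_map_le h1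
      _ = _ := mul_one _
  -- the equations
  have E1 : a.map ι - X ^ A * b.map ι = (X + 1) ^ (c + 1) * s3.map ι := by
    have := congrArg (Polynomial.map ι) e1
    simpa using this
  have E2 : C (t ^ (A + c)) * a.map ι - C (ι e) * X ^ A * b.map ι =
      (X + C t) ^ (c + 1) * (C (t⁻¹ ^ (c + 1)) * ψ w4) := by
    have h1 := congrArg ψ e2
    rw [map_sub, map_mul ψ (C _) (a.comp _), map_mul ψ _ (b.comp _), map_mul ψ (C e) _,
      hψcomp, hψcomp, map_pow ψ (C PowerSeries.X * X), hψX', map_mul ψ _ w4, map_pow ψ (X + 1),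
      hψ1, hψC, hψC, map_pow ι, ← ht] at h1
    rw [h1, mul_pow, ← C_pow]
    ring
  have hν : l ^ p * (ι e / t ^ (A + c)) = 1 := by
    rw [← mul_div_assoc, hle, div_self (pow_ne_zero _ ht0)]
  have E2' : a.map ι - C (ι e / t ^ (A + c)) * X ^ A * b.map ι =
      (X + C t) ^ (c + 1) * (C (t⁻¹ ^ (A + c) * t⁻¹ ^ (c + 1)) * ψ w4) := by
    have h1 : C (t⁻¹ ^ (A + c)) * C (t ^ (A + c)) = (1 : F[X]) := by
      rw [← C_mul, ← mul_pow, inv_mul_cancel₀ ht0, one_pow, C_1]
    have h2 : C (ι e / t ^ (A + c)) = C (t⁻¹ ^ (A + c)) * C (ι e) := by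
      rw [← C_mul, div_eq_mul_inv, inv_pow, mul_comm]
    rw [h2, C_mul]
    linear_combination C (t⁻¹ ^ (A + c)) * E2 - a.map ι * h1
  have E3 : s3.map ι = (X + C t) ^ (c + 1) * (C (t⁻¹ ^ (c + 1)) * ψ q) +
      C (ι ρ * t⁻¹ ^ j) * X ^ j + X ^ (j + 1) * (C (t⁻¹ ^ (j + 1)) * ψ r) := by
    have h1 := congrArg ψ e3
    rw [hψcomp, map_add, map_add, map_mul, map_mul, map_mul, map_pow, map_pow, map_pow, hψ1, hψX,
      hψC, mul_pow, mul_pow, mul_pow, ← C_pow, ← C_pow, ← C_pow] at h1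
    rw [h1, C_mul]
    ring
  have hC1 : ∀ x : F, ∀ f : F[X], (C x * f).natDegree ≤ f.natDegree := fun x f =>
    natDegree_C_mul_le _ _
  have hXA : (X ^ A * b.map ι).natDegree ≤ A + c := by
    refine natDegree_mul_le.trans ?_
    rw [natDegree_X_pow]
    have := (natDegree_map_le (f := ι) (p := b)).trans hb
    omega
  have hda : (a.map ι).natDegree ≤ A + c := (natDegree_map_le.trans ha).trans (by omega)
  have hd1 : ∀ x : F, ((X + C x) ^ (c + 1)).natDegree = c + 1 := by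
    intro x
    rw [natDegree_pow, natDegree_X_add_C, mul_one]
  have hd0 : ∀ x : F, ((X + C x) ^ (c + 1)) ≠ 0 := fun x => pow_ne_zero _ (X_add_C_ne_zero x)
  have h3d : (s3.map ι).natDegree ≤ A - 1 := by
    have h1 := natDegree_of_mul_monic (N := A + c) (hd1 1) (hd0 1) (by rw [C_1]; exact E1)
      ((natDegree_sub_le _ _).trans (max_le hda hXA))
    omega
  refine ⟨e, l, t⁻¹, ι e / t ^ (A + c), ι ρ * t⁻¹ ^ j, (ι ρ * t⁻¹ ^ j)⁻¹, π, π⁻¹,
    a.map ι, b.map ι, s3.map ι, C (t⁻¹ ^ (A + c) * t⁻¹ ^ (c + 1)) * ψ w4,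
    C (t⁻¹ ^ (c + 1)) * ψ q, C (t⁻¹ ^ (j + 1)) * ψ r, he, by rw [hle, map_pow], ?_⟩
  constructor
  · exact mul_inv_cancel₀ ht0
  · exact hν
  · exact mul_inv_cancel₀ (mul_ne_zero hρ0 (pow_ne_zero _ (inv_ne_zero ht0)))
  · exact mul_inv_cancel₀ hπ
  · exact natDegree_map_le.trans ha
  · exact natDegree_map_le.trans hb
  · exact h3d
  · have h1 := natDegree_of_mul_monic (N := A + c) (hd1 t) (hd0 t) E2'
      ((natDegree_sub_le _ _).trans (max_le hda (by
        rw [mul_assoc]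
        exact (hC1 _ _).trans hXA)))
    omega
  · exact (hC1 _ _).trans ((hψdeg _).trans hq)
  · have h1 : (s3.map ι - (X + C t) ^ (c + 1) * (C (t⁻¹ ^ (c + 1)) * ψ q) -
      C (ι ρ * t⁻¹ ^ j) * X ^ j).natDegree ≤ A - 1 := by
      refine (natDegree_sub_le _ _).trans (max_le ((natDegree_sub_le _ _).trans
        (max_le h3d ?_)) ?_)
      · refine natDegree_mul_le.trans ?_
        have h2 := (hC1 (t⁻¹ ^ (c + 1)) (ψ q)).trans ((hψdeg _).trans hq)
        rw [hd1]
        omega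
      · refine (hC1 _ _).trans ?_
        rw [natDegree_X_pow]
        omega
    have h2 : s3.map ι - (X + C t) ^ (c + 1) * (C (t⁻¹ ^ (c + 1)) * ψ q) -
      C (ι ρ * t⁻¹ ^ j) * X ^ j = X ^ (j + 1) * (C (t⁻¹ ^ (j + 1)) * ψ r) := by
      rw [E3]; ring
    exact natDegree_of_mul_monic (natDegree_X_pow (j + 1)) (pow_ne_zero _ X_ne_zero) h2 h1
  · exact E1
  · exact E2'
  · exact E3
  · rw [hπd, ← coeff_map]
    simp [ht]

end

end Pool.Agent.Helper46.BC
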