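import Mathlib

/-!
# Approximations modulo `p` of finitely generated algebras over `ℂ[x,y]_(x,y)`

The definitions used in the statement of `MP_ab10b5_ag.EveryUltrafilter`.
-/

set_option autoImplicit false

namespace Pool.Agent.Helper46.BC

open MvPolynomial Filter

universe v

/-! ## The local ring `R(k)` and big Cohen-Macaulay algebras -/

/-- `k[x,y]` -/
abbrev kxy (k : Type) [Field k] : Type := MvPolynomial (Fin 2) k

/-- the maximal ideal `(x,y)` of `k[x,y]`: the polynomials with constant term zero. -/
noncomputable abbrev mxy (k : Type) [Field k] : Ideal (kxy k) :=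
  RingHom.ker (MvPolynomial.constantCoeff : MvPolynomial (Fin 2) k →+* k)

instance (k : Type) [Field k] : (mxy k).IsPrime := RingHom.ker_isPrime _

noncomputable instance instLoc (k : Type) [Field k] : CommRing (Localization.AtPrime (mxy k)) :=
  inferInstance

/-- the local ring `R(k) = k[x,y]_(x,y)` -/
def Rk (k : Type) [Field k] : Type := Localization.AtPrime (mxy k)

noncomputable instance instRk (k : Type) [Field k] : CommRing (Rk k) := instLoc k

instance instLocRk (k : Type) [Field k] : IsLocalRing (Rk k) :=
  inferInstanceAs (IsLocalRing (Localization.AtPrime (mxy k)))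

/-- the canonical map `k[x,y] → R(k)` -/
noncomputable def toRk (k : Type) [Field k] : kxy k →+* Rk k :=
  algebraMap (kxy k) (Localization.AtPrime (mxy k))

/-- `rs` is a system of parameters of the local ring `R`: it generates an ideal whose radical is
the maximal ideal, and its length is minimal with this property. -/
def IsSysPar (R : Type) [CommRing R] [IsLocalRing R] (rs : List R) : Prop :=
  (Ideal.ofList rs).radical = IsLocalRing.maximalIdeal R ∧
    ∀ rs' : List R, (Ideal.ofList rs').radical = IsLocalRing.maximalIdeal R →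
      rs.length ≤ rs'.length

/-- `B` is a (balanced) big Cohen-Macaulay `R`-algebra: every system of parameters of the local
ring `R` is a regular sequence on `B`. -/
def BigCM (R : Type) [CommRing R] [IsLocalRing R] (B : Type v) [CommRing B] [Algebra R B] : Prop :=
  ∀ rs : List R, IsSysPar R rs → RingTheory.Sequence.IsRegular B rs

/-- the finitely generated `R(k)`-algebra `R(k)[Y_1, …, Y_n]/(h_1, …, h_m)` -/
abbrev Pres (k : Type) [Field k] {n m : ℕ} (h : Fin m → MvPolynomial (Fin n) (Rk k)) : Type :=
  MvPolynomial (Fin n) (Rk k) ⧸ Ideal.span (Set.range h)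

/-- there are a big Cohen-Macaulay `R(k)`-algebra `B` and a homomorphism of `R(k)`-algebras
`R(k)[Y_1, …, Y_n]/(h_1, …, h_m) → B`. -/
def MapsToBigCM (k : Type) [Field k] {n m : ℕ} (h : Fin m → MvPolynomial (Fin n) (Rk k)) : Prop :=
  ∃ (B : Type v) (_ : CommRing B) (_ : Algebra (Rk k) B),
    BigCM (Rk k) B ∧ Nonempty (Pres k h →ₐ[Rk k] B)

/-! ## Approximations -/

section

variable (U : Ultrafilter Nat.Primes) {F : Nat.Primes → Type} [∀ p, Field (F p)]
  (π : (∀ p, F p) →+* ℂ)

/-- `π` comes from an isomorphism of the ultraproduct of the fields `F p` with `ℂ`: it is surjective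
and its kernel consists of the families that vanish for almost all `p`. So `π a' = a` says that the
family `a'` is an approximation of the complex number `a`. -/
def IsUlim : Prop :=
  Function.Surjective π ∧ ∀ a : ∀ p, F p, π a = 0 ↔ ∀ᶠ p in (U : Filter Nat.Primes), a p = 0

/-- the family `f'` is an approximation of the polynomial `f` in `ℂ[x,y]`: it is obtained by
replacing each coefficient of `f` by an approximation. -/
def ApproxA (f : kxy ℂ) (f' : ∀ p, kxy (F p)) : Prop :=
  (∀ p, (f' p).support ⊆ f.support) ∧
    ∀ s ∈ f.support, π (fun p => (f' p).coeff s) = f.coeff s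

/-- the family `r'` is an approximation of the element `r` of `R(ℂ) = ℂ[x,y]_(x,y)`: `r = f/g`, and
`r'_p = f'_p/g'_p` for almost all `p`, for approximations `f'` of `f` and `g'` of `g`. -/
def ApproxR (r : Rk ℂ) (r' : ∀ p, Rk (F p)) : Prop :=
  ∃ (f g : kxy ℂ) (f' g' : ∀ p, kxy (F p)), ApproxA π f f' ∧ ApproxA π g g' ∧
    (g ∉ mxy ℂ ∧ r * toRk ℂ g = toRk ℂ f) ∧
    ∀ᶠ p in (U : Filter Nat.Primes), g' p ∉ mxy (F p) ∧
      r' p * toRk (F p) (g' p) = toRk (F p) (f' p)

/-- the family `h'` is an approximation of the polynomial `h` over `R(ℂ)`: it is obtained by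
replacing each coefficient of `h` by an approximation. -/
def ApproxS {n : ℕ} (h : MvPolynomial (Fin n) (Rk ℂ))
    (h' : ∀ p, MvPolynomial (Fin n) (Rk (F p))) : Prop :=
  (∀ p, (h' p).support ⊆ h.support) ∧
    ∀ s ∈ h.support, ApproxR U π (h.coeff s) (fun p => (h' p).coeff s)

end

end Pool.Agent.Helper46.BC
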