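import Mathlib

/-!
# Relative embeddings of algebraically closed fields
-/

set_option autoImplicit false

open Cardinal

namespace Pool.Agent.Helper46.BC

theorem rel_embed (R K L : Type) [CommRing R] [Nontrivial R] [Field K] [Field L] [IsAlgClosed K]
    [IsAlgClosed L] [Algebra R K] [Algebra R L] [FaithfulSMul R K] [FaithfulSMul R L]
    (hR : #R ≤ ℵ₀) (hK : ℵ₀ < #K) (hKL : #K = #L) :
    ∃ f : K →+* L, f.comp (algebraMap R K) = algebraMap R L := by
  obtain ⟨s, hs⟩ := exists_isTranscendenceBasis R K
  obtain ⟨t, ht⟩ := exists_isTranscendenceBasis R L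
  have h1 := IsAlgClosed.cardinal_eq_cardinal_transcendence_basis_of_aleph0_lt' _ hs hR hK
  have h2 := IsAlgClosed.cardinal_eq_cardinal_transcendence_basis_of_aleph0_lt' _ ht hR
    (by rw [← hKL]; exact hK)
  have h3 : #s = #t := by rw [← h1, ← h2, hKL]
  obtain ⟨e⟩ := Cardinal.eq.1 h3
  let := IsAlgClosed.isAlgClosure_of_transcendence_basis _ hs
  let := IsAlgClosed.isAlgClosure_of_transcendence_basis _ ht
  let E : Algebra.adjoin R (Set.range ((↑) : s → K)) ≃ₐ[R]
      Algebra.adjoin R (Set.range ((↑) : t → L)) :=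
    (hs.1.aevalEquiv.symm.trans (MvPolynomial.renameEquiv R e)).trans ht.1.aevalEquiv
  refine ⟨(IsAlgClosure.equivOfEquiv K L E.toRingEquiv : K ≃+* L), ?_⟩
  ext r
  have h4 := IsAlgClosure.equivOfEquiv_algebraMap K L E.toRingEquiv
    (algebraMap R (Algebra.adjoin R (Set.range ((↑) : s → K))) r)
  rw [← IsScalarTower.algebraMap_apply] at h4
  rw [RingHom.comp_apply]
  refine h4.trans ?_
  have h5 : E.toRingEquiv (algebraMap R (Algebra.adjoin R (Set.range ((↑) : s → K))) r) =
      algebraMap R _ r := E.commutes r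
  rw [h5, ← IsScalarTower.algebraMap_apply]

/-- an ultraproduct of countable algebraically closed fields, relative to a countable ring. -/
theorem exists_embed (P : Set ℕ) (𝒱 : Ultrafilter P)
    (hcof : (𝒱 : Filter P) ≤ Filter.cofinite)
    (k : P → Type) [∀ i, Field (k i)] [∀ i, IsAlgClosed (k i)]
    (hcount : ∀ i, Countable (k i))
    (J : Ideal (∀ i, k i)) (hJ : ∀ a : (∀ i, k i), a ∈ J ↔ ∀ᶠ i in (𝒱 : Filter P), a i = 0)
    (R : Type) [CommRing R] [Countable R] (f : R →+* ℂ) (hf : Function.Injective f)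
    (g : R →+* ((∀ i, k i) ⧸ J)) (hg : Function.Injective g) :
    ∃ φ : ℂ →+* ((∀ i, k i) ⧸ J), ∀ r, φ (f r) = g r := by
  -- the quotient is a field
  have hmax : J.IsMaximal := by
    rw [Ideal.isMaximal_iff]
    refine ⟨?_, ?_⟩
    · rw [hJ]
      intro h
      obtain ⟨i, hi⟩ := h.exists
      exact one_ne_zero hi
    · intro I a hJI haJ haI
      rw [hJ] at haJ
      have hne : ∀ᶠ i in (𝒱 : Filter P), a i ≠ 0 := Ultrafilter.eventually_not.mpr haJ
      have h1 : (1 : ∀ i, k i) - (fun i => (a i)⁻¹) * a ∈ J := by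
        rw [hJ]
        filter_upwards [hne] with i hi
        simp [hi]
      have h2 : (fun i => (a i)⁻¹) * a ∈ I := I.mul_mem_left _ haI
      have h3 := I.add_mem (hJI h1) h2
      rwa [sub_add_cancel] at h3
  let _ : Field ((∀ i, k i) ⧸ J) := Ideal.Quotient.field J
  -- algebraically closed
  have : IsAlgClosed ((∀ i, k i) ⧸ J) := by
    apply IsAlgClosed.of_exists_root
    intro p hp hirr
    have hlift : p ∈ Polynomial.lifts (Ideal.Quotient.mk J) := by
      rw [Polynomial.mem_lifts]
      exact Polynomial.map_surjective _ Ideal.Quotient.mk_surjective p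
    obtain ⟨q, hq1, hq2, hq3⟩ := Polynomial.lifts_and_natDegree_eq_and_monic hlift hp
    have hroot : ∀ i : P, ∃ x : k i, (q.map (Pi.evalRingHom k i)).eval x = 0 := by
      intro i
      have hd : (q.map (Pi.evalRingHom k i)).degree ≠ 0 := by
        have h1 : (q.map (Pi.evalRingHom k i)).natDegree = p.natDegree := by
          rw [hq3.natDegree_map, hq2]
        have h2 : 0 < p.natDegree := hirr.natDegree_pos
        intro h3
        have h4 := Polynomial.natDegree_eq_zero_iff_degree_le_zero.mpr h3.le
        omega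
      obtain ⟨x, hx⟩ := IsAlgClosed.exists_root _ hd
      exact ⟨x, hx⟩
    choose x hx using hroot
    refine ⟨Ideal.Quotient.mk J x, ?_⟩
    have h0 : q.eval x = 0 := by
      funext i
      have h1 := Polynomial.eval_map_apply (f := Pi.evalRingHom k i) (p := q) x
      have h2 : (q.map (Pi.evalRingHom k i)).eval (x i) = (q.eval x) i := h1
      rw [← h2, hx i]
      rfl
    rw [← hq1, Polynomial.eval_map_apply, h0, map_zero]
  -- cardinality, upper bound
  have hupper : #((∀ i, k i) ⧸ J) ≤ 𝔠 := by
    refine (mk_le_of_surjective Ideal.Quotient.mk_surjective).trans ?_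
    have hinj : ∀ i, ∃ f : k i → ℕ, Function.Injective f := fun i => (hcount i).exists_injective_nat'
    choose f hf using hinj
    have h1 : #(∀ i, k i) ≤ #(P → ℕ) := by
      refine mk_le_of_injective (f := fun a i => f i (a i)) ?_
      intro a b hab
      funext i
      exact hf i (congrFun hab i)
    refine h1.trans ?_
    rw [← power_def, mk_nat, ← aleph0_power_aleph0]
    exact power_le_power_left aleph0_ne_zero mk_le_aleph0
  -- cardinality, lower bound
  have hlower : 𝔠 ≤ #((∀ i, k i) ⧸ J) := by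
    have hk : ∀ i, ∃ f : ℕ → k i, Function.Injective f := fun i => by
      have : Infinite (k i) := IsAlgClosed.instInfinite
      exact ⟨_, (Infinite.natEmbedding (k i)).injective⟩
    choose e he using hk
    rw [← two_power_aleph0, ← mk_bool, ← mk_nat, power_def]
    refine mk_le_of_injective (f := fun r : ℕ → Bool => Ideal.Quotient.mk J
      (fun i => e i (Encodable.encode ((List.range (i : ℕ)).map r)))) ?_
    intro r s hrs
    funext m
    have h1 := Ideal.Quotient.eq.mp hrs
    rw [hJ] at h1
    have hfin : {i : P | (i : ℕ) ≤ m}.Finite := by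
      apply Set.Finite.of_finite_image (f := Subtype.val)
      · exact (Set.finite_Iic m).subset (by rintro _ ⟨i, hi, rfl⟩; exact hi)
      · exact Subtype.val_injective.injOn
    have h2 : ∀ᶠ i : P in (𝒱 : Filter P), ¬ (i : ℕ) ≤ m :=
      hcof hfin.compl_mem_cofinite
    obtain ⟨i, hi1, hi2⟩ := (h1.and h2).exists
    have h3 : (List.range (i : ℕ)).map r = (List.range (i : ℕ)).map s := by
      apply Encodable.encode_injective
      apply he i
      exact sub_eq_zero.mp hi1
    rw [List.map_inj_left] at h3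
    exact h3 m (List.mem_range.mpr (by omega))
  have hQ : #((∀ i, k i) ⧸ J) = 𝔠 := le_antisymm hupper hlower
  have hC : #ℂ = 𝔠 := mk_complex
  let : Algebra R ℂ := f.toAlgebra
  let : Algebra R ((∀ i, k i) ⧸ J) := g.toAlgebra
  have : FaithfulSMul R ℂ := (faithfulSMul_iff_algebraMap_injective R ℂ).2 hf
  have : FaithfulSMul R ((∀ i, k i) ⧸ J) := (faithfulSMul_iff_algebraMap_injective R _).2 hg
  have : Nontrivial R := RingHom.domain_nontrivial f
  obtain ⟨φ, hφ⟩ := rel_embed R ℂ ((∀ i, k i) ⧸ J) mk_le_aleph0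
    (by rw [hC]; exact aleph0_lt_continuum) (by rw [hC, hQ])
  exact ⟨φ, fun r => RingHom.congr_fun hφ r⟩

end Pool.Agent.Helper46.BC
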