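import Pool.Agent.Helper46.BC.Theta

/-!
# Existence of approximations
-/

set_option autoImplicit false

namespace Pool.Agent.Helper46.BC

open MvPolynomial Pool.Agent.H408BCM Filter

variable {U : Ultrafilter Nat.Primes} {F : Nat.Primes → Type} [∀ p, Field (F p)]
  {π : (∀ p, F p) →+* ℂ} (hπ : IsUlim U π)

lemma coeff_sum_monomial {ι K : Type*} [CommRing K] [DecidableEq ι]
    (T : Finset (ι →₀ ℕ)) (c : (ι →₀ ℕ) → K) (s : ι →₀ ℕ) :
    (∑ u ∈ T, monomial u (c u)).coeff s = if s ∈ T then c s else 0 := by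
  rw [MvPolynomial.coeff_sum]
  have : ∀ u ∈ T, (monomial u (c u)).coeff s = if u = s then c u else 0 := by
    intro u _
    rw [coeff_monomial]
  rw [Finset.sum_congr rfl this, Finset.sum_ite_eq']

include hπ in
lemma exists_approxA (f : kxy ℂ) : ∃ f', ApproxA π f f' := by
  classical
  choose a' ha' using fun s => hπ.1 (f.coeff s)
  refine ⟨fun p => ∑ s ∈ f.support, monomial s (a' s p), ?_, ?_⟩
  · intro p s hs
    rw [mem_support_iff, coeff_sum_monomial] at hs
    by_contra h
    rw [if_neg h] at hs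
    exact hs rfl
  · intro s hs
    have : (fun p => (∑ s ∈ f.support, monomial s (a' s p)).coeff s) = a' s := by
      funext p
      rw [coeff_sum_monomial f.support (fun s => a' s p), if_pos hs]
    rw [this]
    exact ha' s

include hπ in
lemma not_mem_mxy (g : kxy ℂ) (hg : g ∉ mxy ℂ) (g' : ∀ p, kxy (F p)) (h : ApproxA π g g') :
    ∀ᶠ p in (U : Filter Nat.Primes), g' p ∉ mxy (F p) := by
  have h0 : g.coeff 0 ≠ 0 := by
    intro h1
    apply hg
    rw [RingHom.mem_ker, constantCoeff_eq]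
    exact h1
  have h1 := h.2 0 (mem_support_iff.2 h0)
  refine Ultrafilter.eventually_not.2 (fun h2 => ?_)
  apply h0
  rw [← h1, hπ.2]
  filter_upwards [h2] with p hp
  rw [RingHom.mem_ker, constantCoeff_eq] at hp
  exact hp

include hπ in
lemma exists_approxR (r : Rk ℂ) : ∃ r', ApproxR U π r r' := by
  classical
  obtain ⟨⟨f, g⟩, hfg⟩ := IsLocalization.surj (M := (mxy ℂ).primeCompl)
    (S := Localization.AtPrime (mxy ℂ)) r
  obtain ⟨f', hf'⟩ := exists_approxA hπ f
  obtain ⟨g', hg'⟩ := exists_approxA hπ (g : kxy ℂ)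
  have hex : ∀ p, ∃ r' : Rk (F p), g' p ∉ mxy (F p) →
      r' * toRk (F p) (g' p) = toRk (F p) (f' p) := by
    intro p
    by_cases h : g' p ∉ mxy (F p)
    · obtain ⟨u, hu⟩ := toRk_isUnit (F p) (g' p) h
      refine ⟨toRk (F p) (f' p) * (↑u⁻¹ : Rk (F p)), fun _ => ?_⟩
      rw [← hu, mul_assoc, Units.inv_mul, mul_one]
    · exact ⟨0, fun h' => absurd h' h⟩
  choose r' hr' using hex
  refine ⟨r', f, g, f', g', hf', hg', ⟨g.2, hfg⟩, ?_⟩
  filter_upwards [not_mem_mxy hπ g g.2 g' hg'] with p hp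
  exact ⟨hp, hr' p hp⟩

include hπ in
lemma exists_approxS {n : ℕ} (h : MvPolynomial (Fin n) (Rk ℂ)) : ∃ h', ApproxS U π h h' := by
  classical
  choose a' ha' using fun s => exists_approxR hπ (h.coeff s)
  refine ⟨fun p => ∑ s ∈ h.support, monomial s (a' s p), ?_, ?_⟩
  · intro p s hs
    rw [mem_support_iff, coeff_sum_monomial] at hs
    by_contra h
    rw [if_neg h] at hs
    exact hs rfl
  · intro s hs
    have : (fun p => (∑ s ∈ h.support, monomial s (a' s p)).coeff s) = a' s := by
      funext p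
      rw [coeff_sum_monomial h.support (fun s => a' s p), if_pos hs]
    rw [this]
    exact ha' s

end Pool.Agent.Helper46.BC
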