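import Pool.Agent.Helper46.BC.Model
import Pool.Agent.Helper46.BC.Exist

/-!
# The final argument
-/

set_option autoImplicit false

namespace Pool.Agent.Helper46.BC

open MvPolynomial Pool.Agent.H408BCM Filter

universe v

lemma mod_ne_zero' (Q : Polynomial (Polynomial ℤ)) (hQ : Q ≠ 0) :
    ∃ N : ℕ, ∀ p : ℕ, N < p → ∀ (K : Type) [CommRing K] [CharP K p],
      Q.map (Polynomial.mapRingHom (Int.castRingHom K)) ≠ 0 := by
  obtain ⟨m, hm⟩ : ∃ m, Q.coeff m ≠ 0 := by
    by_contra h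
    push Not at h
    exact hQ (Polynomial.ext (by simpa using h))
  obtain ⟨n, hn⟩ : ∃ n, (Q.coeff m).coeff n ≠ 0 := by
    by_contra h
    push Not at h
    exact hm (Polynomial.ext (by simpa using h))
  refine ⟨((Q.coeff m).coeff n).natAbs, fun p hp K _ _ h => ?_⟩
  have h1 := congrArg (fun f => (Polynomial.coeff f m).coeff n) h
  simp only [Polynomial.coeff_map, Polynomial.coe_mapRingHom, Polynomial.coeff_zero] at h1
  have h2 : ((((Q.coeff m).coeff n : ℤ)) : K) = 0 := by simpa using h1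
  rw [CharP.intCast_eq_zero_iff K p] at h2
  have h3 : p ∣ ((Q.coeff m).coeff n).natAbs := by
    rw [← Int.natCast_dvd]; exact h2
  have := Nat.le_of_dvd (Int.natAbs_pos.2 hn) h3
  omega

lemma exists_family (F : Nat.Primes → Type) [∀ p, Field (F p)] [∀ p, IsAlgClosed (F p)]
    [∀ p, CharP (F p) (p : ℕ)] : ∃ t' l' : ∀ p, F p,
    (∀ p : Nat.Primes, 7 ≤ (p : ℕ) → BadPair (F p) (p : ℕ) (t' p) (l' p)) ∧
    ∀ Q : Polynomial (Polynomial ℤ), Q ≠ 0 → ∃ N : ℕ, ∀ p : Nat.Primes, N < (p : ℕ) →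
      ev2 (t' p) (l' p) Q ≠ 0 := by
  classical
  have hcountR : Countable (Polynomial (Polynomial ℤ)) := by
    have : Countable (Polynomial ℤ) := countable_poly ℤ
    exact countable_poly _
  obtain ⟨E, hE⟩ := exists_surjective_nat (Polynomial (Polynomial ℤ))
  have hex : ∀ p : Nat.Primes, ∃ t l : F p, 7 ≤ (p : ℕ) → BadPair (F p) (p : ℕ) t l ∧
      ∀ i < (p : ℕ), (E i).natDegree < (p : ℕ) →
        (E i).map (Polynomial.mapRingHom (Int.castRingHom (F p))) ≠ 0 →
        ev2 t l (E i) ≠ 0 := by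
    intro p
    by_cases h7 : 7 ≤ (p : ℕ)
    · obtain ⟨t, l, hb, hQ⟩ := exists_badPair (F p) (p : ℕ) p.2 h7
        (((Finset.range (p : ℕ)).image (fun i =>
          (E i).map (Polynomial.mapRingHom (Int.castRingHom (F p))))).filter
          (fun Q => Q ≠ 0 ∧ Q.natDegree < (p : ℕ)))
        (fun Q hQ => (Finset.mem_filter.1 hQ).2)
      refine ⟨t, l, fun _ => ⟨hb, fun i hi hd hne => ?_⟩⟩
      have h1 := hQ ((E i).map (Polynomial.mapRingHom (Int.castRingHom (F p)))) (by
        rw [Finset.mem_filter]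
        exact ⟨Finset.mem_image_of_mem _ (Finset.mem_range.2 hi), hne,
          lt_of_le_of_lt Polynomial.natDegree_map_le hd⟩)
      have h2 : ev2 t l (E i) =
          ((E i).map (Polynomial.mapRingHom (Int.castRingHom (F p)))).eval₂
            (Polynomial.evalRingHom t) l := by
        unfold ev2
        rw [Polynomial.coe_eval₂RingHom, Polynomial.eval₂_map]
        congr 1
        apply Polynomial.ringHom_ext
        · intro x
          simp
        · simp
      rw [h2]
      exact h1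
    · exact ⟨0, 0, fun h => absurd h h7⟩
  choose t' l' H using hex
  refine ⟨t', l', fun p hp => (H p hp).1, fun Q hQ => ?_⟩
  obtain ⟨i, rfl⟩ := hE Q
  obtain ⟨N, hN⟩ := mod_ne_zero' (E i) hQ
  refine ⟨max (max i (E i).natDegree) (max N 7), fun p hp => ?_⟩
  have h1 : i < (p : ℕ) := by omega
  have h2 : (E i).natDegree < (p : ℕ) := by omega
  have h3 : N < (p : ℕ) := by omega
  exact (H p (by omega)).2 i h1 h2 (hN (p : ℕ) h3 (F p))

theorem main (U : Ultrafilter Nat.Primes) (hU : ∀ p, U ≠ pure p) (F : Nat.Primes → Type)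
    [∀ p, Field (F p)] [∀ p, IsAlgClosed (F p)] [∀ p, CharP (F p) (p : ℕ)]
    (π : (∀ p, F p) →+* ℂ) (hπ : IsUlim U π) :
    ∃ h : Fin 4 → MvPolynomial (Fin 6) (Rk ℂ),
      MapsToBigCM.{0} ℂ h ∧
      (∃ h' : Fin 4 → ∀ p, MvPolynomial (Fin 6) (Rk (F p)), ∀ j, ApproxS U π (h j) (h' j)) ∧
      ∀ h' : Fin 4 → ∀ p, MvPolynomial (Fin 6) (Rk (F p)), (∀ j, ApproxS U π (h j) (h' j)) →
        ∀ᶠ p in (U : Filter Nat.Primes), ¬ MapsToBigCM.{v} (F p) (fun j => h' j p) := by
  have hcof : (U : Filter Nat.Primes) ≤ cofinite := by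
    rcases U.le_cofinite_or_eq_pure with h | ⟨p, h⟩
    · exact h
    · exact absurd h (hU p)
  have hbig : ∀ N : ℕ, ∀ᶠ p : Nat.Primes in (U : Filter Nat.Primes), N < (p : ℕ) := by
    intro N
    have hfin : {p : Nat.Primes | (p : ℕ) ≤ N}.Finite := by
      apply Set.Finite.of_finite_image (f := Subtype.val)
      · exact (Set.finite_Iic N).subset (by rintro _ ⟨i, hi, rfl⟩; exact hi)
      · exact Subtype.val_injective.injOn
    have h2 : ∀ᶠ p : Nat.Primes in (U : Filter Nat.Primes), ¬ (p : ℕ) ≤ N :=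
      hcof hfin.compl_mem_cofinite
    filter_upwards [h2] with p hp
    omega
  obtain ⟨t', l', hbad, hgen⟩ := exists_family F
  set t : ℂ := π t' with ht
  set l : ℂ := π l' with hl
  have hind : ∀ Q : Polynomial (Polynomial ℤ), Q ≠ 0 → ev2 t l Q ≠ 0 := by
    intro Q hQ h0
    have h1 : π (ev2 t' l' Q) = 0 := by
      rw [← h0, ht, hl]
      exact ev2_map π t' l' Q
    rw [hπ.2] at h1
    obtain ⟨N, hN⟩ := hgen Q hQ
    obtain ⟨p, hp1, hp2⟩ := (h1.and (hbig N)).exists
    apply hN p hp2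
    rw [← hp1]
    exact (ev2_map (Pi.evalRingHom F p) t' l' Q).symm
  refine ⟨rel ℂ t l, pos_part t l hind, ?_, ?_⟩
  · choose h' hh' using fun j => exists_approxS hπ (rel ℂ t l j)
    exact ⟨h', hh'⟩
  · intro h' hh'
    have h1 : ∀ j, ∀ᶠ p in (U : Filter Nat.Primes), h' j p = rel (F p) (t' p) (l' p) j := by
      intro j
      rw [← ulim_eq, ← Theta_approx hπ 6 (expl ℂ t l j) (h' j) (hh' j)]
      exact Theta_expl hπ t l t' l' ht.symm hl.symm j
    have h2 := eventually_all.2 h1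
    filter_upwards [h2, hbig 7] with p hp1 hp2
    have h3 : (fun j => h' j p) = rel (F p) (t' p) (l' p) := by
      funext j
      exact hp1 j
    rw [h3]
    exact neg_part (F p) (p : ℕ) p.2 _ _ (hbad p (by omega))

end Pool.Agent.Helper46.BC
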