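import Pool.Agent.Helper46.BC.Sol
import Pool.Agent.Helper46.L.H408BCM.TDG

/-!
# The algebras in characteristic `p` for generic parameters
-/

set_option autoImplicit false

namespace Pool.Agent.Helper46.BC

section

open Polynomial

theorem good_memb {k B : Type*} [Field k] [CommRing B] (ι : k →+* B) (p c : ℕ)
    (hpc : p = 6 * c + 5) (τ Λ δ : k) (hδ : δ * (Λ - 1) = 1) (a b w3 w4 : k[X])
    (ha : a.natDegree ≤ c) (hb : b.natDegree ≤ c)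
    (hw3 : w3.natDegree ≤ 3 * c + 1) (hw4 : w4.natDegree ≤ 3 * c + 1)
    (e1 : a + C (Λ * δ) * X ^ (2 * c + 1) + C Λ * (X ^ (3 * c + 2) * b) = (X + 1) ^ (c + 1) * w3)
    (e2 : a + C δ * X ^ (2 * c + 1) + X ^ (3 * c + 2) * b = (X + C τ) ^ (c + 1) * w4)
    (x y z3 z4 : B) (h3 : z3 ^ 6 = x ^ 6 + y ^ 6) (h4 : z4 ^ 6 = x ^ 6 + ι τ * y ^ 6) :
    ∃ c1 c2 c3 c4 : B,
      (x ^ p) ^ 2 * (y ^ p) ^ 2 = c1 * (x ^ p) ^ 3 + c3 * z3 ^ p + c4 * z4 ^ p ∧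
      0 = c2 * (y ^ p) ^ 3 + c3 * z3 ^ p + ι Λ * c4 * z4 ^ p := by
  set H := fun (d : ℕ) (f : k[X]) => hh ι (x ^ 6) (y ^ 6) d f with hH
  have hI : hh ι (x ^ 6) (y ^ 6) (3 * c + 2 + c) (X ^ (2 * c + 1)) =
      (x ^ 6) ^ (2 * c + 1) * (y ^ 6) ^ (2 * c + 1) := by
    have h2 := hh_X_pow ι (x ^ 6) (y ^ 6) (2 * c + 1) (e := 2 * c + 1) (f := 1) (by simp)
    rw [mul_one, hh_one] at h2
    rw [← h2]
    congr 1
    omega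
  have E1 := congrArg (hh ι (x ^ 6) (y ^ 6) (3 * c + 2 + c)) e1
  have E2 := congrArg (hh ι (x ^ 6) (y ^ 6) (3 * c + 2 + c)) e2
  have hd1 : ((X + 1 : k[X]) ^ (c + 1)).natDegree ≤ c + 1 := by
    have := natDegree_lin_pow (1 : k) (c + 1)
    rwa [C_1] at this
  have hs0 : (x ^ 6 + y ^ 6) ^ (c + 1) = hh ι (x ^ 6) (y ^ 6) (c + 1) ((X + 1) ^ (c + 1)) := by
    have := hh_lin_pow ι (x ^ 6) (y ^ 6) 1 (c + 1)
    rw [C_1, map_one, one_mul] at this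
    exact this.symm
  rw [hh_add, hh_add, hh_up ι _ _ (3 * c + 2) ha, hh_C_mul, hI, hh_C_mul,
    hh_X_pow ι _ _ (3 * c + 2) hb, show 3 * c + 2 + c = (c + 1) + (3 * c + 1) by omega,
    hh_mul ι _ _ hd1 hw3, ← hs0] at E1
  rw [hh_add, hh_add, hh_up ι _ _ (3 * c + 2) ha, hh_C_mul, hI,
    hh_X_pow ι _ _ (3 * c + 2) hb, show 3 * c + 2 + c = (c + 1) + (3 * c + 1) by omega,
    hh_mul ι _ _ (natDegree_lin_pow τ _) hw4, hh_lin_pow] at E2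
  set a' := hh ι (x ^ 6) (y ^ 6) c a with ha'
  set b' := hh ι (x ^ 6) (y ^ 6) c b with hb'
  set W3 := hh ι (x ^ 6) (y ^ 6) (3 * c + 1) w3 with hW3
  set W4 := hh ι (x ^ 6) (y ^ 6) (3 * c + 1) w4 with hW4
  have z3p : z3 * z3 ^ p = (x ^ 6 + y ^ 6) ^ (c + 1) := by
    rw [← pow_succ', hpc, ← h3, ← pow_mul]; congr 1
  have z4p : z4 * z4 ^ p = (x ^ 6 + ι τ * y ^ 6) ^ (c + 1) := by
    rw [← pow_succ', hpc, ← h4, ← pow_mul]; congr 1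
  have g2 : ∀ v : B, (v ^ p) ^ 2 = v ^ 4 * (v ^ 6) ^ (2 * c + 1) := by
    intro v; rw [← pow_mul, ← pow_mul, ← pow_add]; congr 1; omega
  have g3 : ∀ v : B, (v ^ p) ^ 3 = v ^ 3 * (v ^ 6) ^ (3 * c + 2) := by
    intro v; rw [← pow_mul, ← pow_mul, ← pow_add]; congr 1; omega
  have hδ' : ι δ * (ι Λ - 1) = 1 := by
    rw [← map_one ι, ← map_sub, ← map_mul, hδ]
  rw [map_mul] at E1
  refine ⟨(1 - ι Λ) * x * y ^ 4 * b', (ι Λ - 1) * x ^ 4 * y * a', x ^ 4 * y ^ 4 * z3 * W3,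
    -(x ^ 4 * y ^ 4 * z4 * W4), ?_, ?_⟩
  · rw [g2, g2, g3]
    linear_combination (x ^ 4 * y ^ 4) * (E1 - E2) - (x ^ 4 * y ^ 4 * W3) * z3p +
      (x ^ 4 * y ^ 4 * W4) * z4p - (x ^ 4 * y ^ 4 * (x ^ 6) ^ (2 * c + 1) *
      (y ^ 6) ^ (2 * c + 1)) * hδ'
  · rw [g3]
    linear_combination (x ^ 4 * y ^ 4) * (E1 - ι Λ * E2) - (x ^ 4 * y ^ 4 * W3) * z3p +
      (ι Λ * x ^ 4 * y ^ 4 * W4) * z4p

end

end Pool.Agent.Helper46.BC
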