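import Pool.Agent.Helper46.L.H408BCM.TDG

/-!
# The algebra `k[x,y][z3,z4]`
-/

set_option autoImplicit false

namespace Pool.Agent.Helper46.BC

open MvPolynomial Pool.Agent.H408BCM

theorem twoRoot (k : Type) [Field k] (τ : k) (p : ℕ) (hp : 0 < p) :
    ∃ (B : Type) (_ : CommRing B) (_ : Algebra (A k) B) (z3 z4 : B),
      z3 ^ 6 = algebraMap (A k) B (X 0 ^ 6 + X 1 ^ 6) ∧
      z4 ^ 6 = algebraMap (A k) B (X 0 ^ 6 + C τ * X 1 ^ 6) ∧
      Good (A k) B (X 0 ^ p) (X 1 ^ p) := by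
  let f3 : A k := X 0 ^ 6 + X 1 ^ 6
  let f4 : A k := X 0 ^ 6 + C τ * X 1 ^ 6
  let g3 : Polynomial (A k) := Polynomial.X ^ 6 - Polynomial.C f3
  have hg3 : g3.Monic := Polynomial.monic_X_pow_sub_C _ (by norm_num)
  let B1 := AdjoinRoot g3
  let g4 : Polynomial B1 := Polynomial.X ^ 6 - Polynomial.C (algebraMap (A k) B1 f4)
  have hg4 : g4.Monic := Polynomial.monic_X_pow_sub_C _ (by norm_num)
  let B2 := AdjoinRoot g4
  have hz3 : (AdjoinRoot.root g3) ^ 6 = algebraMap (A k) B1 f3 := by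
    have h1 : AdjoinRoot.mk g3 g3 = 0 := AdjoinRoot.mk_self
    have h2 : AdjoinRoot.mk g3 g3 = (AdjoinRoot.root g3) ^ 6 - algebraMap (A k) B1 f3 := by
      simp only [g3, map_sub, map_pow, AdjoinRoot.mk_X, AdjoinRoot.mk_C]
      rfl
    rw [h2] at h1
    exact sub_eq_zero.mp h1
  have hz4 : (AdjoinRoot.root g4) ^ 6 = algebraMap B1 B2 (algebraMap (A k) B1 f4) := by
    have h1 : AdjoinRoot.mk g4 g4 = 0 := AdjoinRoot.mk_self
    have h2 : AdjoinRoot.mk g4 g4 = (AdjoinRoot.root g4) ^ 6 -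
        algebraMap B1 B2 (algebraMap (A k) B1 f4) := by
      simp only [g4, map_sub, map_pow, AdjoinRoot.mk_X, AdjoinRoot.mk_C]
      rfl
    rw [h2] at h1
    exact sub_eq_zero.mp h1
  have hl3 : g3.eval₂ (constantCoeff : A k →+* k) 0 = 0 := by
    simp only [g3, f3]
    rw [Polynomial.eval₂_sub, Polynomial.eval₂_pow, Polynomial.eval₂_X, Polynomial.eval₂_C,
      map_add, map_pow, map_pow, MvPolynomial.constantCoeff_X, MvPolynomial.constantCoeff_X]
    simp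
  let ψ1 : B1 →+* k := AdjoinRoot.lift (constantCoeff : A k →+* k) 0 hl3
  have hψ1 : ∀ f : A k, ψ1 (algebraMap (A k) B1 f) = constantCoeff f := by
    intro f
    simp only [ψ1, B1]
    rw [AdjoinRoot.algebraMap_eq, AdjoinRoot.lift_of]
  have hl4 : g4.eval₂ ψ1 0 = 0 := by
    simp only [g4]
    rw [Polynomial.eval₂_sub, Polynomial.eval₂_pow, Polynomial.eval₂_X, Polynomial.eval₂_C, hψ1]
    simp [f4]
  let ψ2 : B2 →+* k := AdjoinRoot.lift ψ1 0 hl4
  have hψ2 : ∀ b : B1, ψ2 (algebraMap B1 B2 b) = ψ1 b := by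
    intro b
    simp only [ψ2, B2]
    rw [AdjoinRoot.algebraMap_eq, AdjoinRoot.lift_of]
  let e1 := (AdjoinRoot.powerBasis' hg3).basis
  let e2 := (AdjoinRoot.powerBasis' hg4).basis
  let e : Module.Basis _ (A k) B2 := e1.smulTower e2
  refine ⟨B2, inferInstance, inferInstance, algebraMap B1 B2 (AdjoinRoot.root g3),
    AdjoinRoot.root g4, ?_, ?_, ?_⟩
  · rw [← map_pow, hz3, ← IsScalarTower.algebraMap_apply]
  · rw [hz4, ← IsScalarTower.algebraMap_apply]
  · refine TDG.good_of_basis e p hp ψ2 ?_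
    intro f
    rw [IsScalarTower.algebraMap_apply (A k) B1 B2, hψ2, hψ1]

end Pool.Agent.Helper46.BC
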