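import Pool.Agent.Helper46.BC.GoodField
import Pool.Agent.Helper46.BC.GoodP
import Pool.Agent.Helper46.BC.TwoRoot
import Pool.Agent.Helper46.BC.Embed
import Pool.Agent.Helper46.L.H408BCM.MG

/-!
# The big Cohen-Macaulay algebra over `ℂ[x,y]`
-/

set_option autoImplicit false

namespace Pool.Agent.Helper46.BC

open Filter

lemma ev2_map {K K' : Type*} [CommRing K] [CommRing K'] (φ : K →+* K') (t l : K)
    (Q : Polynomial (Polynomial ℤ)) : φ (ev2 t l Q) = ev2 (φ t) (φ l) Q := by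
  unfold ev2
  rw [Polynomial.coe_eval₂RingHom, Polynomial.coe_eval₂RingHom, Polynomial.hom_eval₂]
  congr 1
  apply Polynomial.ringHom_ext
  · intro x
    simp
  · simp

lemma mod_ne_zero (Q : Polynomial (Polynomial ℤ)) (hQ : Q ≠ 0) :
    ∃ N : ℕ, ∀ p : ℕ, N < p →
      Q.map (Polynomial.mapRingHom (Int.castRingHom (ZMod p))) ≠ 0 := by
  obtain ⟨m, hm⟩ : ∃ m, Q.coeff m ≠ 0 := by
    by_contra h
    push Not at h
    exact hQ (Polynomial.ext (by simpa using h))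
  obtain ⟨n, hn⟩ : ∃ n, (Q.coeff m).coeff n ≠ 0 := by
    by_contra h
    push Not at h
    exact hm (Polynomial.ext (by simpa using h))
  refine ⟨((Q.coeff m).coeff n).natAbs, fun p hp h => ?_⟩
  have h1 := congrArg (fun f => (Polynomial.coeff f m).coeff n) h
  simp only [Polynomial.coeff_map, Polynomial.coe_mapRingHom, Polynomial.coeff_zero] at h1
  have h2 : ((((Q.coeff m).coeff n : ℤ)) : ZMod p) = 0 := by simpa using h1
  rw [ZMod.intCast_zmod_eq_zero_iff_dvd] at h2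
  have h3 : p ∣ ((Q.coeff m).coeff n).natAbs := by
    rw [← Int.natCast_dvd]; exact h2
  have := Nat.le_of_dvd (Int.natAbs_pos.2 hn) h3
  omega

theorem primes_inf : {q : ℕ | q.Prime ∧ ∃ c, q = 6 * c + 5}.Infinite := by
  have hu : IsUnit ((5 : ℕ) : ZMod 6) := (ZMod.isUnit_iff_coprime 5 6).2 (by norm_num)
  have hinf := Nat.infinite_setOf_prime_and_eq_mod hu
  refine hinf.mono ?_
  rintro q ⟨h1, h2⟩
  refine ⟨h1, q / 6, ?_⟩
  rw [ZMod.natCast_eq_natCast_iff] at h2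
  have : q % 6 = 5 % 6 := h2
  omega

open Pool.Agent.H408BCM Pool.Agent.H408BCM.MG MvPolynomial in
theorem good_alg (t l : ℂ) (hind : ∀ Q : Polynomial (Polynomial ℤ), Q ≠ 0 → ev2 t l Q ≠ 0) :
    ∃ (B : Type) (_ : CommRing B) (_ : Algebra (A ℂ) B), Good (A ℂ) B (X 0) (X 1) ∧
      ∃ z3 z4 c1 c2 c3 c4 : B,
        z3 ^ 6 = (algebraMap (A ℂ) B (X 0)) ^ 6 + (algebraMap (A ℂ) B (X 1)) ^ 6 ∧
        z4 ^ 6 = (algebraMap (A ℂ) B (X 0)) ^ 6 +
          algebraMap (A ℂ) B (C t) * (algebraMap (A ℂ) B (X 1)) ^ 6 ∧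
        (algebraMap (A ℂ) B (X 0)) ^ 2 * (algebraMap (A ℂ) B (X 1)) ^ 2 =
          c1 * (algebraMap (A ℂ) B (X 0)) ^ 3 + c3 * z3 + c4 * z4 ∧
        0 = c2 * (algebraMap (A ℂ) B (X 1)) ^ 3 + c3 * z3 +
          algebraMap (A ℂ) B (C l) * c4 * z4 := by
  set P : Set ℕ := {q : ℕ | q.Prime ∧ ∃ c, q = 6 * c + 5} with hPdef
  have hPinf : P.Infinite := primes_inf
  have : Infinite P := hPinf.to_subtype
  have hpr : ∀ i : P, (i : ℕ).Prime := fun i => i.2.1
  choose cc hcc using fun i : P => i.2.2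
  choose k hk τ Λ δ a b w3 w4 hac hch hcount hgen e1 e2 e3 e4 e5 e6 e7 using
    fun i : P => exists_goodField (i : ℕ) (cc i) (hpr i) (hcc i)
  set F : Ultrafilter P := hyperfilter P with hF
  have hcofin : (F : Filter P) ≤ Filter.cofinite := hyperfilter_le_cofinite
  set J := nullIdeal (F : Filter P) k with hJ
  have hnt : Nontrivial ((∀ i, k i) ⧸ nullIdeal (F : Filter P) k) := by
    refine ⟨⟨1, 0, ?_⟩⟩
    intro h0
    rw [← map_one (Ideal.Quotient.mk _), ← map_zero (Ideal.Quotient.mk _), mk_eq_mk] at h0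
    obtain ⟨i, hi⟩ := h0.exists
    exact one_ne_zero hi
  have hbig : ∀ N : ℕ, ∀ᶠ i : P in (F : Filter P), N < (i : ℕ) := by
    intro N
    have hfin : {i : P | (i : ℕ) ≤ N}.Finite := by
      apply Set.Finite.of_finite_image (f := Subtype.val)
      · exact (Set.finite_Iic N).subset (by rintro _ ⟨i, hi, rfl⟩; exact hi)
      · exact Subtype.val_injective.injOn
    have h2 : ∀ᶠ i : P in (F : Filter P), ¬ (i : ℕ) ≤ N := hcofin hfin.compl_mem_cofinite
    filter_upwards [h2] with i hi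
    omega
  set ts : (∀ i, k i) ⧸ J := Ideal.Quotient.mk J (fun i => τ i ^ (i : ℕ)) with hts
  set ls : (∀ i, k i) ⧸ J := Ideal.Quotient.mk J Λ with hls
  have hcountR : Countable (Polynomial (Polynomial ℤ)) := by
    have : Countable (Polynomial ℤ) := countable_poly ℤ
    exact countable_poly _
  have hfinj : Function.Injective (ev2 t l) := by
    rw [injective_iff_map_eq_zero]
    intro Q h
    by_contra hne
    exact hind Q hne h
  have hginj : Function.Injective (ev2 ts ls) := by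
    rw [injective_iff_map_eq_zero]
    intro Q h
    by_contra hne
    obtain ⟨N, hN⟩ := mod_ne_zero Q hne
    rw [hts, hls, ← ev2_map, Ideal.Quotient.eq_zero_iff_mem, mem_nullIdeal] at h
    obtain ⟨i, hi1, hi2⟩ := (h.and (hbig N)).exists
    have h3 := ev2_map (Pi.evalRingHom k i) (fun i => τ i ^ (i : ℕ)) Λ Q
    have h4 : (Pi.evalRingHom k i) (ev2 (fun i => τ i ^ (i : ℕ)) Λ Q) = 0 := hi1
    rw [h3] at h4
    exact hgen i Q (hN (i : ℕ) hi2) h4
  obtain ⟨φ, hφ⟩ := exists_embed P F hcofin k hcount J (fun a => Iff.rfl) _ (ev2 t l) hfinj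
    (ev2 ts ls) hginj
  have hφt : φ t = ts := by
    have h := hφ (Polynomial.C Polynomial.X)
    simpa [ev2] using h
  have hφl : φ l = ls := by
    have h := hφ Polynomial.X
    simpa [ev2] using h
  choose B hB1 hB2 z3 z4 hz3 hz4 hgood using fun i : P => twoRoot (k i) (τ i) (i : ℕ) (hpr i).pos
  have hG := goodStr F k (fun i => (i : ℕ)) B φ hnt (fun i => (hpr i).pos) hgood
  refine ⟨(∀ i, B i) ⧸ nullIdeal (F : Filter P) B, inferInstance,
    (str F k (fun i => (i : ℕ)) B φ).toAlgebra, hG, ?_⟩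
  let _ : Algebra (A ℂ) ((∀ i, B i) ⧸ nullIdeal (F : Filter P) B) :=
    (str F k (fun i => (i : ℕ)) B φ).toAlgebra
  have hX : ∀ (j : Fin 2), algebraMap (A ℂ) ((∀ i, B i) ⧸ nullIdeal (F : Filter P) B) (X j) =
      Ideal.Quotient.mk _ (fun i => (algebraMap (A (k i)) (B i) (X j)) ^ (i : ℕ)) := by
    intro j
    rw [RingHom.algebraMap_toAlgebra]
    unfold str
    rw [MvPolynomial.coe_eval₂Hom, MvPolynomial.eval₂_X]
    unfold gv
    congr 1
    funext i
    rw [map_pow]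
  have hC : ∀ (s : ℂ), algebraMap (A ℂ) ((∀ i, B i) ⧸ nullIdeal (F : Filter P) B) (C s) =
      kapQ F k B (φ s) := by
    intro s
    rw [RingHom.algebraMap_toAlgebra]
    unfold str
    rw [MvPolynomial.coe_eval₂Hom, MvPolynomial.eval₂_C]
    rfl
  have hCt : algebraMap (A ℂ) ((∀ i, B i) ⧸ nullIdeal (F : Filter P) B) (C t) =
      Ideal.Quotient.mk _ (fun i => algebraMap (A (k i)) (B i) (C (τ i ^ (i : ℕ)))) := by
    rw [hC, hφt, hts]
    rfl
  have hCl : algebraMap (A ℂ) ((∀ i, B i) ⧸ nullIdeal (F : Filter P) B) (C l) =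
      Ideal.Quotient.mk _ (fun i => algebraMap (A (k i)) (B i) (C (Λ i))) := by
    rw [hC, hφl, hls]
    rfl
  have hchB : ∀ i, CharP (B i) (i : ℕ) := fun i => goodCharP (k i) (i : ℕ) (B i) _ _ (hgood i)
  have hz3' : ∀ i, z3 i ^ 6 = (algebraMap (A (k i)) (B i) (X 0)) ^ 6 +
      (algebraMap (A (k i)) (B i) (X 1)) ^ 6 := by
    intro i
    rw [hz3 i, map_add, map_pow, map_pow]
  have hz4' : ∀ i, z4 i ^ 6 = (algebraMap (A (k i)) (B i) (X 0)) ^ 6 +
      algebraMap (A (k i)) (B i) (C (τ i)) * (algebraMap (A (k i)) (B i) (X 1)) ^ 6 := by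
    intro i
    rw [hz4 i, map_add, map_mul, map_pow, map_pow]
  have hmem : ∀ i : P, ∃ c1 c2 c3 c4 : B i,
      ((algebraMap (A (k i)) (B i) (X 0)) ^ (i : ℕ)) ^ 2 *
        ((algebraMap (A (k i)) (B i) (X 1)) ^ (i : ℕ)) ^ 2 =
      c1 * ((algebraMap (A (k i)) (B i) (X 0)) ^ (i : ℕ)) ^ 3 + c3 * z3 i ^ (i : ℕ) +
        c4 * z4 i ^ (i : ℕ) ∧
      0 = c2 * ((algebraMap (A (k i)) (B i) (X 1)) ^ (i : ℕ)) ^ 3 + c3 * z3 i ^ (i : ℕ) +
        algebraMap (A (k i)) (B i) (C (Λ i)) * c4 * z4 i ^ (i : ℕ) := by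
    intro i
    exact good_memb ((algebraMap (A (k i)) (B i)).comp (C : k i →+* A (k i))) (i : ℕ) (cc i)
      (hcc i) (τ i) (Λ i) (δ i) (e1 i) (a i) (b i) (w3 i) (w4 i) (e2 i) (e3 i) (e4 i) (e5 i)
      (e6 i) (e7 i) _ _ (z3 i) (z4 i) (hz3' i) (hz4' i)
  choose c1 c2 c3 c4 hm1 hm2 using hmem
  refine ⟨Ideal.Quotient.mk _ (fun i => z3 i ^ (i : ℕ)), Ideal.Quotient.mk _ (fun i => z4 i ^ (i : ℕ)),
    Ideal.Quotient.mk _ c1, Ideal.Quotient.mk _ c2, Ideal.Quotient.mk _ c3,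
    Ideal.Quotient.mk _ c4, ?_, ?_, ?_, ?_⟩
  · rw [hX, hX, ← map_pow, ← map_pow, ← map_pow, ← map_add]
    congr 1
    funext i
    have := hchB i
    have : Fact ((i : ℕ).Prime) := ⟨hpr i⟩
    show (z3 i ^ (i : ℕ)) ^ 6 = ((algebraMap (A (k i)) (B i) (X 0)) ^ (i : ℕ)) ^ 6 +
      ((algebraMap (A (k i)) (B i) (X 1)) ^ (i : ℕ)) ^ 6
    rw [← pow_mul, mul_comm, pow_mul, hz3' i, add_pow_char, ← pow_mul, ← pow_mul, ← pow_mul,
      ← pow_mul, mul_comm 6]
  · rw [hX, hX, hCt, ← map_pow, ← map_pow, ← map_pow, ← map_mul, ← map_add]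
    congr 1
    funext i
    have := hchB i
    have : Fact ((i : ℕ).Prime) := ⟨hpr i⟩
    show (z4 i ^ (i : ℕ)) ^ 6 = ((algebraMap (A (k i)) (B i) (X 0)) ^ (i : ℕ)) ^ 6 +
      algebraMap (A (k i)) (B i) (C (τ i ^ (i : ℕ))) *
      ((algebraMap (A (k i)) (B i) (X 1)) ^ (i : ℕ)) ^ 6
    rw [← pow_mul, mul_comm, pow_mul, hz4' i, add_pow_char, mul_pow, ← pow_mul, ← pow_mul,
      ← pow_mul, ← pow_mul, mul_comm 6, map_pow C, map_pow]
  · rw [hX, hX, ← map_pow, ← map_pow, ← map_pow, ← map_mul, ← map_mul, ← map_mul, ← map_mul,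
      ← map_add, ← map_add]
    congr 1
    funext i
    exact hm1 i
  · rw [hX, hCl, ← map_pow, ← map_mul, ← map_mul, ← map_mul, ← map_mul,
      ← map_add, ← map_add, ← map_zero (Ideal.Quotient.mk _)]
    congr 1
    funext i
    exact hm2 i

end Pool.Agent.Helper46.BC
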