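import Pool.Agent.Helper46.BC.Sol

/-!
# A countable algebraically closed field with generic parameters
-/

set_option autoImplicit false

open Polynomial Cardinal

namespace Pool.Agent.Helper46.BC

/-- the value of an integral polynomial in two variables -/
noncomputable def ev2 {K : Type*} [CommRing K] (t l : K) : ℤ[X][X] →+* K :=
  eval₂RingHom (aeval (R := ℤ) t).toRingHom l

lemma countable_frac (R : Type) [CommRing R] [Countable R] : Countable (FractionRing R) := by
  rw [← Cardinal.mk_le_aleph0_iff]
  exact (IsLocalization.cardinalMk_le (nonZeroDivisors R)).trans Cardinal.mk_le_aleph0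

lemma countable_poly (R : Type) [CommRing R] [Countable R] : Countable R[X] := by
  rw [← Cardinal.mk_le_aleph0_iff]
  exact Polynomial.cardinalMk_le_max.trans (max_le Cardinal.mk_le_aleph0 le_rfl)

lemma countable_algClosure (K : Type) [Field K] [Countable K] :
    Countable (AlgebraicClosure K) := by
  rw [← Cardinal.mk_le_aleph0_iff]
  exact (Algebra.IsAlgebraic.cardinalMk_le_max K (AlgebraicClosure K)).trans
    (max_le Cardinal.mk_le_aleph0 le_rfl)

theorem exists_goodField (p c : ℕ) (hp : p.Prime) (hpc : p = 6 * c + 5) :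
    ∃ (k : Type) (_ : Field k) (τ Λ δ : k) (a b w3 w4 : k[X]), IsAlgClosed k ∧ CharP k p ∧
      Countable k ∧
      (∀ Q : ℤ[X][X], Q.map (mapRingHom (Int.castRingHom (ZMod p))) ≠ 0 →
        ev2 (τ ^ p) Λ Q ≠ 0) ∧
      δ * (Λ - 1) = 1 ∧ a.natDegree ≤ c ∧ b.natDegree ≤ c ∧
      w3.natDegree ≤ 3 * c + 1 ∧ w4.natDegree ≤ 3 * c + 1 ∧
      a + C (Λ * δ) * X ^ (2 * c + 1) + C Λ * (X ^ (3 * c + 2) * b) = (X + 1) ^ (c + 1) * w3 ∧
      a + C δ * X ^ (2 * c + 1) + X ^ (3 * c + 2) * b = (X + C τ) ^ (c + 1) * w4 := by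
  have : Fact p.Prime := ⟨hp⟩
  have : NeZero p := ⟨hp.ne_zero⟩
  let L := FractionRing (ZMod p)[X]
  let M := FractionRing L[X]
  let k := AlgebraicClosure M
  have : CharP L p := charP_of_injective_algebraMap
    (IsFractionRing.injective (ZMod p)[X] L) p
  let τ0 : L := algebraMap (ZMod p)[X] L X
  let Λ : k := algebraMap L[X] k X
  have hinjk : Function.Injective (algebraMap L[X] k) := by
    rw [IsScalarTower.algebraMap_eq L[X] M k]
    exact (algebraMap M k).injective.comp (IsFractionRing.injective L[X] M)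
  have hΛ : Transcendental L Λ := (transcendental_algebraMap_iff hinjk).2 (transcendental_X L)
  have hτ : Transcendental (ZMod p) τ0 :=
    (transcendental_algebraMap_iff (IsFractionRing.injective (ZMod p)[X] L)).2
      (transcendental_X (ZMod p))
  have hτ0 : τ0 ≠ 0 := by
    intro h
    apply hτ
    rw [h]
    exact isAlgebraic_zero
  obtain ⟨δ, a, b, w3, w4, h1, h2, h3, h4, h5, h6, h7⟩ :=
    exists_sol (L := L) (k := k) p hp c hpc τ0 hτ0 Λ hΛ
  have : Countable (ZMod p)[X] := countable_poly (ZMod p)
  have : Countable L := countable_frac (ZMod p)[X]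
  have : Countable L[X] := countable_poly L
  have : Countable M := countable_frac L[X]
  refine ⟨k, inferInstance, algebraMap L k τ0, Λ, δ, a, b, w3, w4, inferInstance, ?_,
    countable_algClosure M, ?_, h1, h2, h3, h4, h5, h6, h7⟩
  · exact charP_of_injective_algebraMap (algebraMap L k).injective p
  · intro Q hQ
    have hτp : Transcendental (ZMod p) (τ0 ^ p) := hτ.pow hp.pos
    let φ : (ZMod p)[X] →+* L := (aeval (R := ZMod p) (τ0 ^ p)).toRingHom
    have hφ : Function.Injective φ := transcendental_iff_injective.1 hτp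
    have hQ2 : (Q.map (mapRingHom (Int.castRingHom (ZMod p)))).map φ ≠ 0 := by
      rw [Ne, Polynomial.map_eq_zero_iff hφ]
      exact hQ
    have hQ3 : aeval Λ ((Q.map (mapRingHom (Int.castRingHom (ZMod p)))).map φ) ≠ 0 := fun h =>
      hQ2 ((transcendental_iff.1 hΛ) _ h)
    have hQ4 : ev2 ((algebraMap L k τ0) ^ p) Λ Q =
        aeval Λ ((Q.map (mapRingHom (Int.castRingHom (ZMod p)))).map φ) := by
      unfold ev2
      rw [coe_eval₂RingHom, aeval_def, eval₂_map, eval₂_map]
      congr 1
      apply Polynomial.ringHom_ext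
      · intro x
        simp
      · simp [φ]
    rw [hQ4]
    exact hQ3

end Pool.Agent.Helper46.BC
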