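import Pool.Agent.Helper46.BC.Spec
import Pool.Agent.Helper46.BC.Cases

/-!
# Homogenization of the bad data
-/

set_option autoImplicit false

open Polynomial

namespace Pool.Agent.Helper46.BC

section

variable {k B : Type*} [CommRing k] [CommRing B] (ι : k →+* B) (x y : B)

/-- homogenization in degree `d`, evaluated at `(x, y)` -/
noncomputable def hh (d : ℕ) (f : k[X]) : B :=
  MvPolynomial.eval₂Hom ι (fun i : Fin 2 => if i = 0 then x else y) (f.homogenize d)

lemma hh_add (d : ℕ) (f g : k[X]) : hh ι x y d (f + g) = hh ι x y d f + hh ι x y d g := by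
  unfold hh; rw [homogenize_add, map_add]

lemma hh_sub (d : ℕ) (f g : k[X]) : hh ι x y d (f - g) = hh ι x y d f - hh ι x y d g := by
  unfold hh; rw [homogenize_sub, map_sub]

lemma hh_C (d : ℕ) (c : k) : hh ι x y d (C c) = ι c * y ^ d := by
  unfold hh; rw [homogenize_C, map_mul, map_pow]; simp

lemma hh_one (d : ℕ) : hh ι x y d 1 = y ^ d := by
  rw [← C_1, hh_C, map_one, one_mul]

lemma hh_C_mul (d : ℕ) (c : k) (f : k[X]) : hh ι x y d (C c * f) = ι c * hh ι x y d f := by
  unfold hh; rw [homogenize_C_mul, map_mul]; simp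

lemma hh_mul {d e : ℕ} {f g : k[X]} (hf : f.natDegree ≤ d) (hg : g.natDegree ≤ e) :
    hh ι x y (d + e) (f * g) = hh ι x y d f * hh ι x y e g := by
  unfold hh; rw [homogenize_mul _ _ hf hg, map_mul]

lemma hh_up {d : ℕ} (e : ℕ) {f : k[X]} (hf : f.natDegree ≤ d) :
    hh ι x y (e + d) f = y ^ e * hh ι x y d f := by
  have h := hh_mul ι x y (d := e) (f := 1) (by rw [natDegree_one]; omega) hf
  rw [one_mul, hh_one] at h
  exact h

lemma hh_X_pow (m : ℕ) {e : ℕ} {f : k[X]} (hf : f.natDegree ≤ e) :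
    hh ι x y (m + e) (X ^ m * f) = x ^ m * hh ι x y e f := by
  rw [hh_mul ι x y (natDegree_X_pow_le m) hf]
  congr 1
  unfold hh
  rw [homogenize_X_pow le_rfl, map_mul, map_pow, map_pow]
  simp

lemma hh_lin (t : k) : hh ι x y 1 (X + C t) = x + ι t * y := by
  rw [hh_add, hh_C, pow_one]
  congr 1
  have := hh_X_pow ι x y 1 (e := 0) (f := 1) (by simp)
  rw [hh_one] at this
  simpa using this

lemma natDegree_X_add_C_le (t : k) : (X + C t : k[X]).natDegree ≤ 1 := by
  refine (natDegree_add_le _ _).trans (max_le natDegree_X_le ?_)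
  rw [natDegree_C]; omega

lemma hh_lin_pow (t : k) (n : ℕ) : hh ι x y n ((X + C t) ^ n) = (x + ι t * y) ^ n := by
  induction n with
  | zero => simp [hh_one]
  | succ n ih =>
    have hd1 : ((X + C t : k[X]) ^ n).natDegree ≤ n := by
      refine natDegree_pow_le.trans ?_
      have : (X + C t : k[X]).natDegree ≤ 1 := natDegree_X_add_C_le t
      nlinarith
    rw [pow_succ, hh_mul ι x y hd1 (natDegree_X_add_C_le t), ih, hh_lin, pow_succ]

lemma natDegree_lin_pow (t : k) (n : ℕ) : ((X + C t : k[X]) ^ n).natDegree ≤ n := by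
  refine natDegree_pow_le.trans ?_
  have : (X + C t : k[X]).natDegree ≤ 1 := natDegree_X_add_C_le t
  nlinarith

/-- consequences of the bad data -/
lemma bad_hom {p c A j : ℕ} {t l ti ν ρ ρi π πi : k} {a b s3 s4 q r : k[X]}
    (h : BadR k p c A j t l ti ν ρ ρi π πi a b s3 s4 q r) (hA : 1 ≤ A)
    (hcj : c + j + 1 ≤ A) (hj : 1 ≤ j) (hj2 : j + 2 ≤ A) :
    ∃ a' b' S3 S4 q' r' p1 p2 : B,
      y ^ A * a' - x ^ A * b' = (x + y) ^ (c + 1) * S3 ∧
      y ^ A * a' - ι ν * x ^ A * b' = (x + ι t * y) ^ (c + 1) * S4 ∧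
      S3 = (x + ι t * y) ^ (c + 1) * y ^ (A - 1 - c - j) * q' + ι ρ * x ^ j * y ^ (A - 1 - j) +
        x ^ (j + 1) * r' ∧
      (x + y) ^ (c + 1) * (x + ι t * y) ^ (c + 1) = y ^ (c + 2) * p1 +
        ι π * x ^ (c + 1) * y ^ (c + 1) + x ^ (c + 2) * p2 := by
  have hs0 : (x + y) ^ (c + 1) = hh ι x y (c + 1) ((X + 1) ^ (c + 1)) := by
    have := hh_lin_pow ι x y 1 (c + 1)
    rw [C_1, map_one, one_mul] at this
    exact this.symm
  have hd1 : ((X + 1 : k[X]) ^ (c + 1)).natDegree ≤ c + 1 := by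
    have := natDegree_lin_pow (1 : k) (c + 1)
    rwa [C_1] at this
  set f : k[X] := ((X + 1) * (X + C t)) ^ (c + 1) with hf
  have hfd : f.natDegree ≤ 2 * c + 2 := by
    rw [hf, mul_pow]
    refine natDegree_mul_le.trans ?_
    have := natDegree_lin_pow t (c + 1)
    omega
  -- decomposition of `f`
  set f2 := f /ₘ (X ^ (c + 2)) with hf2
  set f1 := f %ₘ (X ^ (c + 2)) with hf1
  have hf12 : f1 + X ^ (c + 2) * f2 = f := modByMonic_add_div f _
  rcases subsingleton_or_nontrivial k with hk | hk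
  · have : Subsingleton B := by
      have h1 : (1 : B) = 0 := by
        rw [← map_one ι, Subsingleton.elim (1 : k) 0, map_zero]
      exact ⟨fun u v => by rw [← one_mul u, ← one_mul v, h1, zero_mul, zero_mul]⟩
    exact ⟨0, 0, 0, 0, 0, 0, 0, 0, Subsingleton.elim _ _, Subsingleton.elim _ _,
      Subsingleton.elim _ _, Subsingleton.elim _ _⟩
  have hXm : (X ^ (c + 2) : k[X]).Monic := monic_X_pow _
  have hf1d : f1.degree < ((c + 2 : ℕ) : WithBot ℕ) := by
    have := degree_modByMonic_lt f hXm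
    rwa [degree_X_pow] at this
  have hf1c : f1.coeff (c + 1) = π := by
    have h2 := congrArg (fun f => f.coeff (c + 1)) hf12
    simp only [coeff_add] at h2
    rw [coeff_X_pow_mul', if_neg (by omega), add_zero] at h2
    rw [h2, hf]; exact h.e4
  set f0 := f1 - C π * X ^ (c + 1) with hf0
  have hf0d : f0.natDegree ≤ c := by
    rw [natDegree_le_iff_coeff_eq_zero]
    intro m hm
    rw [degree_lt_iff_coeff_zero] at hf1d
    rw [hf0, coeff_sub, coeff_C_mul, coeff_X_pow]
    rcases Nat.eq_or_lt_of_le (Nat.succ_le_of_lt hm) with h | h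
    · rw [← h, hf1c]; simp
    · rw [hf1d m (by omega), if_neg (by omega)]; simp
  have hf2d : f2.natDegree ≤ c := by
    rw [hf2, natDegree_divByMonic _ hXm, natDegree_X_pow]
    omega
  have hfe : f = f0 + C π * X ^ (c + 1) + X ^ (c + 2) * f2 := by
    rw [hf0]; linear_combination -hf12
  refine ⟨hh ι x y c a, hh ι x y c b, hh ι x y (A - 1) s3, hh ι x y (A - 1) s4,
    hh ι x y (j - 1) q, hh ι x y (A - 1 - (j + 1)) r, hh ι x y c f0, hh ι x y c f2, ?_, ?_, ?_, ?_⟩
  · have h1 := congrArg (hh ι x y (A + c)) h.e1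
    rw [hh_sub, hh_up ι x y A h.ha, hh_X_pow ι x y A h.hb] at h1
    rw [h1, hs0, ← hh_mul ι x y hd1 h.h3]
    congr 1
    omega
  · have h1 := congrArg (hh ι x y (A + c)) h.e2
    rw [hh_sub, hh_up ι x y A h.ha, mul_assoc, hh_C_mul, hh_X_pow ι x y A h.hb, ← mul_assoc] at h1
    rw [h1, ← hh_lin_pow, ← hh_mul ι x y (natDegree_lin_pow t _) h.h4]
    congr 1
    omega
  · have h1 := congrArg (hh ι x y (A - 1)) h.e3
    rw [hh_add, hh_add, hh_C_mul] at h1
    have e1 : hh ι x y (A - 1) ((X + C t) ^ (c + 1) * q) =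
        (x + ι t * y) ^ (c + 1) * y ^ (A - 1 - c - j) * hh ι x y (j - 1) q := by
      rw [← hh_lin_pow, mul_assoc, ← hh_up ι x y (A - 1 - c - j) h.hq,
        ← hh_mul ι x y (natDegree_lin_pow t _) (h.hq.trans (by omega))]
      congr 1
      omega
    have e2 : hh ι x y (A - 1) (X ^ j) = x ^ j * y ^ (A - 1 - j) := by
      have h2 := hh_X_pow ι x y j (e := A - 1 - j) (f := 1) (by simp)
      rw [mul_one, hh_one] at h2
      rw [← h2]
      congr 1
      omega
    have e3 : hh ι x y (A - 1) (X ^ (j + 1) * r) =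
        x ^ (j + 1) * hh ι x y (A - 1 - (j + 1)) r := by
      rw [← hh_X_pow ι x y (j + 1) h.hr]
      congr 1
      omega
    rw [e1, e2, e3] at h1
    rw [h1]; ring
  · have h1 := congrArg (hh ι x y (c + 2 + c)) hfe
    rw [hh_add, hh_add, hh_up ι x y (c + 2) hf0d, hh_C_mul, hh_X_pow ι x y (c + 2) hf2d] at h1
    have e1 : hh ι x y (c + 2 + c) f = (x + y) ^ (c + 1) * (x + ι t * y) ^ (c + 1) := by
      rw [hs0, ← hh_lin_pow, ← hh_mul ι x y hd1 (natDegree_lin_pow t _), hf, mul_pow]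
      congr 1
      omega
    have e2 : hh ι x y (c + 2 + c) (X ^ (c + 1)) = x ^ (c + 1) * y ^ (c + 1) := by
      have h2 := hh_X_pow ι x y (c + 1) (e := c + 1) (f := 1) (by simp)
      rw [mul_one, hh_one] at h2
      rw [← h2]
      congr 1
      omega
    rw [← e1, h1, e2]
    ring

end

end Pool.Agent.Helper46.BC
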