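import Mathlib

/-!
# The matrix of multiplication by `x^(-A)` modulo `(x+1)^(n+1)`
-/

set_option autoImplicit false

open Polynomial

namespace Pool.Agent.Helper46.BC

/-- the polynomial with coefficient vector `v` -/
noncomputable def P {R : Type*} [CommRing R] {n : ℕ} (v : Fin (n + 1) → R) : R[X] :=
  ∑ i, C (v i) * X ^ (i : ℕ)

section

variable {k : Type*} [Field k]

lemma key1 (p : ℕ) [CharP k p] (hp : p.Prime) (n M : ℕ) (hnM : n ≤ M) (hM : M < p) (r : k[X])
    (hr : r.degree < n) (h : (X + 1 : k[X]) ^ (n + 1) ∣ X ^ M - r) : False := by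
  have h1 := pow_sub_dvd_iterate_derivative_of_pow_dvd n h
  rw [show n + 1 - n = 1 by omega, pow_one, iterate_derivative_sub,
    iterate_derivative_X_pow_eq_C_mul, iterate_derivative_eq_zero_of_degree_lt hr, sub_zero] at h1
  have h2 : (C (Nat.descFactorial M n : k) * X ^ (M - n) : k[X]).eval (-1) = 0 := by
    obtain ⟨g, hg⟩ := h1
    rw [hg]; simp
  rw [eval_mul, eval_C, eval_pow, eval_X] at h2
  have h3 : ((-1 : k)) ^ (M - n) ≠ 0 := pow_ne_zero _ (by simp)
  have h4 : (Nat.descFactorial M n : k) = 0 := by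
    rcases mul_eq_zero.1 h2 with h | h
    · exact h
    · exact absurd h h3
  rw [CharP.cast_eq_zero_iff k p] at h4
  have h5 : Nat.descFactorial M n ∣ Nat.factorial M := by
    rw [← Nat.factorial_mul_descFactorial hnM]
    exact Dvd.intro_left _ rfl
  have h6 := (Nat.Prime.dvd_factorial hp).1 (h4.trans h5)
  omega

lemma cop (a b : ℕ) : IsCoprime ((X : k[X]) ^ a) ((X + 1 : k[X]) ^ b) := by
  apply IsCoprime.pow
  exact ⟨-1, 1, by ring⟩

lemma key2 (p : ℕ) [CharP k p] (n A : ℕ) (hA : 1 ≤ A) (hM : A + n ≤ p) (r : k[X])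
    (hr : r.degree < n) (h : (X + 1 : k[X]) ^ (n + 1) ∣ X ^ A * r - 1) : False := by
  obtain ⟨w, hw⟩ := h
  have hq : (X + 1 : k[X]) ^ (n + 1) ≠ 0 := pow_ne_zero _ (X_add_C_ne_zero 1)
  have hqd : ((X + 1 : k[X]) ^ (n + 1)).natDegree = n + 1 := by
    rw [natDegree_pow]
    have : (X + 1 : k[X]).natDegree = 1 := natDegree_X_add_C 1
    rw [this, mul_one]
  have hw0 : w ≠ 0 := by
    rintro rfl
    rw [mul_zero, sub_eq_zero] at hw
    have := congrArg (eval 0) hw
    rw [eval_mul, eval_pow, eval_X, zero_pow (by omega), zero_mul, eval_one] at this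
    exact zero_ne_one this
  have hdeg : w.natDegree + (n + 1) = (X ^ A * r - 1).natDegree := by
    rw [hw, natDegree_mul hq hw0, hqd, add_comm]
  have hr0 : r ≠ 0 := by
    rintro rfl
    rw [mul_zero, zero_sub, natDegree_neg, natDegree_one] at hdeg
    omega
  have hrn : r.natDegree < n := (natDegree_lt_iff_degree_lt hr0).2 hr
  have hdeg2 : (X ^ A * r - 1).natDegree ≤ A + (n - 1) := by
    refine (natDegree_sub_le _ _).trans ?_
    rw [natDegree_one, natDegree_X_pow_mul _ hr0]
    omega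
  obtain ⟨A', rfl⟩ : ∃ A', A = A' + 1 := ⟨A - 1, by omega⟩
  have hder : X ^ A' * (((A' + 1 : ℕ) : k[X]) * r + X * derivative r) =
      (X + 1) ^ n * (((n + 1 : ℕ) : k[X]) * w + (X + 1) * derivative w) := by
    have h1 := congrArg derivative hw
    rw [derivative_sub, derivative_one, sub_zero, derivative_mul, derivative_mul,
      derivative_X_pow, derivative_pow] at h1
    simp only [derivative_add, derivative_X, derivative_one, add_zero, mul_one,
      Nat.add_sub_cancel, map_natCast] at h1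
    linear_combination h1
  have hdvd : (X : k[X]) ^ A' ∣ ((n + 1 : ℕ) : k[X]) * w + (X + 1) * derivative w := by
    apply (cop (k := k) A' n).dvd_of_dvd_mul_left
    exact ⟨_, hder.symm⟩
  have hz : ((n + 1 : ℕ) : k[X]) * w + (X + 1) * derivative w = 0 := by
    by_contra hne
    have h2 := natDegree_le_of_dvd hdvd hne
    rw [natDegree_X_pow] at h2
    have h3 : (((n + 1 : ℕ) : k[X]) * w + (X + 1) * derivative w).natDegree ≤ w.natDegree := by
      refine (natDegree_add_le _ _).trans (max_le ?_ ?_)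
      · refine natDegree_mul_le.trans ?_
        rw [natDegree_natCast]; omega
      · rcases Nat.eq_zero_or_pos w.natDegree with h0 | h0
        · rw [derivative_of_natDegree_zero h0]; simp
        · refine natDegree_mul_le.trans ?_
          have e1 : (X + 1 : k[X]).natDegree = 1 := natDegree_X_add_C 1
          have e2 := natDegree_derivative_lt (p := w) (by omega)
          omega
    omega
  have hc := congrArg (fun f => f.coeff w.natDegree) hz
  simp only [coeff_add, coeff_zero, add_mul, one_mul] at hc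
  rw [← C_eq_natCast, coeff_C_mul, coeff_derivative, coeff_eq_zero_of_natDegree_lt
    (Nat.lt_succ_self w.natDegree), zero_mul, add_zero] at hc
  have hx : (X * derivative w).coeff w.natDegree = w.natDegree * w.coeff w.natDegree := by
    rcases Nat.eq_zero_or_pos w.natDegree with h0 | h0
    · rw [h0]; simp
    · obtain ⟨d, hd⟩ : ∃ d, w.natDegree = d + 1 := ⟨w.natDegree - 1, by omega⟩
      rw [hd, coeff_X_mul, coeff_derivative]; push_cast; ring
  rw [hx] at hc
  have hlc : w.coeff w.natDegree ≠ 0 := by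
    rw [coeff_natDegree, Ne, leadingCoeff_eq_zero]; exact hw0
  have h7 : (((n + 1 + w.natDegree : ℕ)) : k) = 0 := by
    apply mul_right_cancel₀ hlc
    push_cast at hc ⊢
    linear_combination hc
  rw [CharP.cast_eq_zero_iff k p] at h7
  have := Nat.le_of_dvd (by omega) h7
  omega

lemma P_coeff {R : Type*} [CommRing R] {n : ℕ} (v : Fin (n + 1) → R) (i : Fin (n + 1)) :
    (P v).coeff (i : ℕ) = v i := by
  unfold P
  rw [finset_sum_coeff, Finset.sum_eq_single i]
  · simp
  · intro j _ hj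
    rw [coeff_C_mul, coeff_X_pow, if_neg, mul_zero]
    intro h
    exact hj (Fin.ext h.symm)
  · intro h; exact absurd (Finset.mem_univ i) h

lemma P_degree {R : Type*} [CommRing R] {n : ℕ} (v : Fin (n + 1) → R) :
    (P v).degree < ((n + 1 : ℕ) : WithBot ℕ) := by
  unfold P
  refine (degree_sum_le _ _).trans_lt ?_
  rw [Finset.sup_lt_iff (WithBot.bot_lt_coe _)]
  intro i _
  refine (degree_C_mul_X_pow_le _ _).trans_lt ?_
  exact_mod_cast i.2

lemma P_natDegree {R : Type*} [CommRing R] {n : ℕ} (v : Fin (n + 1) → R) :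
    (P v).natDegree ≤ n := by
  unfold P
  refine natDegree_sum_le_of_forall_le _ _ (fun i _ => ?_)
  refine (natDegree_C_mul_X_pow_le _ _).trans ?_
  have := i.2
  omega

lemma P_of_degree {R : Type*} [CommRing R] {n : ℕ} (f : R[X])
    (hf : f.degree < ((n + 1 : ℕ) : WithBot ℕ)) : P (fun i : Fin (n + 1) => f.coeff i) = f := by
  unfold P
  have h := f.as_sum_range' (n + 1) (by
    rcases eq_or_ne f 0 with rfl | h0
    · simp
    · exact (natDegree_lt_iff_degree_lt h0).2 hf)
  conv_rhs => rw [h]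
  rw [Finset.sum_range]
  refine Finset.sum_congr rfl (fun i _ => ?_)
  rw [C_mul_X_pow_eq_monomial]

lemma P_linear {R : Type*} [CommRing R] {n : ℕ} (K : Matrix (Fin (n + 1)) (Fin (n + 1)) R)
    (v : Fin (n + 1) → R) : P (K.mulVec v) = ∑ j, C (v j) * P (fun i => K i j) := by
  unfold P Matrix.mulVec dotProduct
  simp only [map_sum, map_mul, Finset.sum_mul, Finset.mul_sum]
  rw [Finset.sum_comm]
  refine Finset.sum_congr rfl (fun j _ => Finset.sum_congr rfl (fun i _ => ?_))
  ring

theorem exists_K (p : ℕ) [CharP k p] (hp : p.Prime) (n A : ℕ) (hA : 1 ≤ A) (hN : A + n ≤ p) :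
    ∃ K K' : Matrix (Fin (n + 1)) (Fin (n + 1)) k, K * K' = 1 ∧
      (∀ j : Fin (n + 1), (X + 1 : k[X]) ^ (n + 1) ∣ X ^ (j : ℕ) - X ^ A * P (fun i => K i j)) ∧
      K (Fin.last n) 0 ≠ 0 ∧ K' 0 (Fin.last n) ≠ 0 := by
  set q : k[X] := (X + 1) ^ (n + 1) with hq
  have hqm : q.Monic := (monic_X_add_C 1).pow _
  have hqd : q.degree = ((n + 1 : ℕ) : WithBot ℕ) := by
    rw [hq, degree_pow]
    have : (X + 1 : k[X]).degree = 1 := degree_X_add_C 1
    rw [this]; simp
  obtain ⟨g, g', hg⟩ := cop (k := k) A (n + 1)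
  have hg1 : q ∣ X ^ A * g - 1 := ⟨-g', by rw [← hg]; ring⟩
  have hdeg : ∀ f : k[X], (f %ₘ q).degree < ((n + 1 : ℕ) : WithBot ℕ) := by
    intro f; rw [← hqd]; exact degree_modByMonic_lt f hqm
  have hmod : ∀ f : k[X], q ∣ f - f %ₘ q := by
    intro f
    refine ⟨f /ₘ q, ?_⟩
    have := modByMonic_add_div f q
    linear_combination -this
  let K : Matrix (Fin (n + 1)) (Fin (n + 1)) k := fun i j => ((g * X ^ (j : ℕ)) %ₘ q).coeff i
  let K' : Matrix (Fin (n + 1)) (Fin (n + 1)) k := fun i j => ((X ^ A * X ^ (j : ℕ)) %ₘ q).coeff i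
  have hPK : ∀ j, P (fun i => K i j) = (g * X ^ (j : ℕ)) %ₘ q := fun j => P_of_degree _ (hdeg _)
  have hPK' : ∀ j, P (fun i => K' i j) = (X ^ A * X ^ (j : ℕ)) %ₘ q :=
    fun j => P_of_degree _ (hdeg _)
  have hK1 : ∀ j : Fin (n + 1), q ∣ X ^ (j : ℕ) - X ^ A * P (fun i => K i j) := by
    intro j
    rw [hPK]
    have h1 := hmod (g * X ^ (j : ℕ))
    have e : X ^ (j : ℕ) - X ^ A * ((g * X ^ (j : ℕ)) %ₘ q) =
        X ^ A * (g * X ^ (j : ℕ) - (g * X ^ (j : ℕ)) %ₘ q) - X ^ (j : ℕ) * (X ^ A * g - 1) := by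
      ring
    rw [e]
    exact dvd_sub (h1.mul_left _) (hg1.mul_left _)
  have hK2 : ∀ v : Fin (n + 1) → k, q ∣ P v - X ^ A * P (K.mulVec v) := by
    intro v
    rw [P_linear, Finset.mul_sum]
    unfold P
    rw [← Finset.sum_sub_distrib]
    refine Finset.dvd_sum (fun j _ => ?_)
    have h1 := (hK1 j).mul_left (C (v j))
    unfold P at h1
    convert h1 using 1
    ring
  have eqmod : ∀ f f' : k[X], f.degree < ((n + 1 : ℕ) : WithBot ℕ) →
      f'.degree < ((n + 1 : ℕ) : WithBot ℕ) → q ∣ f - f' → f = f' := by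
    intro f f' hf hf' hd
    rw [← sub_eq_zero]
    exact eq_zero_of_dvd_of_degree_lt hd (by
      rw [hqd]; exact (degree_sub_le _ _).trans_lt (max_lt hf hf'))
  refine ⟨K, K', ?_, hK1, ?_, ?_⟩
  · ext i j
    have h1 := hK2 (fun l => K' l j)
    rw [hPK'] at h1
    have h2 := hmod (X ^ A * X ^ (j : ℕ))
    have h3 : q ∣ X ^ A * (X ^ (j : ℕ) - P (K.mulVec (fun l => K' l j))) := by
      have := dvd_add h1 h2
      convert this using 1
      ring
    have h4 : q ∣ X ^ (j : ℕ) - P (K.mulVec (fun l => K' l j)) :=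
      ((cop (k := k) A (n + 1)).symm).dvd_of_dvd_mul_left h3
    have h5 := eqmod _ _ (by rw [degree_X_pow]; exact_mod_cast j.2) (P_degree _) h4
    have h6 := congrArg (fun f => f.coeff (i : ℕ)) h5
    simp only [P_coeff, coeff_X_pow] at h6
    rw [Matrix.mul_apply', Matrix.one_apply]
    have h7 : K.mulVec (fun l => K' l j) i = (fun j' => K i j') ⬝ᵥ fun l => K' l j := rfl
    rw [← h7, ← h6]
    by_cases hij : i = j
    · subst hij; simp
    · rw [if_neg hij, if_neg (fun h => hij (Fin.ext h))]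
  · intro h0
    have h1 : ((g * X ^ ((0 : Fin (n + 1)) : ℕ)) %ₘ q).coeff n = 0 := h0
    have h2 := hK1 0
    rw [hPK] at h2
    set r := (g * X ^ ((0 : Fin (n + 1)) : ℕ)) %ₘ q with hr
    have h3 : r.degree < n := by
      have h4 := hdeg (g * X ^ ((0 : Fin (n + 1)) : ℕ))
      rw [← hr] at h4
      rw [degree_lt_iff_coeff_zero] at h4 ⊢
      intro m hm
      rcases Nat.eq_or_lt_of_le hm with h | h
      · rw [← h]; exact h1
      · exact h4 m (by omega)
    refine key2 p n A hA hN r h3 ?_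
    have h5 : X ^ A * r - 1 = -(X ^ (((0 : Fin (n + 1)) : ℕ)) - X ^ A * r) := by
      simp
    rw [h5]
    exact (dvd_neg).2 h2
  · intro h0
    have h1 : ((X ^ A * X ^ ((Fin.last n : Fin (n + 1)) : ℕ)) %ₘ q).coeff 0 = 0 := h0
    rw [Fin.val_last, ← pow_add] at h1
    set r := (X ^ (A + n)) %ₘ q with hr
    obtain ⟨w, hw⟩ := hmod (X ^ (A + n))
    rw [← hr] at hw
    obtain ⟨r', hr'⟩ := X_dvd_iff.2 h1
    have hwX : X ∣ w := by
      rw [X_dvd_iff]
      have h3 := congrArg (fun f => f.coeff 0) hw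
      simp only [coeff_sub, coeff_X_pow, mul_coeff_zero] at h3
      rw [h1, if_neg (by omega)] at h3
      have h4 : q.coeff 0 = 1 := by
        rw [coeff_zero_eq_eval_zero, hq]; simp
      rw [h4, one_mul, sub_zero] at h3
      exact h3.symm
    obtain ⟨w', hw'⟩ := hwX
    have h5 : X ^ (A + n - 1) - r' = q * w' := by
      apply mul_left_cancel₀ (X_ne_zero (R := k))
      have e1 : (X : k[X]) * X ^ (A + n - 1) = X ^ (A + n) := by
        rw [← pow_succ']; congr 1; omega
      rw [hr', hw'] at hw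
      linear_combination e1 + hw
    refine key1 (k := k) p hp n (A + n - 1) (by omega) (by omega) r' ?_ ⟨w', h5⟩
    have h6 := hdeg (X ^ (A + n))
    rw [← hr, hr'] at h6
    rw [degree_lt_iff_coeff_zero] at h6 ⊢
    intro m hm
    have := h6 (m + 1) (by omega)
    rwa [coeff_X_mul] at this

end

end Pool.Agent.Helper46.BC
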