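import Pool.Agent.Helper46.BC.Hom

/-!
# The obstruction in characteristic `p`
-/

set_option autoImplicit false

open Polynomial

namespace Pool.Agent.Helper46.BC

/-- the parameters `(t, l)` carry the data of an obstruction in characteristic `p`. -/
def BadPair (k : Type*) [Field k] (p : ℕ) (t l : k) : Prop :=
  (∃ m, 1 ≤ m ∧ p = 6 * m + 1 ∧ ∃ (ti ν ρ ρi π πi : k) (a b s3 s4 q r : k[X]),
      BadR k p (m - 1) (3 * m + 1) m t l ti ν ρ ρi π πi a b s3 s4 q r) ∨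
  (∃ n, 1 ≤ n ∧ p = 6 * n + 5 ∧ ∃ (ti ν ρ ρi π πi : k) (a b s3 s4 q r : k[X]),
      BadR k p n (3 * n + 2) n t l ti ν ρ ρi π πi a b s3 s4 q r)

theorem bad_contra {k B : Type*} [Field k] [CommRing B] (p : ℕ) (hp : p.Prime) [CharP k p]
    (t l : k) (hbad : BadPair k p t l) (ι : k →+* B) (x y : B) (hreg : Reg2 x y)
    (z3 z4 c1 c2 c3 c4 : B)
    (h3 : z3 ^ 6 = x ^ 6 + y ^ 6) (h4 : z4 ^ 6 = x ^ 6 + ι t * y ^ 6)
    (e1 : x ^ 2 * y ^ 2 = c1 * x ^ 3 + c3 * z3 + c4 * z4)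
    (e2 : 0 = c2 * y ^ 3 + c3 * z3 + ι l * c4 * z4) : False := by
  have hnt : Nontrivial B := by
    refine ⟨⟨1, 0, fun h => hreg.one ⟨0, 0, ?_⟩⟩⟩
    rw [h]; simp
  have : CharP B p := charP_of_injective_ringHom ι.injective p
  rcases hbad with ⟨m, hm, hpm, ti, ν, ρ, ρi, π, πi, a, b, s3, s4, q, r, H⟩ |
    ⟨n, hn, hpn, ti, ν, ρ, ρi, π, πi, a, b, s3, s4, q, r, H⟩
  · obtain ⟨a', b', S3, S4, q', r', p1, p2, d1, d2, d3, -⟩ :=
      bad_hom ι (x ^ 6) (y ^ 6) H (by omega) (by omega) hm (by omega)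
    have f1 : m - 1 + 1 = m := by omega
    have f2 : 3 * m + 1 - 1 - (m - 1) - m = m + 1 := by omega
    have f3 : 3 * m + 1 - 1 - m = 2 * m := by omega
    rw [f1] at d1 d2
    rw [f1, f2, f3] at d3
    exact caseOne p m hp hpm x y z3 z4 c1 c2 c3 c4 (ι t) (ι ti) (ι ν) (ι l) (ι ρ) (ι ρi)
      a' b' S3 S4 q' r' hreg (by rw [← map_mul, H.ht, map_one]) (by rw [← map_mul, H.hρ, map_one])
      h3 h4 e1 e2 (by rw [← map_pow, ← map_mul, H.hl, map_one]) d1 d2 d3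
  · obtain ⟨a', b', S3, S4, q', r', p1, p2, d1, d2, d3, d4⟩ :=
      bad_hom ι (x ^ 6) (y ^ 6) H (by omega) (by omega) hn (by omega)
    have f2 : 3 * n + 2 - 1 - n - n = n + 1 := by omega
    have f3 : 3 * n + 2 - 1 - n = 2 * n + 1 := by omega
    rw [f2, f3] at d3
    exact caseTwo p n hp hpn x y z3 z4 c1 c2 c3 c4 (ι t) (ι ti) (ι ν) (ι l) (ι ρ) (ι ρi)
      a' b' S3 S4 q' r' (ι π) (ι πi) p1 p2 hreg (by rw [← map_mul, H.ht, map_one])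
      (by rw [← map_mul, H.hρ, map_one]) (by rw [← map_mul, H.hπ, map_one])
      h3 h4 e1 e2 (by rw [← map_pow, ← map_mul, H.hl, map_one]) d1 d2 d3 d4

theorem exists_badPair (k : Type*) [Field k] [IsAlgClosed k] (p : ℕ) [CharP k p] (hp : p.Prime)
    (hp7 : 7 ≤ p) (Qs : Finset k[X][X]) (hQs : ∀ Q ∈ Qs, Q ≠ 0 ∧ Q.natDegree < p) :
    ∃ t l : k, BadPair k p t l ∧ ∀ Q ∈ Qs, Q.eval₂ (evalRingHom t) l ≠ 0 := by
  have h6 : p % 6 = 1 ∨ p % 6 = 5 := by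
    have h2 : ¬ 2 ∣ p := fun h => by
      have := (Nat.prime_dvd_prime_iff_eq Nat.prime_two hp).1 h; omega
    have h3 : ¬ 3 ∣ p := fun h => by
      have := (Nat.prime_dvd_prime_iff_eq Nat.prime_three hp).1 h; omega
    omega
  rcases h6 with h6 | h6
  · obtain ⟨m, hm⟩ : ∃ m, p = 6 * m + 1 := ⟨p / 6, by omega⟩
    obtain ⟨t, l, ti, ν, ρ, ρi, π, πi, a, b, s3, s4, q, r, H, HQ⟩ :=
      exists_bad (k := k) p hp (m - 1) (3 * m + 1) m (by omega) (by omega) (by omega) (by omega)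
        Qs hQs
    exact ⟨t, l, Or.inl ⟨m, by omega, hm, ti, ν, ρ, ρi, π, πi, a, b, s3, s4, q, r, H⟩, HQ⟩
  · obtain ⟨n, hn⟩ : ∃ n, p = 6 * n + 5 := ⟨p / 6, by omega⟩
    obtain ⟨t, l, ti, ν, ρ, ρi, π, πi, a, b, s3, s4, q, r, H, HQ⟩ :=
      exists_bad (k := k) p hp n (3 * n + 2) n (by omega) (by omega) (by omega) (by omega)
        Qs hQs
    exact ⟨t, l, Or.inr ⟨n, by omega, hn, ti, ν, ρ, ρi, π, πi, a, b, s3, s4, q, r, H⟩, HQ⟩

end Pool.Agent.Helper46.BC
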