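import Pool.Agent.Helper46.BC.Theta
import Pool.Agent.Helper46.BC.Neg
import Pool.Agent.Helper46.BC.Good
import Pool.Agent.Helper46.L.H408BCM.TC
import Pool.Agent.Helper46.L.H408BCM.T_helper407
import Pool.Agent.Helper46.L.H408BCM.TaskL

/-!
# The finitely generated algebras
-/

set_option autoImplicit false

namespace Pool.Agent.Helper46.BC

open MvPolynomial Pool.Agent.H408BCM Filter

universe v

/-- the relations -/
noncomputable def expl (k : Type) [Field k] (t l : k) : Fin 4 → MvPolynomial (Fin 6) (kxy k) :=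
  ![X 0 ^ 6 - C (X 0 ^ 6 + X 1 ^ 6),
    X 1 ^ 6 - C (X 0 ^ 6 + C t * X 1 ^ 6),
    C (X 0 ^ 2 * X 1 ^ 2) - (X 2 * C (X 0 ^ 3) + X 4 * X 0 + X 5 * X 1),
    X 3 * C (X 1 ^ 3) + X 4 * X 0 + C (C l) * X 5 * X 1]

section

variable (k : Type) [Field k] (t l : k)

lemma expl0 : expl k t l 0 = X 0 ^ 6 - C (X 0 ^ 6 + X 1 ^ 6) := rfl

lemma expl1 : expl k t l 1 = X 1 ^ 6 - C (X 0 ^ 6 + C t * X 1 ^ 6) := rfl

lemma expl2 : expl k t l 2 =
    C (X 0 ^ 2 * X 1 ^ 2) - (X 2 * C (X 0 ^ 3) + X 4 * X 0 + X 5 * X 1) := rfl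

lemma expl3 : expl k t l 3 = X 3 * C (X 1 ^ 3) + X 4 * X 0 + C (C l) * X 5 * X 1 := rfl

end

/-- the relations over `R(k)` -/
noncomputable def rel (k : Type) [Field k] (t l : k) (j : Fin 4) : MvPolynomial (Fin 6) (Rk k) :=
  map (toRk k) (expl k t l j)

section

variable {U : Ultrafilter Nat.Primes} {F : Nat.Primes → Type} [∀ p, Field (F p)]
  {π : (∀ p, F p) →+* ℂ} (hπ : IsUlim U π)

lemma Theta_expl (t l : ℂ) (t' l' : ∀ p, F p) (ht : π t' = t) (hl : π l' = l)
    (j : Fin 4) : Theta hπ 6 (expl ℂ t l j) = ulim U (fun p => rel (F p) (t' p) (l' p) j) := by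
  have hx0 : Theta hπ 6 (C (X 0 : A ℂ)) = ulim U (fun p => C (toRk (F p) (X 0))) :=
    Theta_C hπ 6 _ _ (theta_X hπ 0)
  have hx1 : Theta hπ 6 (C (X 1 : A ℂ)) = ulim U (fun p => C (toRk (F p) (X 1))) :=
    Theta_C hπ 6 _ _ (theta_X hπ 1)
  have hct : Theta hπ 6 (C (C t : A ℂ)) = ulim U (fun p => C (toRk (F p) (C (t' p)))) :=
    Theta_C hπ 6 _ _ (theta_C hπ t t' ht)
  have hcl : Theta hπ 6 (C (C l : A ℂ)) = ulim U (fun p => C (toRk (F p) (C (l' p)))) :=
    Theta_C hπ 6 _ _ (theta_C hπ l l' hl)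
  fin_cases j
  · show Theta hπ 6 (expl ℂ t l 0) = ulim U (fun p => rel (F p) (t' p) (l' p) 0)
    simp only [rel, expl0, map_sub, map_pow, map_add, hx0, hx1, Theta_X, map_X, map_C]
    rfl
  · show Theta hπ 6 (expl ℂ t l 1) = ulim U (fun p => rel (F p) (t' p) (l' p) 1)
    simp only [rel, expl1, map_sub, map_pow, map_add, map_mul, hx0, hx1, hct, Theta_X, map_X,
      map_C]
    rfl
  · show Theta hπ 6 (expl ℂ t l 2) = ulim U (fun p => rel (F p) (t' p) (l' p) 2)
    simp only [rel, expl2, map_sub, map_pow, map_add, map_mul, hx0, hx1, Theta_X, map_X, map_C]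
    rfl
  · show Theta hπ 6 (expl ℂ t l 3) = ulim U (fun p => rel (F p) (t' p) (l' p) 3)
    simp only [rel, expl3, map_pow, map_add, map_mul, hx1, hcl, Theta_X, map_X, map_C]
    rfl

end

/-- systems of parameters, the other order -/
lemma isSOP_swap (R : Type) [CommRing R] [IsLocalRing R] (f g : R) (h : IsSysPar R [f, g]) :
    IsSysPar R [g, f] := by
  have h1 : Ideal.ofList [g, f] = Ideal.ofList [f, g] := by
    unfold Ideal.ofList
    congr 1
    ext x
    simp [or_comm]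
  refine ⟨by rw [h1]; exact h.1, fun rs' hrs' => ?_⟩
  have := h.2 rs' hrs'
  simpa using this

open RingTheory.Sequence in
open scoped Pointwise in
/-- regular sequences of length two in elementary terms, in one direction. -/
theorem taskCv (R : Type) (B : Type v) [CommRing R] [CommRing B] [Algebra R B] (f g : R)
    (h : IsRegular B [f, g]) :
    (∀ b : B, f • b = 0 → b = 0) ∧ (∀ b c : B, g • b = f • c → ∃ d : B, b = f • d) ∧
        ¬ ∃ b c : B, (1 : B) = f • b + g • c := by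
  rw [isRegular_iff, isWeaklyRegular_cons_iff, isWeaklyRegular_singleton_iff,
    isSMulRegular_iff_right_eq_zero_of_smul] at h
  obtain ⟨⟨h1, h2⟩, h3⟩ := h
  refine ⟨h1, ?_, ?_⟩
  · unfold QuotSMulTop at h2
    rw [isSMulRegular_quotient_iff_mem_of_smul_mem] at h2
    intro b c hbc
    have h1 := h2 b (by
      rw [Submodule.mem_smul_pointwise_iff_exists]
      exact ⟨c, Submodule.mem_top, hbc.symm⟩)
    rw [Submodule.mem_smul_pointwise_iff_exists] at h1
    obtain ⟨d, -, hd⟩ := h1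
    exact ⟨d, hd.symm⟩
  · rw [Ideal.ofList_cons_smul, Ideal.ofList_singleton, Submodule.ideal_span_singleton_smul] at h3
    intro h
    apply h3
    obtain ⟨b, c, h1⟩ := h
    symm
    rw [eq_top_iff]
    intro x _
    rw [Submodule.mem_sup]
    refine ⟨f • (b * x), ?_, g • (c * x), ?_, ?_⟩
    · rw [Submodule.mem_smul_pointwise_iff_exists]
      exact ⟨_, Submodule.mem_top, rfl⟩
    · rw [Submodule.mem_smul_pointwise_iff_exists]
      exact ⟨_, Submodule.mem_top, rfl⟩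
    · rw [← smul_mul_assoc, ← smul_mul_assoc, ← add_mul, ← h1, one_mul]

/-- the elements `x`, `y` of `R(k)` -/
noncomputable def xk (k : Type) [Field k] : Rk k := toRk k (X 0)

/-- the elements `x`, `y` of `R(k)` -/
noncomputable def yk (k : Type) [Field k] : Rk k := toRk k (X 1)

lemma isSOP_xy (k : Type) [Field k] : IsSysPar (Rk k) [xk k, yk k] :=
  (Pool.Agent.H235R3.BCM.taskS k).1

lemma reg2 (k : Type) [Field k] (B : Type v) [CommRing B] [Algebra (Rk k) B]
    (h : BigCM (Rk k) B) : Reg2 (algebraMap (Rk k) B (xk k)) (algebraMap (Rk k) B (yk k)) := by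
  obtain ⟨h1, h2, h3⟩ := taskCv (Rk k) B _ _ (h _ (isSOP_xy k))
  obtain ⟨h4, h5, -⟩ := taskCv (Rk k) B _ _ (h _ (isSOP_swap _ _ _ (isSOP_xy k)))
  simp only [Algebra.smul_def] at h1 h2 h3 h4 h5
  exact ⟨h1, h4, h2, h5, h3⟩

theorem neg_part (k : Type) [Field k] (p : ℕ) (hp : p.Prime) [CharP k p] (t l : k)
    (hbad : BadPair k p t l) : ¬ MapsToBigCM.{v} k (rel k t l) := by
  rintro ⟨B, i1, i2, hB, ⟨g⟩⟩
  have hreg := reg2 k B hB
  set q : MvPolynomial (Fin 6) (Rk k) →ₐ[Rk k] B := g.comp (Ideal.Quotient.mkₐ (Rk k) _) with hq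
  have hker : ∀ j, q (rel k t l j) = 0 := by
    intro j
    rw [hq, AlgHom.comp_apply, Ideal.Quotient.mkₐ_eq_mk,
      Ideal.Quotient.eq_zero_iff_mem.2 (Ideal.subset_span (Set.mem_range_self j)), map_zero]
  have hqC : ∀ r : Rk k, q (C r) = algebraMap (Rk k) B r := by
    intro r
    rw [← MvPolynomial.algebraMap_eq, AlgHom.commutes]
  have e0 := hker 0
  have e1 := hker 1
  have e2 := hker 2
  have e3 := hker 3
  simp only [rel, expl0, expl1, expl2, expl3, map_sub, map_add, map_mul, map_pow, map_X, map_C,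
    hqC] at e0 e1 e2 e3
  refine bad_contra (k := k) p hp t l hbad
    (((algebraMap (Rk k) B).comp (toRk k)).comp (C : k →+* A k)) _ _ hreg (q (X 0)) (q (X 1))
    (q (X 2)) (q (X 3)) (q (X 4)) (q (X 5)) (sub_eq_zero.1 e0) (sub_eq_zero.1 e1)
    (sub_eq_zero.1 e2) ?_
  rw [← e3]
  rfl

theorem pos_part (t l : ℂ) (hind : ∀ Q : Polynomial (Polynomial ℤ), Q ≠ 0 → ev2 t l Q ≠ 0) :
    MapsToBigCM.{0} ℂ (rel ℂ t l) := by
  obtain ⟨B, i1, i2, hG, z3, z4, c1, c2, c3, c4, h1, h2, h3, h4⟩ := good_alg t l hind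
  obtain ⟨B', j1, j2, φ, hφ, hG'⟩ := Pool.Agent.H408BCM.taskL ℂ B hG
  let j3 : Algebra (Rk ℂ) B' := j2
  refine ⟨B', j1, j3, Pool.Agent.H408BCM.TH407.taskT Pool.Agent.H235R3.BCM.taskS
    Pool.Agent.H408BCM.taskC ℂ B' hG', ?_⟩
  have hφ' : ∀ f : A ℂ, φ (algebraMap (A ℂ) B f) = algebraMap (Rk ℂ) B' (toRk ℂ f) := hφ
  have h1' := congrArg φ h1
  have h2' := congrArg φ h2
  have h3' := congrArg φ h3
  have h4' := congrArg φ h4
  simp only [map_add, map_mul, map_pow, map_zero, hφ'] at h1' h2' h3' h4'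
  refine ⟨Ideal.Quotient.liftₐ (Ideal.span (Set.range (rel ℂ t l)))
    (MvPolynomial.aeval (R := Rk ℂ)
      (fun i : Fin 6 => (![φ z3, φ z4, φ c1, φ c2, φ c3, φ c4] : Fin 6 → B') i)) ?_⟩
  intro f hf
  have hle : Ideal.span (Set.range (rel ℂ t l)) ≤ RingHom.ker (MvPolynomial.aeval (R := Rk ℂ)
      (fun i : Fin 6 => (![φ z3, φ z4, φ c1, φ c2, φ c3, φ c4] : Fin 6 → B') i)).toRingHom := by
    rw [Ideal.span_le]
    rintro g ⟨j, rfl⟩
    simp only [SetLike.mem_coe, RingHom.mem_ker, AlgHom.toRingHom_eq_coe, RingHom.coe_coe]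
    fin_cases j
    · show MvPolynomial.aeval (R := Rk ℂ)
        (fun i : Fin 6 => (![φ z3, φ z4, φ c1, φ c2, φ c3, φ c4] : Fin 6 → B') i)
        (rel ℂ t l 0) = 0
      simp only [rel, expl0, map_sub, map_add, map_pow, map_X, map_C, aeval_X, aeval_C]
      exact sub_eq_zero.2 h1'
    · show MvPolynomial.aeval (R := Rk ℂ)
        (fun i : Fin 6 => (![φ z3, φ z4, φ c1, φ c2, φ c3, φ c4] : Fin 6 → B') i)
        (rel ℂ t l 1) = 0
      simp only [rel, expl1, map_sub, map_add, map_mul, map_pow, map_X, map_C, aeval_X, aeval_C]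
      exact sub_eq_zero.2 h2'
    · show MvPolynomial.aeval (R := Rk ℂ)
        (fun i : Fin 6 => (![φ z3, φ z4, φ c1, φ c2, φ c3, φ c4] : Fin 6 → B') i)
        (rel ℂ t l 2) = 0
      simp only [rel, expl2, map_sub, map_add, map_mul, map_pow, map_X, map_C, aeval_X, aeval_C]
      exact sub_eq_zero.2 h3'
    · show MvPolynomial.aeval (R := Rk ℂ)
        (fun i : Fin 6 => (![φ z3, φ z4, φ c1, φ c2, φ c3, φ c4] : Fin 6 → B') i)
        (rel ℂ t l 3) = 0
      simp only [rel, expl3, map_add, map_mul, map_pow, map_X, map_C, aeval_X, aeval_C]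
      exact h4'.symm
  exact hle hf

end Pool.Agent.Helper46.BC
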