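import Pool.Agent.Helper46.BC.Hom

/-!
# The solution of the equations for generic parameters
-/

set_option autoImplicit false

open Polynomial

namespace Pool.Agent.Helper46.BC

section

variable {L : Type*} [Field L]

lemma exists_vec {n A : ℕ} (q : L[X]) (hqm : q.Monic) (hqd : q.natDegree = n + 1)
    (hcop : IsCoprime ((X : L[X]) ^ A) q) (f : L[X]) :
    ∃ v : Fin (n + 1) → L, q ∣ f - X ^ A * P v := by
  obtain ⟨g, g', hg⟩ := hcop
  refine ⟨fun i => ((g * f) %ₘ q).coeff i, ?_⟩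
  have hqd' : q.degree = ((n + 1 : ℕ) : WithBot ℕ) := by
    rw [degree_eq_natDegree hqm.ne_zero, hqd]
  rw [P_of_degree ((g * f) %ₘ q) (by rw [← hqd']; exact degree_modByMonic_lt _ hqm)]
  have h1 := modByMonic_add_div (g * f) q
  refine ⟨f * g' + X ^ A * ((g * f) /ₘ q), ?_⟩
  linear_combination -f * hg - X ^ A * h1

lemma P_add {R : Type*} [CommRing R] {n : ℕ} (u v : Fin (n + 1) → R) :
    P (u + v) = P u + P v := by
  unfold P
  rw [← Finset.sum_add_distrib]
  refine Finset.sum_congr rfl (fun i _ => ?_)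
  rw [Pi.add_apply, map_add]
  ring

lemma P_sub {R : Type*} [CommRing R] {n : ℕ} (u v : Fin (n + 1) → R) :
    P (u - v) = P u - P v := by
  unfold P
  rw [← Finset.sum_sub_distrib]
  refine Finset.sum_congr rfl (fun i _ => ?_)
  rw [Pi.sub_apply, map_sub]
  ring

lemma P_smul' {R : Type*} [CommRing R] {n : ℕ} (t : R) (v : Fin (n + 1) → R) :
    P (t • v) = C t * P v := P_smul v t

lemma cop' {τ : L} (hτ : τ ≠ 0) (a b : ℕ) : IsCoprime ((X : L[X]) ^ a) ((X + C τ : L[X]) ^ b) := by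
  apply IsCoprime.pow
  refine ⟨-C τ⁻¹, C τ⁻¹, ?_⟩
  have : C τ⁻¹ * C τ = (1 : L[X]) := by rw [← C_mul, inv_mul_cancel₀ hτ, C_1]
  linear_combination this

/-- the divisibility for vectors over a larger field -/
lemma dvd_vec {k : Type*} [Field k] (f : L →+* k) {n A : ℕ} (q : L[X])
    (K : Matrix (Fin (n + 1)) (Fin (n + 1)) L)
    (hK : ∀ j : Fin (n + 1), q ∣ X ^ (j : ℕ) - X ^ A * P (fun i => K i j))
    (v : Fin (n + 1) → k) : q.map f ∣ P v - X ^ A * P ((K.map f).mulVec v) := by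
  have hmap : ∀ v : Fin (n + 1) → L, (P v).map f = P (fun i => f (v i)) := by
    intro v
    unfold P
    rw [Polynomial.map_sum]
    refine Finset.sum_congr rfl (fun i _ => ?_)
    simp
  rw [P_linear, Finset.mul_sum]
  unfold P
  rw [← Finset.sum_sub_distrib]
  refine Finset.dvd_sum (fun j _ => ?_)
  have h3 := (Polynomial.map_dvd f (hK j)).mul_left (C (v j))
  rw [Polynomial.map_sub, Polynomial.map_mul, Polynomial.map_pow, Polynomial.map_pow,
    Polynomial.map_X, hmap] at h3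
  unfold P at h3
  convert h3 using 1
  simp only [Matrix.map_apply]
  ring

theorem exists_sol {k : Type*} [Field k] [Algebra L k] (p : ℕ) [CharP L p] (hp : p.Prime) (c : ℕ)
    (hpc : p = 6 * c + 5) (τ : L) (hτ : τ ≠ 0) (Λ : k) (hΛ : Transcendental L Λ) :
    ∃ (δ : k) (a b w3 w4 : k[X]), δ * (Λ - 1) = 1 ∧ a.natDegree ≤ c ∧ b.natDegree ≤ c ∧
      w3.natDegree ≤ 3 * c + 1 ∧ w4.natDegree ≤ 3 * c + 1 ∧
      a + C (Λ * δ) * X ^ (2 * c + 1) + C Λ * (X ^ (3 * c + 2) * b) = (X + 1) ^ (c + 1) * w3 ∧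
      a + C δ * X ^ (2 * c + 1) + X ^ (3 * c + 2) * b =
        (X + C (algebraMap L k τ)) ^ (c + 1) * w4 := by
  obtain ⟨K, K', hKK, hK, -, -⟩ := exists_K (k := L) p hp c (3 * c + 2) (by omega) (by omega)
  have hqm : ∀ t : L, ((X + C t : L[X]) ^ (c + 1)).Monic := fun t => (monic_X_add_C t).pow _
  have hqd : ∀ t : L, ((X + C t : L[X]) ^ (c + 1)).natDegree = c + 1 := by
    intro t; rw [natDegree_pow, natDegree_X_add_C, mul_one]
  have hqm' : ∀ t : k, ((X + C t : k[X]) ^ (c + 1)).Monic := fun t => (monic_X_add_C t).pow _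
  have hqd' : ∀ t : k, ((X + C t : k[X]) ^ (c + 1)).natDegree = c + 1 := by
    intro t; rw [natDegree_pow, natDegree_X_add_C, mul_one]
  choose Kt' hKt' using fun j : Fin (c + 1) => exists_vec (n := c) (A := 3 * c + 2)
    ((X + C τ : L[X]) ^ (c + 1)) (hqm τ) (hqd τ) (cop' hτ _ _) (X ^ (j : ℕ))
  set Kt : Matrix (Fin (c + 1)) (Fin (c + 1)) L := fun i j => Kt' j i with hKtd
  have hKt : ∀ j : Fin (c + 1), (X + C τ : L[X]) ^ (c + 1) ∣
      X ^ (j : ℕ) - X ^ (3 * c + 2) * P (fun i => Kt i j) := hKt'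
  set ι := algebraMap L k with hι
  have hΛ1 : Λ - 1 ≠ 0 := by
    intro h
    apply hΛ
    rw [sub_eq_zero.1 h]
    exact isAlgebraic_one
  set δ : k := (Λ - 1)⁻¹ with hδ
  -- the determinant
  set M : Matrix (Fin (c + 1)) (Fin (c + 1)) k := K.map ι - Λ • Kt.map ι with hM
  have hdet : M.det ≠ 0 := by
    set N : Matrix (Fin (c + 1)) (Fin (c + 1)) L[X] :=
      K.map (C : L →+* L[X]) - (X : L[X]) • Kt.map (C : L →+* L[X]) with hN
    have h1 : N.det ≠ 0 := by
      intro h0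
      have h2 := congrArg (evalRingHom (0 : L)) h0
      rw [RingHom.map_det, map_zero] at h2
      have h3 : (evalRingHom (0 : L)).mapMatrix N = K := by
        ext i j
        simp [hN]
      rw [h3] at h2
      have h4 := congrArg Matrix.det hKK
      rw [Matrix.det_mul, h2, zero_mul, Matrix.det_one] at h4
      exact zero_ne_one h4
    have h2 : aeval Λ N.det = M.det := by
      have h3 := RingHom.map_det (aeval (R := L) Λ).toRingHom N
      refine h3.trans ?_
      congr 1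
      ext i j
      simp [hN, hM, hι]
      ring
    rw [← h2]
    exact fun h => h1 ((transcendental_iff.1 hΛ) _ h)
  obtain ⟨r1, hr1⟩ := exists_vec (n := c) (A := 3 * c + 2) ((X + C (1 : k)) ^ (c + 1)) (hqm' 1)
    (hqd' 1) (cop' one_ne_zero _ _) (-(C (Λ * δ) * X ^ (2 * c + 1)))
  obtain ⟨r2, hr2⟩ := exists_vec (n := c) (A := 3 * c + 2) ((X + C (ι τ)) ^ (c + 1)) (hqm' (ι τ))
    (hqd' (ι τ)) (cop' ((map_ne_zero ι).2 hτ) _ _) (-(C δ * X ^ (2 * c + 1)))
  have hMi : IsUnit M.det := hdet.isUnit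
  set v : Fin (c + 1) → k := M⁻¹.mulVec (r1 - Λ • r2) with hv
  have hMv : M.mulVec v = r1 - Λ • r2 := by
    rw [hv, Matrix.mulVec_mulVec, Matrix.mul_nonsing_inv _ hMi, Matrix.one_mulVec]
  have hMv' : (K.map ι).mulVec v - Λ • (Kt.map ι).mulVec v = r1 - Λ • r2 := by
    rw [← hMv, hM, Matrix.sub_mulVec, Matrix.smul_mulVec]
  have hPv := congrArg P hMv'
  rw [P_sub, P_sub, P_smul', P_smul'] at hPv
  have d1 := dvd_vec ι ((X + 1 : L[X]) ^ (c + 1)) K hK v
  have d2 := dvd_vec ι ((X + C τ : L[X]) ^ (c + 1)) Kt hKt v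
  rw [Polynomial.map_pow, Polynomial.map_add, Polynomial.map_X, Polynomial.map_one] at d1
  rw [Polynomial.map_pow, Polynomial.map_add, Polynomial.map_X, Polynomial.map_C] at d2
  rw [C_1] at hr1
  have hc1 : (X + 1 : k[X]) ^ (c + 1) ∣ P v + C (Λ * δ) * X ^ (2 * c + 1) +
      C Λ * (X ^ (3 * c + 2) * P (r2 - (Kt.map ι).mulVec v)) := by
    have h1 := dvd_sub d1 hr1
    refine h1.trans (dvd_of_eq ?_)
    rw [P_sub]
    linear_combination -X ^ (3 * c + 2) * hPv
  have hc2 : (X + C (ι τ) : k[X]) ^ (c + 1) ∣ P v + C δ * X ^ (2 * c + 1) +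
      X ^ (3 * c + 2) * P (r2 - (Kt.map ι).mulVec v) := by
    have h1 := dvd_sub d2 hr2
    refine h1.trans (dvd_of_eq ?_)
    rw [P_sub]
    ring
  obtain ⟨w3, hw3⟩ := hc1
  obtain ⟨w4, hw4⟩ := hc2
  have hX : ∀ (x : k) (m : ℕ), (C x * X ^ m).natDegree ≤ m := fun x m =>
    natDegree_C_mul_X_pow_le x m
  have hXA : ∀ u : Fin (c + 1) → k, (X ^ (3 * c + 2) * P u).natDegree ≤ 4 * c + 2 := by
    intro u
    refine natDegree_mul_le.trans ?_
    rw [natDegree_X_pow]
    have := P_natDegree u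
    omega
  have hN1 : (P v + C (Λ * δ) * X ^ (2 * c + 1) +
      C Λ * (X ^ (3 * c + 2) * P (r2 - (Kt.map ι).mulVec v))).natDegree ≤ 4 * c + 2 := by
    have g1 : (P v).natDegree ≤ 4 * c + 2 := (P_natDegree v).trans (by omega)
    have g2 : (C (Λ * δ) * X ^ (2 * c + 1)).natDegree ≤ 4 * c + 2 := (hX _ _).trans (by omega)
    have g3 := (natDegree_C_mul_le Λ _).trans (hXA (r2 - (Kt.map ι).mulVec v))
    exact natDegree_add_le_of_degree_le (natDegree_add_le_of_degree_le g1 g2) g3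
  have hN2 : (P v + C δ * X ^ (2 * c + 1) +
      X ^ (3 * c + 2) * P (r2 - (Kt.map ι).mulVec v)).natDegree ≤ 4 * c + 2 := by
    have g1 : (P v).natDegree ≤ 4 * c + 2 := (P_natDegree v).trans (by omega)
    have g2 : (C δ * X ^ (2 * c + 1)).natDegree ≤ 4 * c + 2 := (hX _ _).trans (by omega)
    have g3 := hXA (r2 - (Kt.map ι).mulVec v)
    exact natDegree_add_le_of_degree_le (natDegree_add_le_of_degree_le g1 g2) g3
  have hq1 : ((X + 1 : k[X]) ^ (c + 1)).natDegree = c + 1 := by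
    have := hqd' 1
    rwa [C_1] at this
  have hq1' : ((X + 1 : k[X]) ^ (c + 1)) ≠ 0 := by
    have := (hqm' 1).ne_zero
    rwa [C_1] at this
  have hw3d : w3.natDegree ≤ 4 * c + 2 - (c + 1) := natDegree_of_mul_monic hq1 hq1' hw3 hN1
  have hw4d : w4.natDegree ≤ 4 * c + 2 - (c + 1) :=
    natDegree_of_mul_monic (hqd' (ι τ)) (hqm' (ι τ)).ne_zero hw4 hN2
  exact ⟨δ, P v, P (r2 - (Kt.map ι).mulVec v), w3, w4, inv_mul_cancel₀ hΛ1, P_natDegree _,
    P_natDegree _, hw3d.trans (by omega), hw4d.trans (by omega), hw3, hw4⟩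

end

end Pool.Agent.Helper46.BC
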