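import Pool.Agent.Helper46.BC.DataF

/-!
# Specialization of the bad data
-/

set_option autoImplicit false

open Polynomial

namespace Pool.Agent.Helper46.BC

section

variable {k : Type*} [Field k]

theorem generic (K F : Type*) [Field K] [Field F] [Algebra (PowerSeries k) K]
    [IsFractionRing (PowerSeries k) K] [Algebra K F] [Algebra (PowerSeries k) F]
    [IsScalarTower (PowerSeries k) K F]
    (p : ℕ) (hp : p.Prime) (N : ℕ) (hN0 : 0 < N) (hNp : N < p)
    (e : PowerSeries k) (he : PowerSeries.constantCoeff e ≠ 0) (l : F)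
    (hl : l ^ p * algebraMap (PowerSeries k) F e =
      algebraMap (PowerSeries k) F (PowerSeries.X ^ N))
    (Q : k[X][X]) (hQ : Q ≠ 0) (hQp : Q.natDegree < p) :
    Q.eval₂ ((algebraMap (PowerSeries k) F).comp
      Polynomial.coeToPowerSeries.ringHom) l ≠ 0 := by
  have hei : IsUnit e := by
    rw [PowerSeries.isUnit_iff_constantCoeff]; exact he.isUnit
  obtain ⟨u, hu⟩ := hei
  set μ : PowerSeries k := PowerSeries.X ^ N * (↑u⁻¹ : PowerSeries k) with hμ
  have hμe : μ * e = PowerSeries.X ^ N := by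
    rw [hμ, ← hu, mul_assoc, Units.inv_mul, mul_one]
  have he0 : algebraMap (PowerSeries k) F e ≠ 0 := by
    intro h
    have h1 : Function.Injective (algebraMap (PowerSeries k) F) := by
      rw [IsScalarTower.algebraMap_eq (PowerSeries k) K F]
      exact (algebraMap K F).injective.comp (IsFractionRing.injective _ _)
    rw [← map_zero (algebraMap (PowerSeries k) F)] at h
    have := h1 h
    rw [this] at he
    exact he (map_zero _)
  have hl2 : l ^ p = algebraMap K F (algebraMap (PowerSeries k) K μ) := by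
    rw [← IsScalarTower.algebraMap_apply]
    apply mul_right_cancel₀ he0
    rw [hl, ← hμe, map_mul]
  have hirr : Irreducible (X ^ p - C (algebraMap (PowerSeries k) K μ)) := by
    apply X_pow_sub_C_irreducible_of_prime hp
    intro b hb
    have hbi : IsIntegral (PowerSeries k) b := by
      apply IsIntegral.of_pow hp.pos
      rw [hb]
      exact isIntegral_algebraMap
    obtain ⟨b', rfl⟩ := IsIntegrallyClosed.isIntegral_iff.1 hbi
    rw [← map_pow] at hb
    have hb2 : b' ^ p = μ := IsFractionRing.injective _ _ hb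
    have h3 := hμe
    rw [← hb2] at h3
    have h4 := congrArg PowerSeries.order h3
    have heo : PowerSeries.order e = 0 := PowerSeries.order_zero_of_unit ⟨u, hu⟩
    rw [PowerSeries.order_mul, PowerSeries.order_pow, PowerSeries.order_X_pow, heo, add_zero] at h4
    have hb0 : b' ≠ 0 := by
      rintro rfl
      rw [PowerSeries.order_zero, nsmul_eq_mul, ENat.mul_top (by
        exact_mod_cast hp.ne_zero)] at h4
      exact ENat.natCast_ne_top _ h4.symm
    rw [← PowerSeries.coe_toNat_order hb0, nsmul_eq_mul] at h4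
    have h5 : p * b'.order.toNat = N := by exact_mod_cast h4
    rcases Nat.eq_zero_or_pos b'.order.toNat with h | h
    · rw [h, mul_zero] at h5; omega
    · have := Nat.le_mul_of_pos_right p h
      omega
  have hmin : X ^ p - C (algebraMap (PowerSeries k) K μ) = minpoly K l := by
    apply minpoly.eq_of_irreducible_of_monic hirr
    · simp [hl2]
    · exact monic_X_pow_sub_C _ hp.ne_zero
  intro h0
  set φ : k[X] →+* K := (algebraMap (PowerSeries k) K).comp Polynomial.coeToPowerSeries.ringHom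
    with hφ
  have hφi : Function.Injective φ := by
    rw [hφ, RingHom.coe_comp]
    exact (IsFractionRing.injective _ _).comp (Polynomial.coe_injective k)
  have h1 : aeval l (Q.map φ) = 0 := by
    rw [← h0, aeval_def, eval₂_map, hφ, ← RingHom.comp_assoc,
      ← IsScalarTower.algebraMap_eq (PowerSeries k) K F]
  have h2 := minpoly.dvd K l h1
  rw [← hmin] at h2
  have h3 : Q.map φ = 0 := by
    by_contra hne
    have h4 := natDegree_le_of_dvd h2 hne
    rw [natDegree_X_pow_sub_C, natDegree_map_eq_of_injective hφi] at h4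
    omega
  apply hQ
  apply Polynomial.map_injective φ hφi
  rw [h3, Polynomial.map_zero]

lemma exists_alghom [IsAlgClosed k] (A : Type*) [CommRing A] [Algebra k A] [Nontrivial A]
    [Algebra.FiniteType k A] : Nonempty (A →ₐ[k] k) := by
  obtain ⟨M, hM⟩ := Ideal.exists_maximal A
  let : Field (A ⧸ M) := Ideal.Quotient.field M
  have : Algebra.FiniteType k (A ⧸ M) :=
    Algebra.FiniteType.of_surjective (Ideal.Quotient.mkₐ k M) (Ideal.Quotient.mkₐ_surjective k M)
  have : Module.Finite k (A ⧸ M) := finite_of_finite_type_of_isJacobsonRing k (A ⧸ M)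
  have hb : Function.Bijective (algebraMap k (A ⧸ M)) :=
    IsAlgClosed.algebraMap_bijective_of_isIntegral
  exact ⟨((AlgEquiv.ofBijective (Algebra.ofId k (A ⧸ M)) hb).symm : (A ⧸ M) →ₐ[k] k).comp
    (Ideal.Quotient.mkₐ k M)⟩

theorem exists_bad' (K F : Type*) [Field K] [Field F] [Algebra (PowerSeries k) K]
    [IsFractionRing (PowerSeries k) K] [Algebra K F] [Algebra (PowerSeries k) F]
    [IsScalarTower (PowerSeries k) K F] [IsAlgClosed F] [Algebra k F]
    [IsScalarTower k (PowerSeries k) F]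
    [IsAlgClosed k] (p : ℕ) [CharP k p] (hp : p.Prime) (c A j : ℕ) (hA : 1 ≤ A)
    (hN : A + c < p) (hcj : c + j + 1 ≤ A) (hj : 1 ≤ j) (Qs : Finset k[X][X])
    (hQs : ∀ Q ∈ Qs, Q ≠ 0 ∧ Q.natDegree < p) :
    ∃ (t l ti ν ρ ρi π πi : k) (a b s3 s4 q r : k[X]),
      BadR k p c A j t l ti ν ρ ρi π πi a b s3 s4 q r ∧
      ∀ Q ∈ Qs, Q.eval₂ (evalRingHom t) l ≠ 0 := by
  classical
  have hι : Function.Injective (algebraMap (PowerSeries k) F) := by
    rw [IsScalarTower.algebraMap_eq (PowerSeries k) K F]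
    exact (algebraMap K F).injective.comp (IsFractionRing.injective _ _)
  obtain ⟨e, l, ti, ν, ρ, ρi, π, πi, a, b, s3, s4, q, r, he, hl, H⟩ :=
    exists_dataF (k := k) p hp c A j hA hN hcj hj F (algebraMap (PowerSeries k) F) hι
  set t : F := algebraMap (PowerSeries k) F PowerSeries.X with ht
  have hg : ∀ Q ∈ Qs, Q.eval₂ ((algebraMap (PowerSeries k) F).comp
      Polynomial.coeToPowerSeries.ringHom) l ≠ 0 := fun Q hQ =>
    generic K F p hp (A + c) (by omega) hN e he l hl Q (hQs Q hQ).1 (hQs Q hQ).2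
  have hψ : (algebraMap (PowerSeries k) F).comp Polynomial.coeToPowerSeries.ringHom =
      (aeval (R := k) t).toRingHom := by
    apply Polynomial.ringHom_ext
    · intro x
      have : (coeToPowerSeries.ringHom (C x) : PowerSeries k) = algebraMap k (PowerSeries k) x := by
        simp
      rw [RingHom.comp_apply, this, ← IsScalarTower.algebraMap_apply]
      simp
    · simp [ht]
  rw [hψ] at hg
  set S : Finset F := {t, l, ti, ν, ρ, ρi, π, πi} ∪ (a.coeffs ∪ b.coeffs ∪ s3.coeffs ∪ s4.coeffs ∪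
    q.coeffs ∪ r.coeffs) ∪ Qs.image (fun Q => (Q.eval₂ (aeval (R := k) t).toRingHom l)⁻¹) with hS
  set 𝒜 := Algebra.adjoin k (S : Set F) with h𝒜
  have hft : Algebra.FiniteType k 𝒜 := by
    rw [h𝒜]
    exact Subalgebra.fg_iff_finiteType _ |>.1 (Subalgebra.fg_adjoin_finset S)
  have hmem : ∀ x ∈ S, x ∈ 𝒜 := fun x hx => Algebra.subset_adjoin hx
  have hlift : ∀ f : F[X], f.coeffs ⊆ S → ∃ f' : Polynomial 𝒜, f'.map (algebraMap 𝒜 F) = f := by
    intro f hf
    have : f ∈ lifts (algebraMap 𝒜 F) := by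
      rw [lifts_iff_coeff_lifts]
      intro n
      by_cases h : f.coeff n = 0
      · rw [h]; exact ⟨0, map_zero _⟩
      · exact ⟨⟨f.coeff n, hmem _ (hf (coeff_mem_coeffs h))⟩, rfl⟩
    rwa [lifts_iff_set_range] at this
  obtain ⟨a', ha'⟩ := hlift a (by intro x hx; simp only [hS, Finset.mem_union]; tauto)
  obtain ⟨b', hb'⟩ := hlift b (by intro x hx; simp only [hS, Finset.mem_union]; tauto)
  obtain ⟨s3', hs3'⟩ := hlift s3 (by intro x hx; simp only [hS, Finset.mem_union]; tauto)
  obtain ⟨s4', hs4'⟩ := hlift s4 (by intro x hx; simp only [hS, Finset.mem_union]; tauto)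
  obtain ⟨q', hq'⟩ := hlift q (by intro x hx; simp only [hS, Finset.mem_union]; tauto)
  obtain ⟨r', hr'⟩ := hlift r (by intro x hx; simp only [hS, Finset.mem_union]; tauto)
  have hlift1 : ∀ x ∈ ({t, l, ti, ν, ρ, ρi, π, πi} : Finset F), ∃ x' : 𝒜,
      algebraMap 𝒜 F x' = x := fun x hx =>
    ⟨⟨x, hmem x (by simp only [hS, Finset.mem_union]; tauto)⟩, rfl⟩
  obtain ⟨t', ht'⟩ := hlift1 t (by simp)
  obtain ⟨l', hl'⟩ := hlift1 l (by simp)
  obtain ⟨ti', hti'⟩ := hlift1 ti (by simp)
  obtain ⟨ν', hν'⟩ := hlift1 ν (by simp)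
  obtain ⟨ρ', hρ'⟩ := hlift1 ρ (by simp)
  obtain ⟨ρi', hρi'⟩ := hlift1 ρi (by simp)
  obtain ⟨π', hπ'⟩ := hlift1 π (by simp)
  obtain ⟨πi', hπi'⟩ := hlift1 πi (by simp)
  have hinj : Function.Injective (algebraMap 𝒜 F) := Subtype.coe_injective
  have H' : BadR 𝒜 p c A j t' l' ti' ν' ρ' ρi' π' πi' a' b' s3' s4' q' r' := by
    apply BadR.of_map (algebraMap 𝒜 F) hinj
    rw [ha', hb', hs3', hs4', hq', hr', ht', hl', hti', hν', hρ', hρi', hπ', hπi']
    exact H
  obtain ⟨φ⟩ := exists_alghom (k := k) 𝒜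
  refine ⟨_, _, _, _, _, _, _, _, _, _, _, _, _, _, H'.map (φ : 𝒜 →+* k), ?_⟩
  intro Q hQ
  have h1 := hg Q hQ
  obtain ⟨w, hw⟩ : ∃ w : 𝒜, algebraMap 𝒜 F w = (Q.eval₂ (aeval (R := k) t).toRingHom l)⁻¹ :=
    ⟨⟨_, hmem _ (by
      simp only [hS, Finset.mem_union, Finset.mem_image]
      exact Or.inr ⟨Q, hQ, rfl⟩)⟩, rfl⟩
  have h2 : algebraMap 𝒜 F (Q.eval₂ (aeval (R := k) t').toRingHom l') =
      Q.eval₂ (aeval (R := k) t).toRingHom l := by
    rw [Polynomial.hom_eval₂, hl']
    congr 1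
    apply Polynomial.ringHom_ext
    · intro x
      simp
    · simp [ht']
  have h3 : Q.eval₂ (aeval (R := k) t').toRingHom l' * w = 1 := by
    apply hinj
    rw [map_mul, h2, hw, mul_inv_cancel₀ h1, map_one]
  have h4 := congrArg φ h3
  rw [map_mul, map_one] at h4
  have h5 : φ (Q.eval₂ (aeval (R := k) t').toRingHom l') =
      Q.eval₂ (evalRingHom ((φ : 𝒜 →+* k) t')) ((φ : 𝒜 →+* k) l') := by
    have h6 := Polynomial.hom_eval₂ Q (aeval (R := k) t').toRingHom (φ : 𝒜 →+* k) l'
    refine h6.trans ?_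
    congr 1
    apply Polynomial.ringHom_ext
    · intro x
      simp
    · simp
  rw [← h5]
  exact left_ne_zero_of_mul_eq_one h4

theorem exists_bad [IsAlgClosed k] (p : ℕ) [CharP k p] (hp : p.Prime) (c A j : ℕ) (hA : 1 ≤ A)
    (hN : A + c < p) (hcj : c + j + 1 ≤ A) (hj : 1 ≤ j) (Qs : Finset k[X][X])
    (hQs : ∀ Q ∈ Qs, Q ≠ 0 ∧ Q.natDegree < p) :
    ∃ (t l ti ν ρ ρi π πi : k) (a b s3 s4 q r : k[X]),
      BadR k p c A j t l ti ν ρ ρi π πi a b s3 s4 q r ∧
      ∀ Q ∈ Qs, Q.eval₂ (evalRingHom t) l ≠ 0 :=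
  exists_bad' (FractionRing (PowerSeries k)) (AlgebraicClosure (FractionRing (PowerSeries k)))
    p hp c A j hA hN hcj hj Qs hQs

end

end Pool.Agent.Helper46.BC
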