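import Pool.Agent.Helper46.BC.Defs
import Pool.Agent.Helper46.L.H408BCM.MG
import Pool.Agent.Helper46.L.H235R3.BCM.TaskS

/-!
# Uniqueness of approximations
-/

set_option autoImplicit false

namespace Pool.Agent.Helper46.BC

open MvPolynomial Pool.Agent.H408BCM Filter

/-- the ultraproduct of the rings `C p` with respect to `U` -/
abbrev Ulim (U : Ultrafilter Nat.Primes) (C : Nat.Primes → Type) [∀ p, CommRing (C p)] : Type :=
  (∀ p, C p) ⧸ MG.nullIdeal (U : Filter Nat.Primes) C

/-- the class of a family in the ultraproduct -/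
def ulim (U : Ultrafilter Nat.Primes) {C : Nat.Primes → Type} [∀ p, CommRing (C p)]
    (c : ∀ p, C p) : Ulim U C :=
  Ideal.Quotient.mk _ c

variable {U : Ultrafilter Nat.Primes}

lemma ulim_eq {C : Nat.Primes → Type} [∀ p, CommRing (C p)] (c d : ∀ p, C p) :
    ulim U c = ulim U d ↔ ∀ᶠ p in (U : Filter Nat.Primes), c p = d p :=
  MG.mk_eq_mk _ _ _ _

/-- maps between ultraproducts -/
noncomputable def umap {C D : Nat.Primes → Type} [∀ p, CommRing (C p)] [∀ p, CommRing (D p)]
    (f : ∀ p, C p →+* D p) : Ulim U C →+* Ulim U D :=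
  Ideal.quotientMap _ (RingHom.pi (fun p => (f p).comp (Pi.evalRingHom C p))) (by
    intro a ha
    rw [Ideal.mem_comap, MG.mem_nullIdeal]
    filter_upwards [(MG.mem_nullIdeal _ _ _).1 ha] with p hp
    simp [hp])

lemma umap_ulim {C D : Nat.Primes → Type} [∀ p, CommRing (C p)] [∀ p, CommRing (D p)]
    (f : ∀ p, C p →+* D p) (c : ∀ p, C p) :
    umap (U := U) f (ulim U c) = ulim U (fun p => f p (c p)) := rfl

lemma toRk_injective (k : Type) [Field k] : Function.Injective (toRk k) :=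
  Pool.Agent.H235R3.BCM.inj k

lemma toRk_isUnit (k : Type) [Field k] (g : kxy k) (hg : g ∉ mxy k) : IsUnit (toRk k g) :=
  IsLocalization.map_units (Localization.AtPrime (mxy k)) (⟨g, hg⟩ : (mxy k).primeCompl)

section

variable {F : Nat.Primes → Type} [∀ p, Field (F p)] {π : (∀ p, F p) →+* ℂ} (hπ : IsUlim U π)

/-- the isomorphism of the ultraproduct with `ℂ` -/
noncomputable def sig : Ulim U F ≃+* ℂ :=
  RingEquiv.ofBijective (Ideal.Quotient.lift (MG.nullIdeal (U : Filter Nat.Primes) F) π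
    (fun a ha => (hπ.2 a).2 ha)) ⟨by
      rw [injective_iff_map_eq_zero]
      intro a ha
      obtain ⟨a, rfl⟩ := Ideal.Quotient.mk_surjective a
      rw [Ideal.Quotient.lift_mk] at ha
      rw [Ideal.Quotient.eq_zero_iff_mem]
      exact (hπ.2 a).1 ha, by
      intro b
      obtain ⟨a, ha⟩ := hπ.1 b
      exact ⟨Ideal.Quotient.mk _ a, by rw [Ideal.Quotient.lift_mk]; exact ha⟩⟩

lemma sig_ulim (a : ∀ p, F p) : sig hπ (ulim U a) = π a := rfl

lemma sig_symm (a : ∀ p, F p) : (sig hπ).symm (π a) = ulim U a := by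
  rw [← sig_ulim hπ, RingEquiv.symm_apply_apply]

/-- the map `ℂ[x,y] → ulim R_p` -/
noncomputable def theta : kxy ℂ →+* Ulim U (fun p => Rk (F p)) :=
  eval₂Hom ((umap (fun p => (toRk (F p)).comp C)).comp ((sig hπ).symm : ℂ →+* Ulim U F))
    (fun j => ulim U (fun p => toRk (F p) (X j)))

lemma theta_X (j : Fin 2) : theta hπ (X j) = ulim U (fun p => toRk (F p) (X j)) := by
  unfold theta
  rw [coe_eval₂Hom, eval₂_X]

lemma theta_C (t : ℂ) (t' : ∀ p, F p) (ht : π t' = t) :
    theta hπ (C t) = ulim U (fun p => toRk (F p) (C (t' p))) := by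
  unfold theta
  rw [coe_eval₂Hom, eval₂_C, RingHom.comp_apply]
  have : ((sig hπ).symm : ℂ →+* Ulim U F) t = ulim U t' := by
    rw [← ht]; exact sig_symm hπ t'
  rw [this, umap_ulim]
  rfl

lemma sum_of_support {ι K : Type*} [CommRing K] (f : MvPolynomial ι K) (T : Finset (ι →₀ ℕ))
    (h : f.support ⊆ T) : f = ∑ s ∈ T, monomial s (f.coeff s) := by
  conv_lhs => rw [f.as_sum]
  refine Finset.sum_subset h (fun s _ hs => ?_)
  rw [notMem_support_iff.1 hs, map_zero]

lemma theta_approx (f : kxy ℂ) (f' : ∀ p, kxy (F p)) (h : ApproxA π f f') :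
    theta hπ f = ulim U (fun p => toRk (F p) (f' p)) := by
  have h1 : (fun p => toRk (F p) (f' p)) =
      ∑ s ∈ f.support, (fun p => toRk (F p) (C ((f' p).coeff s))) *
        ∏ j : Fin 2, (fun p => toRk (F p) (X j)) ^ s j := by
    funext p
    conv_lhs => rw [sum_of_support (f' p) f.support (h.1 p)]
    rw [Finset.sum_apply, map_sum]
    refine Finset.sum_congr rfl (fun s _ => ?_)
    rw [monomial_eq, map_mul, Pi.mul_apply, Finset.prod_apply]
    congr 1
    rw [Finsupp.prod_fintype _ _ (fun _ => pow_zero _), map_prod]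
    refine Finset.prod_congr rfl (fun j _ => ?_)
    rw [map_pow, Pi.pow_apply]
  conv_lhs => rw [f.as_sum]
  rw [h1, map_sum]
  unfold ulim
  rw [map_sum]
  refine Finset.sum_congr rfl (fun s hs => ?_)
  rw [monomial_eq, map_mul, map_mul, theta_C hπ _ _ (h.2 s hs)]
  congr 1
  rw [Finsupp.prod_fintype _ _ (fun _ => pow_zero _), map_prod, map_prod]
  refine Finset.prod_congr rfl (fun j _ => ?_)
  rw [map_pow, map_pow, theta_X]
  rfl

lemma theta_R (c : kxy ℂ) (r' : ∀ p, Rk (F p)) (h : ApproxR U π (toRk ℂ c) r') :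
    theta hπ c = ulim U r' := by
  obtain ⟨f, g, f', g', hf, hg, ⟨-, hr⟩, hr'⟩ := h
  rw [← map_mul] at hr
  have h1 := toRk_injective ℂ hr
  obtain ⟨u, hu⟩ := Ideal.Quotient.mk_surjective (theta hπ c)
  have hu' : theta hπ c = ulim U u := hu.symm
  have h2 : theta hπ c * theta hπ g = theta hπ f := by rw [← map_mul, h1]
  rw [theta_approx hπ g g' hg, theta_approx hπ f f' hf, hu'] at h2
  have h3 : ulim U (fun p => u p * toRk (F p) (g' p)) =
      ulim U (fun p => toRk (F p) (f' p)) := by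
    rw [← h2]; rfl
  rw [ulim_eq] at h3
  rw [hu', ulim_eq]
  filter_upwards [h3, hr'] with p h4 h5
  have h6 := toRk_isUnit (F p) (g' p) h5.1
  exact h6.mul_right_cancel (by rw [h4, h5.2])

/-- the map `ℂ[x,y][Y] → ulim R_p[Y]` -/
noncomputable def Theta (n : ℕ) :
    MvPolynomial (Fin n) (kxy ℂ) →+* Ulim U (fun p => MvPolynomial (Fin n) (Rk (F p))) :=
  eval₂Hom ((umap (fun p => (C : Rk (F p) →+* MvPolynomial (Fin n) (Rk (F p))))).comp
    (theta hπ)) (fun i => ulim U (fun _ => X i))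

lemma Theta_X (n : ℕ) (i : Fin n) : Theta hπ n (X i) = ulim U (fun _ => X i) := by
  unfold Theta
  rw [coe_eval₂Hom, eval₂_X]

lemma Theta_C (n : ℕ) (c : kxy ℂ) (c' : ∀ p, Rk (F p)) (h : theta hπ c = ulim U c') :
    Theta hπ n (C c) = ulim U (fun p => C (c' p)) := by
  unfold Theta
  rw [coe_eval₂Hom, eval₂_C, RingHom.comp_apply, h, umap_ulim]

lemma Theta_approx (n : ℕ) (h : MvPolynomial (Fin n) (kxy ℂ))
    (h' : ∀ p, MvPolynomial (Fin n) (Rk (F p))) (H : ApproxS U π (map (toRk ℂ) h) h') :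
    Theta hπ n h = ulim U h' := by
  have hsupp : (map (toRk ℂ) h).support = h.support :=
    support_map_of_injective h (toRk_injective ℂ)
  have h1 : h' = ∑ s ∈ h.support, (fun p => C ((h' p).coeff s)) *
        ∏ j : Fin n, (fun _ => X j) ^ s j := by
    funext p
    conv_lhs => rw [sum_of_support (h' p) h.support (by rw [← hsupp]; exact H.1 p)]
    rw [Finset.sum_apply]
    refine Finset.sum_congr rfl (fun s _ => ?_)
    rw [monomial_eq, Pi.mul_apply, Finset.prod_apply]
    congr 1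
    rw [Finsupp.prod_fintype _ _ (fun _ => pow_zero _)]
    refine Finset.prod_congr rfl (fun j _ => ?_)
    rw [Pi.pow_apply]
  conv_lhs => rw [h.as_sum]
  conv_rhs => rw [h1]
  rw [map_sum]
  unfold ulim
  rw [map_sum]
  refine Finset.sum_congr rfl (fun s hs => ?_)
  have h2 := H.2 s (by rw [hsupp]; exact hs)
  rw [coeff_map] at h2
  rw [monomial_eq, map_mul, map_mul, Theta_C hπ n _ _ (theta_R hπ _ _ h2)]
  congr 1
  rw [Finsupp.prod_fintype _ _ (fun _ => pow_zero _), map_prod, map_prod]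
  refine Finset.prod_congr rfl (fun j _ => ?_)
  rw [map_pow, map_pow, Theta_X]
  rfl

end

end Pool.Agent.Helper46.BC
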